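import Pool.Agent.PT.Exact

/-!
# Building pairs
-/

open CategoryTheory Limits

namespace Pool.Agent.PT

universe v u w

variable {K : Type w} [Field K] {D : Type u} [Category.{v} D] [Preadditive D] [Linear K D]

/-! ### local endomorphism algebras -/

namespace PObj

variable {G : Grading K D} {n : ℕ} {k : ℤ} {P : D} {t : P ⟶ P}

/-- An endomorphism with non-zero constant coefficient is invertible, and the inverse of a
degree zero endomorphism can be chosen of degree zero. -/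
theorem exists_inv (h : PObj G n k P t) {r : P ⟶ P} (hr : r ∈ G.gr P P 0)
    (h0 : r ≫ tp t n ≠ 0) : ∃ s ∈ G.gr P P 0, r ≫ s = 𝟙 P ∧ s ≫ r = 𝟙 P := by
  have hcomm : ∀ i j : ℕ, tp t i ≫ tp t j = tp t j ≫ tp t i := by
    intro i j
    rw [← tp_add, ← tp_add, add_comm]
  -- the constant coefficient
  set a := h.basis.repr r with ha
  have hra : r = ∑ i, a i • tp t i := by
    conv_lhs => rw [← h.basis.sum_repr r]
    simp [ha]
  have ha0 : a 0 ≠ 0 := by
    intro h00
    apply h0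
    rw [hra, Preadditive.sum_comp]
    apply Finset.sum_eq_zero
    intro i _
    rw [Linear.smul_comp, ← tp_add]
    by_cases hi : i = 0
    · rw [hi, h00, zero_smul]
    · rw [h.tp_mul_eq_zero, smul_zero]
      have : (i : ℕ) ≠ 0 := fun h => hi (Fin.ext h)
      omega
  rcases eq_or_ne k 0 with hk | hk
  · -- all endomorphisms have degree zero
    have hall : ∀ s : P ⟶ P, s ∈ G.gr P P 0 := by
      intro s
      obtain ⟨c, hc⟩ := h.span s
      rw [hc]
      apply Submodule.sum_mem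
      intro i _
      exact Submodule.smul_mem _ _ (G.cast_mem (tp_mem G h.deg i) (by rw [hk]; ring))
    -- work in the ring `End P`
    let r' : End P := r
    let N : End P := (a 0)⁻¹ • r' - 1
    have hN : IsNilpotent N := by
      have hN1 : (N : P ⟶ P) = t ≫ ∑ i : Fin n, ((a 0)⁻¹ * a i.succ) • tp t i := by
        change (a 0)⁻¹ • r - 𝟙 P = _
        rw [hra, Fin.sum_univ_succ, smul_add, smul_smul, Fin.val_zero, tp_zero,
          inv_mul_cancel₀ ha0, one_smul, add_sub_cancel_left, Finset.smul_sum,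
          Preadditive.comp_sum]
        apply Finset.sum_congr rfl
        intro i _
        rw [smul_smul, Fin.val_succ, tp_succ', Linear.comp_smul]
      set q : P ⟶ P := ∑ i : Fin n, ((a 0)⁻¹ * a i.succ) • tp t i with hq
      have hcq : t ≫ q = q ≫ t := by
        rw [hq, Preadditive.comp_sum, Preadditive.sum_comp]
        apply Finset.sum_congr rfl
        intro i _
        rw [Linear.comp_smul, Linear.smul_comp, ← tp_succ', tp_succ]
      let tE : End P := t
      let qE : End P := q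
      have hc2 : Commute tE qE := by
        change q ≫ t = t ≫ q
        exact hcq.symm
      have hpow : ∀ m : ℕ, tE ^ m = (tp t m : P ⟶ P) := by
        intro m
        induction m with
        | zero => rfl
        | succ m ih =>
          rw [pow_succ, ih]
          change t ≫ tp t m = _
          rw [tp_succ']
      refine ⟨n + 1, ?_⟩
      have h3 : N = qE * tE := hN1
      have h4 : tE ^ (n + 1) = 0 := (hpow (n + 1)).trans h.pow
      rw [h3, hc2.symm.mul_pow, h4, mul_zero]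
    have hu : IsUnit (1 + N) := hN.isUnit_one_add
    obtain ⟨U, hU⟩ := hu
    have hU' : (U : End P) = (a 0)⁻¹ • r' := by
      rw [hU]
      change (1 : End P) + ((a 0)⁻¹ • r' - 1) = _
      abel
    obtain ⟨W, hW⟩ : ∃ W : End P, W = ((U⁻¹ : (End P)ˣ) : End P) := ⟨_, rfl⟩
    have h1 : (U : End P) * W = 1 := by rw [hW]; exact U.mul_inv
    have h2 : W * (U : End P) = 1 := by rw [hW]; exact U.inv_mul
    rw [hU'] at h1 h2
    have h1' : (show P ⟶ P from W) ≫ ((a 0)⁻¹ • r) = 𝟙 P := h1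
    have h2' : ((a 0)⁻¹ • r) ≫ (show P ⟶ P from W) = 𝟙 P := h2
    refine ⟨(a 0)⁻¹ • (show P ⟶ P from W), hall _, ?_, ?_⟩
    · rw [Linear.comp_smul, ← Linear.smul_comp]
      exact h2'
    · rw [Linear.smul_comp, ← Linear.comp_smul]
      exact h1'
  · -- only the constant coefficient is non-zero
    have hr1 : r = a 0 • 𝟙 P := by
      rw [hra, Finset.sum_eq_single 0]
      · simp
      · intro i _ hi
        rw [ha, h.repr_supp hr i, zero_smul]
        intro h'
        rcases mul_eq_zero.1 h' with h3 | h3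
        · have h4 : (i : ℕ) = 0 := by exact_mod_cast h3
          exact hi (Fin.ext h4)
        · exact hk h3
      · intro h'; exact absurd (Finset.mem_univ _) h'
    refine ⟨(a 0)⁻¹ • 𝟙 P, Submodule.smul_mem _ _ (G.id_mem P), ?_, ?_⟩
    · rw [hr1, Linear.smul_comp, Linear.comp_smul, smul_smul, mul_inv_cancel₀ ha0, one_smul,
        Category.id_comp]
    · rw [hr1, Linear.smul_comp, Linear.comp_smul, smul_smul, inv_mul_cancel₀ ha0, one_smul,
        Category.id_comp]

/-- An idempotent of degree zero killed by `t^n` vanishes. -/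
theorem idem_eq_zero (h : PObj G n k P t) {e : P ⟶ P}
    (he : e ≫ e = e) (h0 : e ≫ tp t n = 0) : e = 0 := by
  -- `e = t ≫ q`, hence `e = e^{n+1} = 0`
  set a := h.basis.repr e with ha
  have hra : e = ∑ i, a i • tp t i := by
    conv_lhs => rw [← h.basis.sum_repr e]
    simp [ha]
  have ha0 : a 0 = 0 := by
    have h1 : e ≫ tp t n = a 0 • tp t n := by
      rw [hra, Preadditive.sum_comp, Finset.sum_eq_single 0]
      · rw [Linear.smul_comp, Fin.val_zero, tp_zero, Category.id_comp]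
      · intro i _ hi
        rw [Linear.smul_comp, ← tp_add, h.tp_mul_eq_zero, smul_zero]
        have : (i : ℕ) ≠ 0 := fun h => hi (Fin.ext h)
        omega
      · intro h'; exact absurd (Finset.mem_univ _) h'
    rw [h0] at h1
    exact (smul_eq_zero.1 h1.symm).resolve_right (h.tp_ne_zero le_rfl)
  set q : P ⟶ P := ∑ i : Fin n, a i.succ • tp t i with hq
  have heq : e = t ≫ q := by
    rw [hra, Fin.sum_univ_succ, ha0, zero_smul, zero_add, hq, Preadditive.comp_sum]
    apply Finset.sum_congr rfl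
    intro i _
    rw [Linear.comp_smul, Fin.val_succ, tp_succ']
  have hcq : t ≫ q = q ≫ t := by
    rw [hq, Preadditive.comp_sum, Preadditive.sum_comp]
    apply Finset.sum_congr rfl
    intro i _
    rw [Linear.comp_smul, Linear.smul_comp, ← tp_succ', tp_succ]
  have key : ∀ m : ℕ, ∃ q' : P ⟶ P, e = tp t m ≫ q' := by
    intro m
    induction m with
    | zero => exact ⟨e, by simp⟩
    | succ m ih =>
      obtain ⟨q', hq'⟩ := ih
      refine ⟨q ≫ q', ?_⟩
      conv_lhs => rw [← he]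
      have hc' : q ≫ tp t m = tp t m ≫ q := by
        clear hq'
        induction m with
        | zero => simp
        | succ m ih =>
          rw [tp_succ', ← Category.assoc, ← hcq, Category.assoc, ih, Category.assoc]
      calc e ≫ e = (t ≫ q) ≫ (tp t m ≫ q') := by rw [← hq', ← heq]
        _ = t ≫ (q ≫ tp t m) ≫ q' := by simp only [Category.assoc]
        _ = t ≫ (tp t m ≫ q) ≫ q' := by rw [hc']
        _ = tp t (m + 1) ≫ q ≫ q' := by rw [tp_succ']; simp only [Category.assoc]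
  obtain ⟨q', hq'⟩ := key (n + 1)
  rw [hq', h.pow, zero_comp]

end PObj

/-- `P` and `P'` are not isomorphic by a homogeneous isomorphism. -/
def NoIso (G : Grading K D) (P P' : D) : Prop :=
  ∀ j, ∀ x ∈ G.gr P P' j, ∀ v ∈ G.gr P' P (-j), ¬ (x ≫ v = 𝟙 P ∧ v ≫ x = 𝟙 P')

theorem NoIso.symm {G : Grading K D} {P P' : D} (h : NoIso G P P') : NoIso G P' P := by
  intro j v hv x hx hh
  exact h (-j) x hx v (G.cast_mem hv (by ring)) ⟨hh.2, hh.1⟩

theorem NoIso.nu {G : Grading K D} {n : ℕ} {k : ℤ} {P P' : D} {t : P ⟶ P} {t' : P' ⟶ P'}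
    (hno : NoIso G P P') (h : PObj G n k P t) (h' : PObj G n k P' t') (j : ℤ)
    (x : P ⟶ P') (hx : x ∈ G.gr P P' j) (v : P' ⟶ P) (hv : v ∈ G.gr P' P (-j)) :
    x ≫ v ≫ tp t n = 0 := by
  by_contra h0
  rw [← Category.assoc] at h0
  obtain ⟨s, hs, hs1, hs2⟩ := h.exists_inv (G.comp_mem' hx hv (by ring)) h0
  rw [Category.assoc] at hs1
  -- the idempotent `v s x`
  set e : P' ⟶ P' := v ≫ s ≫ x with he
  have hee : e ≫ e = e := by
    rw [he]
    calc (v ≫ s ≫ x) ≫ v ≫ s ≫ x = v ≫ s ≫ (x ≫ v ≫ s) ≫ x := by simp only [Category.assoc]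
      _ = v ≫ s ≫ x := by rw [hs1, Category.id_comp]
  have he0 : e ∈ G.gr P' P' 0 := by
    rw [he]
    exact G.comp_mem' hv (G.comp_mem' hs hx (zero_add j)) (by ring)
  have hne : e ≠ 0 := by
    intro h00
    have h1 : x ≫ e ≫ v = x ≫ v := by
      rw [he]
      calc x ≫ (v ≫ s ≫ x) ≫ v = (x ≫ v ≫ s) ≫ x ≫ v := by simp only [Category.assoc]
        _ = x ≫ v := by rw [hs1, Category.id_comp]
    rw [h00, zero_comp, comp_zero] at h1
    rw [← h1, zero_comp] at h0
    exact h0 rfl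
  have h1 : e ≫ tp t' n ≠ 0 := fun h2 => hne (h'.idem_eq_zero hee h2)
  obtain ⟨s', _, hs1', hs2'⟩ := h'.exists_inv he0 h1
  have he1 : e = 𝟙 P' := by
    have h5 : e ≫ (e ≫ s') = (e ≫ e) ≫ s' := (Category.assoc _ _ _).symm
    rw [hs1', hee, hs1', Category.comp_id] at h5
    exact h5
  refine hno j x hx (v ≫ s) (G.comp_mem' hv hs (add_zero _)) ⟨hs1, ?_⟩
  rw [Category.assoc]
  exact he1

/-- The Calabi–Yau pairing between `Hom(P,P')` and `Hom(P',P)` is non-degenerate (with values in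
`End(P)`). -/
structure CYP (G : Grading K D) (n : ℕ) (k : ℤ) (P P' : D) : Prop where
  left : ∀ j, ∀ v ∈ G.gr P' P j, v ≠ 0 → ∃ x ∈ G.gr P P' (n * k - j), x ≫ v ≠ 0
  right : ∀ j, ∀ x ∈ G.gr P P' j, x ≠ 0 → ∃ v ∈ G.gr P' P (n * k - j), x ≫ v ≠ 0

theorem Grading.exists_isBot (G : Grading K D) {X Y : D} {ι : Type*} [Finite ι]
    (b : Module.Basis ι K (X ⟶ Y)) (d : ι → ℤ) (hb : ∀ i, b i ∈ G.gr X Y (d i))
    (hne : ∃ f : X ⟶ Y, f ≠ 0) : ∃ a, G.IsBot X Y a := by
  obtain ⟨f, hf⟩ := hne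
  have hι : Nonempty ι := by
    by_contra hι
    rw [not_nonempty_iff] at hι
    apply hf
    apply b.repr.injective
    ext i
    exact hι.elim i
  obtain ⟨i, hi⟩ := Finite.exists_min d
  refine ⟨d i, ⟨b i, hb i, b.ne_zero i⟩, ?_⟩
  intro j hj f hf
  apply b.repr.injective
  ext l
  rw [map_zero, Finsupp.zero_apply]
  apply G.repr_supp b d hb hf
  have := hi l
  omega

theorem Grading.exists_isTop (G : Grading K D) {X Y : D} {ι : Type*} [Finite ι]
    (b : Module.Basis ι K (X ⟶ Y)) (d : ι → ℤ) (hb : ∀ i, b i ∈ G.gr X Y (d i))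
    (hne : ∃ f : X ⟶ Y, f ≠ 0) : ∃ a, G.IsTop X Y a := by
  obtain ⟨f, hf⟩ := hne
  have hι : Nonempty ι := by
    by_contra hι
    rw [not_nonempty_iff] at hι
    apply hf
    apply b.repr.injective
    ext i
    exact hι.elim i
  obtain ⟨i, hi⟩ := Finite.exists_max d
  refine ⟨d i, ⟨b i, hb i, b.ne_zero i⟩, ?_⟩
  intro j hj f hf
  apply b.repr.injective
  ext l
  rw [map_zero, Finsupp.zero_apply]
  apply G.repr_supp b d hb hf
  have := hi l
  omega

/-- Construction of a pair. -/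
def mkPair (G : Grading K D) {ε k : ℤ} {n : ℕ} {P P' : D} {t : P ⟶ P} {t' : P' ⟶ P'}
    (hP : PObj G n k P t) (hP' : PObj G n k P' t') (hn : 1 ≤ n) (hε : ε = 1 ∨ ε = -1)
    (hk : 0 ≤ k) (hκ : 0 ≤ k - ε) {ν0 ν1 : ℤ} (h0 : G.IsBot P P' ν0) (h1 : G.IsTop P P' ν1)
    (cy : CYP G n k P P') (cy' : CYP G n k P' P) (hno : NoIso G P P') : Pair G ε k n where
  P := P
  P' := P'
  t := t
  t' := t'
  hP := hP
  hP' := hP'
  hn := hn
  hε := hε
  hk := hk
  hκ := hκ
  ν0 := ν0
  ν1 := ν1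
  bN := h0
  tN := h1
  cy1 := cy.left
  cy2 := cy.right
  cy1' := cy'.left
  cy2' := cy'.right
  nu := fun j x hx v hv => hno.nu hP hP' j x hx v hv
  nu' := fun j v hv x hx => hno.symm.nu hP' hP j v hv x hx

/-! ### reversing the grading -/

section rev

variable {G : Grading K D} {n : ℕ} {k : ℤ}

theorem PObj.rev {P : D} {t : P ⟶ P} (h : PObj G n k P t) : PObj G.rev n (-k) P t where
  deg := G.cast_mem h.deg (by ring)
  pow := h.pow
  indep := h.indep
  span := h.span

theorem CYP.rev {P P' : D} (h : CYP G n k P P') : CYP G.rev n (-k) P P' where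
  left := by
    intro j v hv h0
    obtain ⟨x, hx, hx0⟩ := h.left (-j) v hv h0
    exact ⟨x, G.cast_mem hx (by ring), hx0⟩
  right := by
    intro j v hv h0
    obtain ⟨x, hx, hx0⟩ := h.right (-j) v hv h0
    exact ⟨x, G.cast_mem hx (by ring), hx0⟩

theorem NoIso.rev {P P' : D} (h : NoIso G P P') : NoIso G.rev P P' := by
  intro j x hx v hv
  exact h (-j) x hx v hv

/-- twist data for the reversed grading -/
def Tw.rev {P : D} {t : P ⟶ P} {F F' : D} (T : Tw G 1 k P t F F') :
    Tw G.rev (-1) (-k) P t F F' where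
  ι := T.ι
  b := T.b
  d := fun i => -T.d i
  b_mem := fun i => G.cast_mem (T.b_mem i) (by ring)
  Q := T.Q
  Q' := T.Q'
  Cn := T.Cn
  u := T.u
  pr := T.pr
  u_mem := fun i => G.cast_mem (T.u_mem i) (by ring)
  pr_mem := fun i => G.cast_mem (T.pr_mem i) (by ring)
  u_pr := T.u_pr
  sum_pr_u := T.sum_pr_u
  u' := T.u'
  pr' := T.pr'
  u'_mem := fun i => G.cast_mem (T.u'_mem i) (by ring)
  pr'_mem := fun i => G.cast_mem (T.pr'_mem i) (by ring)
  u'_pr' := T.u'_pr'
  sum_pr'_u' := T.sum_pr'_u'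
  h := T.h
  c := T.c
  dd := T.dd
  h_mem := G.cast_mem T.h_mem (by ring)
  c_mem := G.cast_mem T.c_mem (by ring)
  dd_mem := G.cast_mem T.dd_mem (by ring)
  ex_h_c := T.ex_h_c.rev
  ex_c_dd := T.ex_c_dd.rev
  ex_dd_h := T.ex_dd_h.rev
  e := T.e
  η := T.η
  del := T.del
  e_mem := G.cast_mem T.e_mem (by ring)
  η_mem := G.cast_mem T.η_mem (by ring)
  del_mem := G.cast_mem T.del_mem (by ring)
  ex_e_η := T.ex_e_η.rev
  ex_η_del := T.ex_η_del.rev
  ex_del_e := T.ex_del_e.rev
  h_eq := T.h_eq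
  ce := T.ce

end rev

/-! ### homogeneous isomorphisms -/

section iso

variable {G : Grading K D}

theorem Grading.IsBot.transport {F F' X : D} {l c : ℤ} {a : F' ⟶ F} {b : F ⟶ F'}
    (ha : a ∈ G.gr F' F l) (hb : b ∈ G.gr F F' (-l)) (hab : a ≫ b = 𝟙 F') (hba : b ≫ a = 𝟙 F)
    (h : G.IsBot X F c) : G.IsBot X F' (c - l) := by
  constructor
  · obtain ⟨f, hf, hf0⟩ := h.1
    refine ⟨f ≫ b, G.comp_mem' hf hb (by ring), ?_⟩
    intro h0
    apply hf0
    rw [← Category.comp_id f, ← hba, ← Category.assoc, h0, zero_comp]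
  · intro j hj f hf
    have := h.2 (j + l) (by omega) (f ≫ a) (G.comp_mem hf ha)
    rw [← Category.comp_id f, ← hab, ← Category.assoc, this, zero_comp]

theorem Grading.IsTop.transport {F F' X : D} {l c : ℤ} {a : F' ⟶ F} {b : F ⟶ F'}
    (ha : a ∈ G.gr F' F l) (hb : b ∈ G.gr F F' (-l)) (hab : a ≫ b = 𝟙 F') (hba : b ≫ a = 𝟙 F)
    (h : G.IsTop X F c) : G.IsTop X F' (c - l) := by
  constructor
  · obtain ⟨f, hf, hf0⟩ := h.1
    refine ⟨f ≫ b, G.comp_mem' hf hb (by ring), ?_⟩
    intro h0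
    apply hf0
    rw [← Category.comp_id f, ← hba, ← Category.assoc, h0, zero_comp]
  · intro j hj f hf
    have := h.2 (j + l) (by omega) (f ≫ a) (G.comp_mem hf ha)
    rw [← Category.comp_id f, ← hab, ← Category.assoc, this, zero_comp]

/-- change of the target of the twist data along a degree zero isomorphism -/
def Tw.ofIso {ε k : ℤ} {P : D} {t : P ⟶ P} {F F' F'' : D} (T : Tw G ε k P t F F')
    (a : F' ⟶ F'') (b : F'' ⟶ F') (ha : a ∈ G.gr F' F'' 0) (hb : b ∈ G.gr F'' F' 0)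
    (hab : a ≫ b = 𝟙 F') (hba : b ≫ a = 𝟙 F'') : Tw G ε k P t F F'' where
  ι := T.ι
  b := T.b
  d := T.d
  b_mem := T.b_mem
  Q := T.Q
  Q' := T.Q'
  Cn := T.Cn
  u := T.u
  pr := T.pr
  u_mem := T.u_mem
  pr_mem := T.pr_mem
  u_pr := T.u_pr
  sum_pr_u := T.sum_pr_u
  u' := T.u'
  pr' := T.pr'
  u'_mem := T.u'_mem
  pr'_mem := T.pr'_mem
  u'_pr' := T.u'_pr'
  sum_pr'_u' := T.sum_pr'_u'
  h := T.h
  c := T.c
  dd := T.dd
  h_mem := T.h_mem
  c_mem := T.c_mem
  dd_mem := T.dd_mem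
  ex_h_c := T.ex_h_c
  ex_c_dd := T.ex_c_dd
  ex_dd_h := T.ex_dd_h
  e := T.e
  η := T.η ≫ a
  del := b ≫ T.del
  e_mem := T.e_mem
  η_mem := G.comp_mem' T.η_mem ha (add_zero 0)
  del_mem := G.comp_mem' hb T.del_mem (zero_add ε)
  ex_e_η := by
    refine ⟨by rw [← Category.assoc, T.ex_e_η.1, zero_comp], ?_⟩
    intro X j w hw h0
    refine T.ex_e_η.2 X j w hw ?_
    rw [← Category.comp_id (w ≫ T.η), ← hab]
    rw [← Category.assoc] at h0
    rw [← Category.assoc, h0, zero_comp]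
  ex_η_del := by
    constructor
    · calc (T.η ≫ a) ≫ b ≫ T.del = T.η ≫ (a ≫ b) ≫ T.del := by simp only [Category.assoc]
        _ = 0 := by rw [hab, Category.id_comp, T.ex_η_del.1]
    · intro X j w hw h0
      obtain ⟨v, hv, hv'⟩ := T.ex_η_del.2 X j (w ≫ b) (G.comp_mem' hw hb (add_zero j))
        (by rw [Category.assoc]; exact h0)
      refine ⟨v, hv, ?_⟩
      rw [← Category.assoc, hv', Category.assoc, hba, Category.comp_id]
  ex_del_e := by
    refine ⟨by rw [Category.assoc, T.ex_del_e.1, comp_zero], ?_⟩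
    intro X j w hw h0
    obtain ⟨v, hv, hv'⟩ := T.ex_del_e.2 X j w hw h0
    refine ⟨v ≫ a, G.comp_mem' hv ha (add_zero _), ?_⟩
    calc (v ≫ a) ≫ b ≫ T.del = v ≫ (a ≫ b) ≫ T.del := by simp only [Category.assoc]
      _ = w := by rw [hab, Category.id_comp, hv']
  h_eq := T.h_eq
  ce := T.ce

end iso

end Pool.Agent.PT
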