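import Mathlib

/-!
# `ℙ`-objects, `ℙ`-twists and the group of autoequivalences

`C` is a `K`-linear (pre)triangulated category with shift functors `⟦j⟧`, `j : ℤ`.
-/

open CategoryTheory Limits Pretriangulated DirectSum

namespace Pool.Agent.PT

universe v u w

/-! ### The graded `Hom`-spaces -/

section HomStar

variable {C : Type u} [Category.{v} C] [Preadditive C] [HasShift C ℤ]

/-- `Hom^*(X,Y) = ⨁ j, Hom(X, Y[j])`. -/
abbrev HomStar (X Y : C) : Type v := ⨁ j : ℤ, ShiftedHom X Y j

/-- The homogeneous element of `Hom^*(X,Y)` of degree `j` given by a morphism `X ⟶ Y⟦j⟧`. -/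
noncomputable def hof {X Y : C} (j : ℤ) (f : ShiftedHom X Y j) : HomStar X Y :=
  DirectSum.of (fun j : ℤ => ShiftedHom X Y j) j f

theorem hof_add {X Y : C} (j : ℤ) (f g : ShiftedHom X Y j) : hof j (f + g) = hof j f + hof j g :=
  map_add (DirectSum.of (fun j : ℤ => ShiftedHom X Y j) j) f g

/-- An additive map out of `Hom^*(X,Y)` given by additive maps on the homogeneous pieces. -/
noncomputable def extendHof {X Y : C} {A : Type*} [AddCommGroup A]
    (φ : ∀ j : ℤ, ShiftedHom X Y j →+ A) : HomStar X Y →+ A :=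
  DirectSum.toAddMonoid φ

theorem extendHof_hof {X Y : C} {A : Type*} [AddCommGroup A]
    (φ : ∀ j : ℤ, ShiftedHom X Y j →+ A) (j : ℤ) (f : ShiftedHom X Y j) :
    extendHof φ (hof j f) = φ j f := DirectSum.toAddMonoid_of φ j f

theorem hom_star_ext {X Y : C} {A : Type*} [AddCommGroup A] {φ ψ : HomStar X Y →+ A}
    (h : ∀ j (f : ShiftedHom X Y j), φ (hof j f) = ψ (hof j f)) : φ = ψ :=
  DirectSum.addHom_ext h

variable [∀ a : ℤ, (shiftFunctor C a).Additive]

/-- Composition with a homogeneous element of degree `a`, on homogeneous elements. -/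
noncomputable def compHof {X Y Z : C} {a : ℤ} (f : ShiftedHom X Y a) (b : ℤ) :
    ShiftedHom Y Z b →+ HomStar X Z :=
  AddMonoidHom.mk' (fun g => hof (a + b) (ShiftedHom.comp f g (add_comm b a)))
    (fun g g' => by rw [ShiftedHom.comp_add, hof_add])

/-- Composition with a homogeneous element of degree `a`. -/
noncomputable def compHom {X Y Z : C} {a : ℤ} (f : ShiftedHom X Y a) :
    HomStar Y Z →+ HomStar X Z :=
  extendHof (compHof f)

theorem compHom_add {X Y Z : C} {a : ℤ} (f f' : ShiftedHom X Y a) (g : HomStar Y Z) :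
    compHom (f + f') g = compHom f g + compHom f' g := by
  have : compHom (Z := Z) (f + f') = compHom f + compHom f' := by
    apply hom_star_ext
    intro b g
    simp only [AddMonoidHom.add_apply, compHom, extendHof_hof, compHof, AddMonoidHom.mk'_apply]
    rw [ShiftedHom.add_comp, hof_add]
  rw [this, AddMonoidHom.add_apply]

/-- The composition `Hom^*(X,Y) × Hom^*(Y,Z) → Hom^*(X,Z)` (in diagrammatic order): it is
biadditive and on homogeneous elements it is given by the composition of shifted morphisms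
`ShiftedHom.comp`, see `starComp_hof`. -/
noncomputable def starComp {X Y Z : C} (f : HomStar X Y) (g : HomStar Y Z) : HomStar X Z :=
  extendHof (fun _ => AddMonoidHom.mk' (fun f' => compHom f' g)
    (fun f' f'' => compHom_add f' f'' g)) f

theorem starComp_hof {X Y Z : C} {a b c : ℤ} (f : ShiftedHom X Y a) (g : ShiftedHom Y Z b)
    (h : b + a = c) : starComp (hof a f) (hof b g) = hof c (f.comp g h) := by
  subst h
  simp only [starComp, compHom, extendHof_hof, AddMonoidHom.mk'_apply, compHof]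
  have : ∀ (m m' : ℤ) (_ : m = m') (h1 : b + a = m) (h2 : b + a = m'),
      hof m (f.comp g h1) = hof m' (f.comp g h2) := by
    rintro m m' rfl _ _
    rfl
  exact this _ _ (add_comm a b) _ _

/-- The element of degree `0` of `Hom^*(X,Y)` given by a morphism `X ⟶ Y`. -/
noncomputable def hz {X Y : C} (f : X ⟶ Y) : HomStar X Y := hof 0 (ShiftedHom.mk₀ 0 rfl f)

/-- The identity in `Hom^*(X,X)`. -/
noncomputable def starId (X : C) : HomStar X X := hz (𝟙 X)

/-- The powers of an element of `End^*(P) = Hom^*(P,P)`. -/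
noncomputable def starPow {P : C} (t : HomStar P P) : ℕ → HomStar P P
  | 0 => starId P
  | (i + 1) => starComp (starPow t i) t

/-- The element of `Hom^*(P,Q)` of degree `d` corresponding to a morphism `P[-d] ⟶ Q`:
it is the composition `P ≅ P[-d][d] ⟶ Q[d]`. -/
noncomputable def unshift {P Q : C} (d : ℤ) (g : P⟦-d⟧ ⟶ Q) : HomStar P Q :=
  hof d ((shiftFunctorCompIsoId C (-d) d (neg_add_cancel d)).inv.app P ≫ g⟦d⟧')

end HomStar

/-! ### `ℙ`-objects -/

section PObject

variable (K : Type w) [Field K] {C : Type u} [Category.{v} C] [Preadditive C] [HasShift C ℤ]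
  [∀ a : ℤ, (shiftFunctor C a).Additive] [Linear K C]

/-- `P` is `m`-Calabi–Yau: there are isomorphisms `Hom(P,F) ≅ Hom(F,P[m])^∨`, natural in `F`,
where `F` runs through the class `S` of objects. -/
def IsCalabiYau (S : ObjectProperty C) (m : ℤ) (P : C) : Prop :=
  ∃ φ : ∀ F : C, S F → (P ⟶ F) ≃ₗ[K] Module.Dual K (F ⟶ P⟦m⟧),
    ∀ (F F' : C) (hF : S F) (hF' : S F') (a : P ⟶ F) (g : F ⟶ F') (b : F' ⟶ P⟦m⟧),
      φ F' hF' (a ≫ g) b = φ F hF a (g ≫ b)

/-- The elements `1, t, …, t^n` are a `K`-basis of `End^*(P)`. -/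
def PowersBasis {P : C} (t : HomStar P P) (n : ℕ) : Prop :=
  LinearIndependent K (fun i : Fin (n + 1) => starPow t i) ∧
    ∀ r : HomStar P P, ∃ a : Fin (n + 1) → K, r = ∑ i, a i • starPow t i

/-- `P` is a `ℙⁿ[k]`-object, with generator `t : P ⟶ P⟦k⟧`:
* `End^*(P) = K[t]/t^{n+1}` with `deg t = k`: `t^{n+1} = 0` and `1, t, …, t^n` is a `K`-basis of
  `End^*(P)`;
* `P` is `nk`-Calabi–Yau: there are isomorphisms `Hom(P,F) ≅ Hom(F,P[nk])^∨`, natural in `F`.

The Calabi–Yau property is only required for the objects `F` in the class `S`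
(one may take for `S` the class of all objects). -/
structure IsPObject (S : ObjectProperty C) (n : ℕ) (k : ℤ) (P : C) (t : ShiftedHom P P k) :
    Prop where
  /-- `t^{n+1} = 0` -/
  pow_eq_zero : starPow (hof k t) (n + 1) = 0
  /-- `1, t, …, t^n` is a basis of `End^*(P)` -/
  powersBasis : PowersBasis K (hof k t) n
  /-- `P` is `nk`-Calabi–Yau -/
  calabiYau : IsCalabiYau K S (n * k) P

end PObject

/-! ### `ℙ`-twists -/

section PTwist

variable (K : Type w) [Field K] {C : Type u} [Category.{v} C] [Preadditive C] [HasShift C ℤ]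
  [∀ a : ℤ, (shiftFunctor C a).Additive] [Linear K C]

/-- A homogeneous basis of `Hom^*(P,F)` (possibly infinite). -/
structure HomogBasis (P F : C) where
  /-- the index set -/
  ι : Type v
  /-- the basis -/
  basis : Module.Basis ι K (HomStar P F)
  /-- the degrees of the elements of the basis -/
  d : ι → ℤ
  homog : ∀ i, ∃ f : ShiftedHom P F (d i), basis i = hof (d i) f

/-- `Q` is the coproduct of the objects `P[-(d i)]`. -/
structure ShiftCoproduct {C : Type u} [Category.{v} C] [Preadditive C] [HasShift C ℤ]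
    (P : C) {ι : Type v} (d : ι → ℤ) (Q : C) where
  /-- the inclusions -/
  inj : ∀ i, P⟦-(d i)⟧ ⟶ Q
  isColimit : IsColimit (Cofan.mk Q inj)

variable {K}

/-- Let `b_i` be a homogeneous basis of `Hom^*(P,F)`, with `b_i` of degree `d i`, and let
`Q = Hom^*(P,F) ⊗ P = ∐ i, P[-(d i)]` and `Q' = Hom^*(P,F) ⊗ P[-k] = ∐ i, P[-(d i + k)]`.
The inclusion of the summand with index `i` of `Q` is an element `b_i ⊗ id` of `Hom^*(P,Q)` of
degree `d i`.

`H : Q' ⟶ Q` is the morphism `t ⊗ id - id ⊗ t`: if `b_i ∘ t = ∑ j, c_j b_j` then `H` is given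
on the summand with index `i` by `∑ j, c_j (b_j ⊗ id) - (b_i ⊗ id) ∘ t`. -/
def IsTwistMap {P F Q Q' : C} {k : ℤ} (t : ShiftedHom P P k) (B : HomogBasis K P F)
    (q : ShiftCoproduct P B.d Q) (q' : ShiftCoproduct P (fun i => B.d i + k) Q')
    (H : Q' ⟶ Q) : Prop :=
  ∀ i, ∃ c : B.ι →₀ K,
    starComp (hof k t) (B.basis i) = c.sum (fun j a => a • B.basis j) ∧
    unshift (B.d i + k) (q'.inj i ≫ H) =
      c.sum (fun j a => a • unshift (B.d j) (q.inj j))
        - starComp (hof k t) (unshift (B.d i) (q.inj i))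

/-- `g : Hom^*(P,F) ⊗ P ⟶ F` is the evaluation: it is given by `b_i` on the
summand `b_i ⊗ P`. -/
def IsEvaluation {P F Q : C} (B : HomogBasis K P F) (q : ShiftCoproduct P B.d Q)
    (g : Q ⟶ F) : Prop :=
  ∀ i, unshift (B.d i) (q.inj i ≫ g) = B.basis i

/-- `X ⟶ Y ⟶ Z` (the morphisms `f` and `g`) can be completed to a distinguished triangle, i.e.
`g : Y ⟶ Z` is a cone of `f : X ⟶ Y`. -/
def IsConeOf {C : Type u} [Category.{v} C] [Preadditive C] [HasShift C ℤ]
    [∀ a : ℤ, (shiftFunctor C a).Additive] [HasZeroObject C] [Pretriangulated C] {X Y Z : C}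
    (f : X ⟶ Y) (g : Y ⟶ Z) : Prop :=
  ∃ h : Z ⟶ X⟦(1 : ℤ)⟧, Triangle.mk f g h ∈ distTriang C

variable [HasZeroObject C] [Pretriangulated C]
variable (K)

/-- The cone description of the `ℙ`-twist of the object `F` along the `ℙ`-object `(P,t)`:
`G` is the cone of a morphism `e : Cone(H) ⟶ F` through which the evaluation
`Hom^*(P,F) ⊗ P ⟶ F` factors, where
`H = t ⊗ id - id ⊗ t : Hom^*(P,F) ⊗ P[-k] ⟶ Hom^*(P,F) ⊗ P`. -/
def IsPTwistAt {k : ℤ} {P : C} (t : ShiftedHom P P k) (F G : C) : Prop :=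
  ∃ (B : HomogBasis K P F) (Q Q' : C) (q : ShiftCoproduct P B.d Q)
    (q' : ShiftCoproduct P (fun i => B.d i + k) Q') (H : Q' ⟶ Q)
    (Cn : C) (c : Q ⟶ Cn) (e : Cn ⟶ F) (η : F ⟶ G),
    IsTwistMap t B q q' H ∧ IsConeOf H c ∧ IsEvaluation B q (c ≫ e) ∧ IsConeOf e η

/-- The autoequivalence `T` of `C` is, on the class `S` of objects, a `ℙ`-twist along the
`ℙ`-object `(P,t)`: for `F` in `S` the object `T(F)` is the cone of a morphism
`Cone(Hom^*(P,F) ⊗ P[-k] ⟶ Hom^*(P,F) ⊗ P) ⟶ F` as in `IsPTwistAt`. -/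
def IsPTwist (S : ObjectProperty C) {k : ℤ} {P : C} (t : ShiftedHom P P k) (T : C ≌ C) : Prop :=
  ∀ F : C, S F → IsPTwistAt K t F (T.functor.obj F)

end PTwist

/-- An object `X` is compact if every morphism from `X` to a coproduct `Y = ∐ i, Z i` factors
through a finite subcoproduct. -/
def IsCompactObj {C : Type u} [Category.{v} C] [Preadditive C] (X : C) : Prop :=
  ∀ ⦃ι : Type v⦄ (Z : ι → C) (Y : C) (inj : ∀ i, Z i ⟶ Y) (_ : IsColimit (Cofan.mk Y inj))
    (f : X ⟶ Y), ∃ (J : Finset ι) (g : ∀ i, X ⟶ Z i), f = ∑ i ∈ J, g i ≫ inj i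

/-! ### Words in two autoequivalences -/

section words

variable {C : Type u} [Category.{v} C]

/-- The autoequivalence given by a letter: `(true, true)` is `T₁`, `(true, false)` is `T₁⁻¹`,
`(false, true)` is `T₂` and `(false, false)` is `T₂⁻¹`. -/
def letter (T₁ T₂ : C ≌ C) (l : Bool × Bool) : C ≌ C :=
  if l.1 then (if l.2 then T₁ else T₁.symm) else (if l.2 then T₂ else T₂.symm)

/-- The autoequivalence given by a word: the composition of the letters (the last letter of the
word is applied first). -/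
def wordEq (T₁ T₂ : C ≌ C) : List (Bool × Bool) → (C ≌ C)
  | [] => CategoryTheory.Equivalence.refl
  | (l :: L) => (wordEq T₁ T₂ L).trans (letter T₁ T₂ l)

end words

end Pool.Agent.PT
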