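import Pool.Agent.PT.Words
import Pool.Agent.PT.Defs

/-!
# The graded category of a category with shift
-/

open CategoryTheory Limits Pretriangulated DirectSum

namespace Pool.Agent.PT

universe v u w

section defs

variable {C : Type u} [Category.{v} C] [Preadditive C] [HasShift C ℤ]

@[simp] theorem hof_zero {X Y : C} (j : ℤ) : hof j (0 : ShiftedHom X Y j) = 0 :=
  map_zero (DirectSum.of (fun j : ℤ => ShiftedHom X Y j) j)

theorem hof_injective {X Y : C} (j : ℤ) : Function.Injective (hof (X := X) (Y := Y) j) :=
  DirectSum.of_injective j

theorem hof_eq_zero {X Y : C} {j : ℤ} {f : ShiftedHom X Y j} : hof j f = 0 ↔ f = 0 := by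
  constructor
  · intro h
    apply hof_injective j
    rw [h, hof_zero]
  · rintro rfl
    simp

@[elab_as_elim]
theorem HomStar.ind {X Y : C} {motive : HomStar X Y → Prop} (f : HomStar X Y)
    (zero : motive 0) (hof : ∀ j (f : ShiftedHom X Y j), motive (hof j f))
    (add : ∀ f g, motive f → motive g → motive (f + g)) : motive f :=
  DirectSum.induction_on (motive := motive) f zero hof add

variable [∀ a : ℤ, (shiftFunctor C a).Additive]

theorem starComp_add_left {X Y Z : C} (f f' : HomStar X Y) (g : HomStar Y Z) :
    starComp (f + f') g = starComp f g + starComp f' g := by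
  rw [starComp, map_add]
  rfl

@[simp] theorem starComp_zero_left {X Y Z : C} (g : HomStar Y Z) :
    starComp (0 : HomStar X Y) g = 0 := by
  rw [starComp, map_zero]

theorem starComp_add_right {X Y Z : C} (f : HomStar X Y) (g g' : HomStar Y Z) :
    starComp f (g + g') = starComp f g + starComp f g' := by
  induction f using HomStar.ind with
  | zero => simp
  | hof j f =>
    simp only [starComp, extendHof_hof, AddMonoidHom.mk'_apply, map_add]
  | add f f' hf hf' =>
    rw [starComp_add_left, hf, hf', starComp_add_left, starComp_add_left]
    abel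

@[simp] theorem starComp_zero_right {X Y Z : C} (f : HomStar X Y) :
    starComp f (0 : HomStar Y Z) = 0 := by
  have := starComp_add_right f (0 : HomStar Y Z) 0
  rw [add_zero] at this
  exact left_eq_add.1 this

theorem starId_comp {X Y : C} (f : HomStar X Y) : starComp (starId X) f = f := by
  induction f using HomStar.ind with
  | zero => simp
  | hof j f => rw [starId, hz, starComp_hof _ _ (add_zero j), ShiftedHom.mk₀_id_comp]
  | add f g hf hg => rw [starComp_add_right, hf, hg]

theorem starComp_id {X Y : C} (f : HomStar X Y) : starComp f (starId Y) = f := by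
  induction f using HomStar.ind with
  | zero => simp
  | hof j f => rw [starId, hz, starComp_hof _ _ (zero_add j), ShiftedHom.comp_mk₀_id]
  | add f g hf hg => rw [starComp_add_left, hf, hg]

theorem starComp_assoc {W X Y Z : C} (f : HomStar W X) (g : HomStar X Y) (h : HomStar Y Z) :
    starComp (starComp f g) h = starComp f (starComp g h) := by
  induction f using HomStar.ind with
  | zero => simp
  | add f f' hf hf' => simp only [starComp_add_left, hf, hf']
  | hof a f =>
    induction g using HomStar.ind with
    | zero => simp
    | add g g' hg hg' => simp only [starComp_add_left, starComp_add_right, hg, hg']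
    | hof b g =>
      induction h using HomStar.ind with
      | zero => simp
      | add h h' hh hh' => simp only [starComp_add_right, hh, hh']
      | hof c h =>
        rw [starComp_hof f g rfl, starComp_hof g h rfl,
          starComp_hof (c := c + b + a) _ _ (by ring),
          starComp_hof (c := c + b + a) _ _ rfl, ShiftedHom.comp_assoc f g h rfl rfl rfl]

end defs

/-- The graded category of `C`: same objects, and `Hom^*(X,Y)` as morphisms. -/
structure GCat (C : Type u) : Type u where
  /-- the underlying object -/
  as : C

section cat

variable {C : Type u} [Category.{v} C] [Preadditive C] [HasShift C ℤ]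
  [∀ a : ℤ, (shiftFunctor C a).Additive]

noncomputable instance : Category.{v} (GCat C) where
  Hom X Y := HomStar X.as Y.as
  id X := starId X.as
  comp f g := starComp f g
  id_comp f := starId_comp f
  comp_id f := starComp_id f
  assoc f g h := starComp_assoc f g h

noncomputable instance (X Y : GCat C) : AddCommGroup (X ⟶ Y) :=
  inferInstanceAs (AddCommGroup (HomStar X.as Y.as))

noncomputable instance : Preadditive (GCat C) where
  homGroup X Y := inferInstance
  add_comp _ _ _ f f' g := starComp_add_left f f' g
  comp_add _ _ _ f g g' := starComp_add_right f g g'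

variable (K : Type w) [Field K] [Linear K C] [∀ a : ℤ, (shiftFunctor C a).Linear K]

theorem hof_smul {X Y : C} (j : ℤ) (r : K) (f : ShiftedHom X Y j) :
    hof j (r • f) = r • hof j f :=
  map_smul (DirectSum.lof K ℤ (fun j : ℤ => ShiftedHom X Y j) j) r f

theorem starComp_smul_left {X Y Z : C} (r : K) (f : HomStar X Y) (g : HomStar Y Z) :
    starComp (r • f) g = r • starComp f g := by
  induction f using HomStar.ind with
  | zero => simp
  | add f f' hf hf' => simp only [starComp_add_left, smul_add, hf, hf']
  | hof a f =>
    induction g using HomStar.ind with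
    | zero => simp
    | add g g' hg hg' => simp only [starComp_add_right, smul_add, hg, hg']
    | hof b g =>
      rw [← hof_smul, starComp_hof _ _ rfl, starComp_hof _ _ rfl, ShiftedHom.smul_comp, hof_smul]

theorem starComp_smul_right {X Y Z : C} (r : K) (f : HomStar X Y) (g : HomStar Y Z) :
    starComp f (r • g) = r • starComp f g := by
  induction f using HomStar.ind with
  | zero => simp
  | add f f' hf hf' => simp only [starComp_add_left, smul_add, hf, hf']
  | hof a f =>
    induction g using HomStar.ind with
    | zero => simp
    | add g g' hg hg' => simp only [starComp_add_right, smul_add, hg, hg']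
    | hof b g =>
      rw [← hof_smul, starComp_hof _ _ rfl, starComp_hof _ _ rfl, ShiftedHom.comp_smul, hof_smul]

noncomputable instance (X Y : GCat C) : Module K (X ⟶ Y) :=
  inferInstanceAs (Module K (HomStar X.as Y.as))

noncomputable instance : Linear K (GCat C) where
  homModule X Y := inferInstance
  smul_comp _ _ _ r f g := starComp_smul_left K r f g
  comp_smul _ _ _ f r g := starComp_smul_right K r f g

/-- the inclusion of the homogeneous elements of degree `j`, as a linear map -/
noncomputable def hofL (X Y : C) (j : ℤ) : ShiftedHom X Y j →ₗ[K] HomStar X Y :=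
  DirectSum.lof K ℤ (fun j : ℤ => ShiftedHom X Y j) j

/-- the projection to the homogeneous elements of degree `j`, as a linear map -/
noncomputable def hofP (X Y : C) (j : ℤ) : HomStar X Y →ₗ[K] ShiftedHom X Y j :=
  DirectSum.component K ℤ (fun j : ℤ => ShiftedHom X Y j) j

theorem hofP_hofL_same (X Y : C) (j : ℤ) (f : ShiftedHom X Y j) :
    hofP K X Y j (hofL K X Y j f) = f :=
  DirectSum.component.lof_self (R := K) (M := fun j : ℤ => ShiftedHom X Y j) j f

theorem hofP_hofL_ne (X Y : C) {i j : ℤ} (h : i ≠ j) (f : ShiftedHom X Y i) :
    hofP K X Y j (hofL K X Y i f) = 0 := by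
  have := DirectSum.component.of (R := K) (M := fun j : ℤ => ShiftedHom X Y j) j i f
  rw [dif_neg h] at this
  exact this

/-- the submodule of homogeneous elements of degree `j` -/
noncomputable def grSub (X Y : C) (j : ℤ) : Submodule K (HomStar X Y) :=
  LinearMap.range (hofL K X Y j)

theorem mem_grSub {X Y : C} {j : ℤ} {f : HomStar X Y} :
    f ∈ grSub K X Y j ↔ ∃ f' : ShiftedHom X Y j, hof j f' = f := Iff.rfl

theorem hof_mem (X Y : C) (j : ℤ) (f : ShiftedHom X Y j) : hof j f ∈ grSub K X Y j := ⟨f, rfl⟩

/-- the grading of `GCat C` -/
noncomputable def grading (C : Type u) [Category.{v} C] [Preadditive C] [HasShift C ℤ]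
    [∀ a : ℤ, (shiftFunctor C a).Additive] [Linear K C] [∀ a : ℤ, (shiftFunctor C a).Linear K] :
    Grading K (GCat C) where
  gr X Y j := grSub K X.as Y.as j
  comp_mem := by
    rintro X Y Z a b f g ⟨f', rfl⟩ ⟨g', rfl⟩
    exact ⟨f'.comp g' (add_comm b a), (starComp_hof f' g' _).symm⟩
  id_mem X := ⟨_, rfl⟩
  proj X Y j := (hofL K X.as Y.as j) ∘ₗ (hofP K X.as Y.as j)
  proj_same := by
    rintro X Y j f ⟨f', rfl⟩
    change hofL K X.as Y.as j (hofP K X.as Y.as j (hofL K X.as Y.as j f')) = _
    rw [hofP_hofL_same]
  proj_ne := by
    rintro X Y i j f ⟨f', rfl⟩ hij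
    change hofL K X.as Y.as j (hofP K X.as Y.as j (hofL K X.as Y.as i f')) = 0
    rw [hofP_hofL_ne K _ _ hij, map_zero]

/-- the grading with opposite degrees -/
def Grading.rev {D : Type u} [Category.{v} D] [Preadditive D] [Linear K D] (G : Grading K D) :
    Grading K D where
  gr X Y j := G.gr X Y (-j)
  comp_mem hf hg := G.comp_mem' hf hg (by ring)
  id_mem X := by simpa using G.id_mem X
  proj X Y j := G.proj X Y (-j)
  proj_same hf := G.proj_same hf
  proj_ne hf hij := G.proj_ne hf (fun h => hij (by omega))

end cat

end Pool.Agent.PT
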