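import Pool.Agent.PT.Final

/-!
# Coproducts of shifts, and compactness
-/

open CategoryTheory Limits Pretriangulated DirectSum

namespace Pool.Agent.PT

universe v u w

section cofan

variable {C : Type u} [Category.{v} C] [Preadditive C] {ι : Type v} {Z : ι → C} {Y : C}
  {inj : ∀ i, Z i ⟶ Y}

open Classical in
/-- the projections of a coproduct -/
noncomputable def cproj (hY : IsColimit (Cofan.mk Y inj)) (j : ι) : Y ⟶ Z j :=
  Cofan.IsColimit.desc hY (fun i => Pi.single (M := fun i => Z i ⟶ Z j) j (𝟙 (Z j)) i)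

theorem inj_desc' (hY : IsColimit (Cofan.mk Y inj)) {A : C} (g : ∀ i, Z i ⟶ A) (i : ι) :
    inj i ≫ Cofan.IsColimit.desc hY g = g i :=
  Cofan.IsColimit.fac hY g i

theorem inj_ext (hY : IsColimit (Cofan.mk Y inj)) {A : C} {f g : Y ⟶ A}
    (h : ∀ i, inj i ≫ f = inj i ≫ g) : f = g :=
  Cofan.IsColimit.hom_ext hY _ _ h

theorem inj_cproj_same (hY : IsColimit (Cofan.mk Y inj)) (i : ι) : inj i ≫ cproj hY i = 𝟙 _ := by
  classical
  rw [cproj, inj_desc']
  exact Pi.single_eq_same (M := fun l => Z l ⟶ Z i) i (𝟙 (Z i))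

theorem inj_cproj_ne (hY : IsColimit (Cofan.mk Y inj)) {i j : ι} (h : i ≠ j) :
    inj i ≫ cproj hY j = 0 := by
  classical
  rw [cproj, inj_desc']
  exact Pi.single_eq_of_ne (M := fun l => Z l ⟶ Z j) h (𝟙 (Z j))

/-- the idempotent given by a finite set of indices -/
noncomputable def EJ (hY : IsColimit (Cofan.mk Y inj)) (J : Finset ι) : Y ⟶ Y :=
  ∑ i ∈ J, cproj hY i ≫ inj i

theorem inj_EJ (hY : IsColimit (Cofan.mk Y inj)) {J : Finset ι} {i : ι} (hi : i ∈ J) :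
    inj i ≫ EJ hY J = inj i := by
  rw [EJ, Preadditive.comp_sum, Finset.sum_eq_single i]
  · rw [← Category.assoc, inj_cproj_same, Category.id_comp]
  · intro j _ hj
    rw [← Category.assoc, inj_cproj_ne hY hj.symm, zero_comp]
  · intro h; exact absurd hi h

theorem inj_EJ_of_notMem (hY : IsColimit (Cofan.mk Y inj)) {J : Finset ι} {i : ι} (hi : i ∉ J) :
    inj i ≫ EJ hY J = 0 := by
  rw [EJ, Preadditive.comp_sum]
  apply Finset.sum_eq_zero
  intro j hj
  have : i ≠ j := fun h => hi (h ▸ hj)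
  rw [← Category.assoc, inj_cproj_ne hY this, zero_comp]

theorem EJ_EJ (hY : IsColimit (Cofan.mk Y inj)) {J J' : Finset ι} (h : J ⊆ J') :
    EJ hY J ≫ EJ hY J' = EJ hY J := by
  conv_lhs => rw [EJ, Preadditive.sum_comp]
  conv_rhs => rw [EJ]
  apply Finset.sum_congr rfl
  intro i hi
  rw [Category.assoc, inj_EJ hY (h hi)]

theorem exists_EJ (hY : IsColimit (Cofan.mk Y inj)) {X : C} (hX : IsCompactObj X) (f : X ⟶ Y) :
    ∃ J : Finset ι, f = f ≫ EJ hY J := by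
  obtain ⟨J, g, hg⟩ := hX Z Y inj hY f
  refine ⟨J, ?_⟩
  conv_rhs => rw [hg, Preadditive.sum_comp]
  rw [hg]
  apply Finset.sum_congr rfl
  intro i hi
  rw [Category.assoc, inj_EJ hY hi]

open Classical in
theorem EJ_union (hY : IsColimit (Cofan.mk Y inj)) {X : C} {f : X ⟶ Y} {J J' : Finset ι}
    (h : f - f ≫ EJ hY J = (f - f ≫ EJ hY J) ≫ EJ hY J') : f = f ≫ EJ hY (J ∪ J') := by
  have h1 : (f - f ≫ EJ hY J) ≫ EJ hY (J ∪ J') = f - f ≫ EJ hY J := by
    conv_lhs => rw [h, Category.assoc, EJ_EJ hY Finset.subset_union_right]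
    exact h.symm
  rw [Preadditive.sub_comp, Category.assoc, EJ_EJ hY Finset.subset_union_left] at h1
  have h2 := sub_left_injective h1
  exact h2.symm

theorem EJ_expand (hY : IsColimit (Cofan.mk Y inj)) {X : C} {f : X ⟶ Y} {J : Finset ι}
    (h : f = f ≫ EJ hY J) : f = ∑ i ∈ J, (f ≫ cproj hY i) ≫ inj i := by
  conv_lhs => rw [h, EJ, Preadditive.comp_sum]
  apply Finset.sum_congr rfl
  intro i _
  rw [Category.assoc]

end cofan

section compact

variable {C : Type u} [Category.{v} C] [Preadditive C]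

theorem IsCompactObj.map {X : C} (hX : IsCompactObj X) (e : C ≌ C) [e.functor.Additive] :
    IsCompactObj (e.functor.obj X) := by
  intro ι Z Y inj hY f
  have hY' : IsColimit (Cofan.mk (e.inverse.obj Y) (fun i => e.inverse.map (inj i))) :=
    isColimitCofanMkObjOfIsColimit e.inverse _ _ hY
  obtain ⟨J, g, hg⟩ := hX _ _ _ hY' (e.unitIso.hom.app X ≫ e.inverse.map f)
  refine ⟨J, fun i => e.functor.map (g i) ≫ e.counitIso.hom.app (Z i), ?_⟩
  have h1 : f = e.functor.map (e.unitIso.hom.app X ≫ e.inverse.map f) ≫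
      e.counitIso.hom.app Y := by
    rw [Functor.map_comp, Category.assoc]
    have := e.counitIso.hom.naturality f
    dsimp at this
    rw [this, ← Category.assoc]
    have h2 : e.functor.map (e.unitIso.hom.app X) ≫ e.counitIso.hom.app (e.functor.obj X) = 𝟙 _ :=
      e.functor_unitIso_comp X
    rw [h2, Category.id_comp]
  rw [h1, hg, Functor.map_sum, Preadditive.sum_comp]
  apply Finset.sum_congr rfl
  intro i _
  have := e.counitIso.hom.naturality (inj i)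
  dsimp at this
  rw [Functor.map_comp, Category.assoc, this, Category.assoc]

variable [HasShift C ℤ] [∀ a : ℤ, (shiftFunctor C a).Additive]

theorem IsCompactObj.shift {X : C} (hX : IsCompactObj X) (j : ℤ) : IsCompactObj (X⟦j⟧) := by
  haveI : (shiftEquiv C j).functor.Additive := by
    change (shiftFunctor C j).Additive
    infer_instance
  exact hX.map (shiftEquiv C j)

variable [HasZeroObject C] [Pretriangulated C]

theorem IsCompactObj.of_triangle {A B Z₀ : C} {a : A ⟶ B} {b : B ⟶ Z₀} {δ : Z₀ ⟶ A⟦(1 : ℤ)⟧}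
    (hT : Triangle.mk a b δ ∈ distTriang C) (h₂ : IsCompactObj B) (h₃ : IsCompactObj Z₀) :
    IsCompactObj A := by
  intro ι Z Y inj hY f
  obtain ⟨m, δ', hT'⟩ : ∃ (m : Z₀⟦(-1 : ℤ)⟧ ⟶ A) (δ' : B ⟶ Z₀⟦(-1 : ℤ)⟧⟦(1 : ℤ)⟧),
      Triangle.mk m a δ' ∈ distTriang C := ⟨_, _, inv_rot_of_distTriang _ hT⟩
  obtain ⟨J, hJ⟩ := exists_EJ hY (h₃.shift (-1)) (m ≫ f)
  have h0 : m ≫ (f - f ≫ EJ hY J) = 0 := by
    rw [Preadditive.comp_sub, sub_eq_zero, ← Category.assoc]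
    exact hJ
  obtain ⟨g, hg⟩ : ∃ g : B ⟶ Y, f - f ≫ EJ hY J = a ≫ g :=
    Triangle.yoneda_exact₂ _ hT' (f - f ≫ EJ hY J) h0
  obtain ⟨J', hJ'⟩ := exists_EJ hY h₂ g
  have h1 : f - f ≫ EJ hY J = (f - f ≫ EJ hY J) ≫ EJ hY J' := by
    rw [hg, Category.assoc, ← hJ']
  classical
  exact ⟨J ∪ J', _, EJ_expand hY (EJ_union hY h1)⟩

end compact

section shifts

variable {C : Type u} [Category.{v} C] [Preadditive C] [HasShift C ℤ]
  [∀ a : ℤ, (shiftFunctor C a).Additive]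

/-- the canonical homogeneous isomorphism `P ⟶ P[-d]` of degree `d` -/
noncomputable def cn (P : C) (d : ℤ) : GCat.mk P ⟶ GCat.mk (P⟦-d⟧) :=
  gh d ((shiftFunctorCompIsoId C (-d) d (neg_add_cancel d)).inv.app P :
    ShiftedHom P (P⟦-d⟧) d)

theorem cn_eq (P : C) (d : ℤ) : cn P d = sh' P (-d) := by
  have key : ∀ (l m : ℤ) (h : l + m = 0),
      gh m ((shiftFunctorCompIsoId C l m h).inv.app P : ShiftedHom P (P⟦l⟧) m) = sh' P l := by
    intro l m h
    obtain rfl : m = -l := by omega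
    rfl
  exact key _ _ _

theorem cn_sh (P : C) (d : ℤ) : cn P d ≫ sh P (-d) = 𝟙 _ := by rw [cn_eq, sh'_sh]

theorem sh_cn (P : C) (d : ℤ) : sh P (-d) ≫ cn P d = 𝟙 _ := by rw [cn_eq, sh_sh']

theorem unshift_eq {P Q : C} (d : ℤ) (g : P⟦-d⟧ ⟶ Q) :
    (unshift d g : GCat.mk P ⟶ GCat.mk Q) = cn P d ≫ gz g := by
  rw [cn, gh_comp_gz]
  rfl

variable {K : Type w} [Field K] [Linear K C] [∀ a : ℤ, (shiftFunctor C a).Linear K]

theorem cn_mem (P : C) (d : ℤ) : cn P d ∈ (grading K C).gr _ _ d := gh_mem K _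

variable {P Q : C} {ι : Type v} {d : ι → ℤ} {inj : ∀ i, P⟦-(d i)⟧ ⟶ Q}

/-- the inclusion of a summand -/
noncomputable def uu (inj : ∀ i, P⟦-(d i)⟧ ⟶ Q) (i : ι) : GCat.mk P ⟶ GCat.mk Q :=
  unshift (d i) (inj i)

theorem uu_eq (i : ι) : uu inj i = cn P (d i) ≫ gz (inj i) := unshift_eq _ _

theorem uu_mem (i : ι) : uu inj i ∈ (grading K C).gr _ _ (d i) := by
  rw [uu_eq]
  exact (grading K C).comp_mem' (cn_mem P (d i)) (gz_mem K _) (add_zero _)

/-- the projection to a summand -/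
noncomputable def ppr (hQ : IsColimit (Cofan.mk Q inj)) (i : ι) : GCat.mk Q ⟶ GCat.mk P :=
  gz (cproj hQ i) ≫ sh P (-(d i))

theorem ppr_mem (hQ : IsColimit (Cofan.mk Q inj)) (i : ι) :
    ppr hQ i ∈ (grading K C).gr _ _ (-(d i)) :=
  (grading K C).comp_mem' (gz_mem K _) (sh_mem K P _) (zero_add _)

theorem uu_ppr_same (hQ : IsColimit (Cofan.mk Q inj)) (i : ι) : uu inj i ≫ ppr hQ i = 𝟙 _ := by
  rw [uu_eq, ppr]
  calc (cn P (d i) ≫ gz (inj i)) ≫ gz (cproj hQ i) ≫ sh P (-(d i))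
      = cn P (d i) ≫ (gz (inj i) ≫ gz (cproj hQ i)) ≫ sh P (-(d i)) := by
        simp only [Category.assoc]
    _ = 𝟙 _ := by rw [gz_comp_gz, inj_cproj_same, gz_id, Category.id_comp, cn_sh]

theorem uu_ppr_ne (hQ : IsColimit (Cofan.mk Q inj)) {i j : ι} (h : i ≠ j) :
    uu inj i ≫ ppr hQ j = 0 := by
  rw [uu_eq, ppr]
  calc (cn P (d i) ≫ gz (inj i)) ≫ gz (cproj hQ j) ≫ sh P (-(d j))
      = cn P (d i) ≫ (gz (inj i) ≫ gz (cproj hQ j)) ≫ sh P (-(d j)) := by
        simp only [Category.assoc]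
    _ = 0 := by rw [gz_comp_gz, inj_cproj_ne hQ h, gz_zero, zero_comp, comp_zero]

theorem gz_add {X Y : C} (f g : X ⟶ Y) : gz (f + g) = gz f + gz g := by
  rw [gz, ShiftedHom.mk₀_add, hof_add]
  rfl

theorem gz_sum {X Y : C} {κ : Type*} (J : Finset κ) (f : κ → (X ⟶ Y)) :
    gz (∑ i ∈ J, f i) = ∑ i ∈ J, gz (f i) := by
  classical
  induction J using Finset.induction_on with
  | empty => simp
  | insert a J ha ih => rw [Finset.sum_insert ha, Finset.sum_insert ha, gz_add, ih]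

theorem ppr_uu (hQ : IsColimit (Cofan.mk Q inj)) (i : ι) :
    ppr hQ i ≫ uu inj i = gz (cproj hQ i ≫ inj i) := by
  rw [uu_eq, ppr]
  calc (gz (cproj hQ i) ≫ sh P (-(d i))) ≫ cn P (d i) ≫ gz (inj i)
      = gz (cproj hQ i) ≫ (sh P (-(d i)) ≫ cn P (d i)) ≫ gz (inj i) := by
        simp only [Category.assoc]
    _ = _ := by rw [sh_cn, Category.id_comp, gz_comp_gz]

theorem gz_EJ (hQ : IsColimit (Cofan.mk Q inj)) (J : Finset ι) :
    gz (EJ hQ J) = ∑ i ∈ J, ppr hQ i ≫ uu inj i := by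
  rw [EJ, gz_sum]
  apply Finset.sum_congr rfl
  intro i _
  rw [ppr_uu]

theorem sum_ppr_uu [Fintype ι] (hQ : IsColimit (Cofan.mk Q inj)) :
    ∑ i, ppr hQ i ≫ uu inj i = 𝟙 _ := by
  rw [← gz_EJ, ← gz_id]
  congr 1
  apply inj_ext hQ
  intro i
  rw [inj_EJ hQ (Finset.mem_univ i), Category.comp_id]

/-- homogeneous morphisms out of a coproduct are determined by their restrictions -/
theorem uu_ext (hQ : IsColimit (Cofan.mk Q inj)) {X : GCat C} {j : ℤ} {g : GCat.mk Q ⟶ X}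
    (hg : g ∈ (grading K C).gr _ _ j) (h : ∀ i, uu inj i ≫ g = 0) : g = 0 := by
  obtain ⟨γ, rfl⟩ := exists_gh K hg
  rw [gh_eq_zero]
  apply inj_ext hQ
  intro i
  rw [comp_zero, ← gh_eq_zero (j := j), ← gz_comp_gh]
  have h1 := h i
  rw [uu_eq, Category.assoc] at h1
  rw [← Category.id_comp (gz (inj i) ≫ gh j γ), ← sh_cn, Category.assoc]
  change sh P (-(d i)) ≫ cn P (d i) ≫ gz (inj i) ≫ gh j γ = 0
  rw [h1, comp_zero]

/-- homogeneous morphisms out of a coproduct can be constructed from their restrictions -/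
theorem exists_desc (hQ : IsColimit (Cofan.mk Q inj)) {X : GCat C} {j : ℤ}
    (g : ∀ i, GCat.mk P ⟶ X) (hg : ∀ i, g i ∈ (grading K C).gr _ _ (d i + j)) :
    ∃ φ ∈ (grading K C).gr (GCat.mk Q) X j, ∀ i, uu inj i ≫ φ = g i := by
  have h1 : ∀ i, ∃ a : P⟦-(d i)⟧ ⟶ X.as⟦j⟧, sh P (-(d i)) ≫ g i = gh j a := fun i =>
    exists_gh K ((grading K C).comp_mem' (sh_mem K P (-(d i))) (hg i) (by ring))
  choose a ha using h1
  refine ⟨gh j (Cofan.IsColimit.desc hQ a), gh_mem K _, ?_⟩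
  intro i
  rw [uu_eq, Category.assoc]
  change cn P (d i) ≫ gz (inj i) ≫ gh j (Cofan.IsColimit.desc hQ a) = g i
  rw [gz_comp_gh, inj_desc']
  have h2 := ha i
  change _ = gh j (a i) at h2
  rw [← h2, ← Category.assoc, cn_sh, Category.id_comp]

/-- morphisms from a compact object into a coproduct -/
theorem exists_gz_EJ (hQ : IsColimit (Cofan.mk Q inj)) {X : C} (hX : IsCompactObj X) {j : ℤ}
    {g : GCat.mk X ⟶ GCat.mk Q} (hg : g ∈ (grading K C).gr _ _ j) :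
    ∃ J : Finset ι, g = g ≫ gz (EJ hQ J) := by
  obtain ⟨γ, rfl⟩ := exists_gh K hg
  have hQ' : IsColimit (Cofan.mk (Q⟦j⟧) (fun i => (inj i)⟦j⟧')) :=
    isColimitCofanMkObjOfIsColimit (shiftFunctor C j) _ _ hQ
  obtain ⟨J, a, ha⟩ := hX _ _ _ hQ' γ
  refine ⟨J, ?_⟩
  rw [gh_comp_gz]
  congr 1
  change γ = γ ≫ (EJ hQ J)⟦j⟧'
  conv_rhs => rw [ha, Preadditive.sum_comp]
  rw [ha]
  apply Finset.sum_congr rfl
  intro i hi
  rw [Category.assoc, ← Functor.map_comp, inj_EJ hQ hi]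

end shifts

end Pool.Agent.PT
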