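import Pool.Agent.PT.Bridge

/-!
# Exactness of distinguished triangles in the graded category
-/

open CategoryTheory Limits Pretriangulated DirectSum

namespace Pool.Agent.PT

universe v u w

section

variable {C : Type u} [Category.{v} C] [Preadditive C] [HasShift C ℤ]
  [∀ a : ℤ, (shiftFunctor C a).Additive]

/-- degree zero morphisms -/
noncomputable def gz {A B : C} (f : A ⟶ B) : (GCat.mk A) ⟶ (GCat.mk B) :=
  hof 0 (ShiftedHom.mk₀ 0 rfl f)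

/-- homogeneous morphisms -/
noncomputable def gh {A B : C} (j : ℤ) (f : ShiftedHom A B j) : (GCat.mk A) ⟶ (GCat.mk B) :=
  hof j f

theorem gh_comp {X Y Z : C} {a b c : ℤ} (f : ShiftedHom X Y a) (g : ShiftedHom Y Z b)
    (h : b + a = c) : gh a f ≫ gh b g = gh c (f.comp g h) := starComp_hof f g h

theorem gh_eq_zero {X Y : C} {j : ℤ} {f : ShiftedHom X Y j} : gh j f = 0 ↔ f = 0 :=
  hof_eq_zero

theorem gh_comp_gz {X Y Z : C} {a : ℤ} (f : ShiftedHom X Y a) (g : Y ⟶ Z) :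
    gh a f ≫ gz g = gh a (f ≫ g⟦a⟧') := by
  rw [gz]
  change gh a f ≫ gh 0 _ = _
  rw [gh_comp f _ (zero_add a), ShiftedHom.comp_mk₀]

theorem gz_comp_gh {X Y Z : C} {a : ℤ} (f : X ⟶ Y) (g : ShiftedHom Y Z a) :
    gz f ≫ gh a g = gh a (f ≫ g) := by
  rw [gz]
  change gh 0 _ ≫ gh a g = _
  rw [gh_comp _ g (add_zero a), ShiftedHom.mk₀_comp]

theorem gz_comp_gz {X Y Z : C} (f : X ⟶ Y) (g : Y ⟶ Z) : gz f ≫ gz g = gz (f ≫ g) := by
  rw [gz, gz, gz]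
  change gh 0 _ ≫ gh 0 _ = gh 0 _
  rw [gh_comp _ _ (add_zero 0), ShiftedHom.mk₀_comp_mk₀]

@[simp] theorem gz_zero {X Y : C} : gz (0 : X ⟶ Y) = 0 := by
  rw [gz, ShiftedHom.mk₀_zero, hof_zero]

@[simp] theorem gz_id {X : C} : gz (𝟙 X) = 𝟙 (GCat.mk X) := rfl

variable (K : Type w) [Field K] [Linear K C] [∀ a : ℤ, (shiftFunctor C a).Linear K]

theorem gh_mem {X Y : C} {j : ℤ} (f : ShiftedHom X Y j) :
    gh j f ∈ (grading K C).gr ⟨X⟩ ⟨Y⟩ j := hof_mem K X Y j f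

theorem gz_mem {X Y : C} (f : X ⟶ Y) : gz f ∈ (grading K C).gr ⟨X⟩ ⟨Y⟩ 0 := hof_mem K X Y 0 _

theorem exists_gh {X Y : GCat C} {j : ℤ} {f : X ⟶ Y} (hf : f ∈ (grading K C).gr X Y j) :
    ∃ f' : ShiftedHom X.as Y.as j, f = gh j f' := by
  obtain ⟨f', rfl⟩ := hf
  exact ⟨f', rfl⟩

variable [HasZeroObject C] [Pretriangulated C]

theorem ex₂ {A B Z : C} {f : A ⟶ B} {g : B ⟶ Z} {δ : Z ⟶ A⟦(1 : ℤ)⟧}
    (hT : Triangle.mk f g δ ∈ distTriang C) : Ex (grading K C) (gz f) (gz g) 0 := by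
  constructor
  · rw [gz_comp_gz]
    have : f ≫ g = 0 := comp_distTriang_mor_zero₁₂ _ hT
    rw [this, gz_zero]
  · intro X j w hw h0
    obtain ⟨w, rfl⟩ := exists_gh K hw
    rw [gh_comp_gz, gh_eq_zero] at h0
    have hv : ∃ v : X.as ⟶ A⟦j⟧, w = v ≫ (j.negOnePow • f⟦j⟧') :=
      Triangle.coyoneda_exact₂ _ (Triangle.shift_distinguished _ hT j) w
      (by
        change w ≫ (j.negOnePow • g⟦j⟧') = 0
        rw [Linear.comp_units_smul, h0, smul_zero])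
    obtain ⟨v, hv⟩ := hv
    refine ⟨gh j (j.negOnePow • v), ?_, ?_⟩
    · rw [sub_zero]
      exact gh_mem K _
    · rw [gh_comp_gz, Linear.units_smul_comp, hv, Linear.comp_units_smul]

theorem ex₃ {A B Z : C} {f : A ⟶ B} {g : B ⟶ Z} {δ : Z ⟶ A⟦(1 : ℤ)⟧}
    (hT : Triangle.mk f g δ ∈ distTriang C) : Ex (grading K C) (gz g) (gh 1 δ) 0 := by
  constructor
  · rw [gz_comp_gh]
    have : g ≫ δ = 0 := comp_distTriang_mor_zero₂₃ _ hT
    rw [this]
    exact gh_eq_zero.2 rfl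
  · intro X j w hw h0
    obtain ⟨w, rfl⟩ := exists_gh K hw
    rw [gh_comp _ _ rfl, gh_eq_zero, ShiftedHom.comp] at h0
    have h1 : w ≫ δ⟦j⟧' = 0 := by
      rw [← cancel_mono ((shiftFunctorAdd' C 1 j (1 + j) rfl).inv.app A), Category.assoc,
        zero_comp]
      exact h0
    have hv : ∃ v : X.as ⟶ B⟦j⟧, w = v ≫ (j.negOnePow • g⟦j⟧') :=
      Triangle.coyoneda_exact₃ _ (Triangle.shift_distinguished _ hT j) w
      (by
        change w ≫ (j.negOnePow • δ⟦j⟧' ≫ (shiftFunctorComm C 1 j).hom.app A) = 0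
        rw [Linear.comp_units_smul, ← Category.assoc, h1, zero_comp, smul_zero])
    obtain ⟨v, hv⟩ := hv
    refine ⟨gh j (j.negOnePow • v), ?_, ?_⟩
    · rw [sub_zero]
      exact gh_mem K _
    · rw [gh_comp_gz, Linear.units_smul_comp, hv, Linear.comp_units_smul]

theorem ex₁ {A B Z : C} {f : A ⟶ B} {g : B ⟶ Z} {δ : Z ⟶ A⟦(1 : ℤ)⟧}
    (hT : Triangle.mk f g δ ∈ distTriang C) : Ex (grading K C) (gh 1 δ) (gz f) 1 := by
  constructor
  · rw [gh_comp_gz]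
    have : δ ≫ f⟦(1 : ℤ)⟧' = 0 := comp_distTriang_mor_zero₃₁ _ hT
    rw [this]
    exact gh_eq_zero.2 rfl
  · intro X j w hw h0
    obtain ⟨w, rfl⟩ := exists_gh K hw
    rw [gh_comp_gz, gh_eq_zero] at h0
    have hj : (j - 1) + 1 = j := by ring
    let φ := shiftFunctorAdd' C (j - 1) 1 j hj
    have hv : ∃ v : X.as ⟶ Z⟦(j - 1)⟧, w ≫ φ.hom.app A =
        v ≫ ((j - 1).negOnePow • δ⟦(j - 1)⟧' ≫ (shiftFunctorComm C 1 (j - 1)).hom.app A) :=
      Triangle.coyoneda_exact₁ _ (Triangle.shift_distinguished _ hT (j - 1))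
      (w ≫ φ.hom.app A)
      (by
        change (w ≫ φ.hom.app A) ≫ (((j - 1).negOnePow • f⟦(j - 1)⟧')⟦(1 : ℤ)⟧') = 0
        have h2 : φ.hom.app A ≫ (f⟦(j - 1)⟧')⟦(1 : ℤ)⟧' = f⟦j⟧' ≫ φ.hom.app B :=
          (φ.hom.naturality f).symm
        have h3 : (((j - 1).negOnePow • f⟦(j - 1)⟧')⟦(1 : ℤ)⟧')
            = (j - 1).negOnePow • ((f⟦(j - 1)⟧')⟦(1 : ℤ)⟧') := by
          rcases Int.even_or_odd (j - 1) with h | h
          · simp [Int.negOnePow_even _ h]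
          · simp [Int.negOnePow_odd _ h]
        rw [h3, Linear.comp_units_smul, Category.assoc, h2, ← Category.assoc, h0, zero_comp,
          smul_zero])
    obtain ⟨v, hv⟩ := hv
    refine ⟨gh (j - 1) ((j - 1).negOnePow • v), gh_mem K _, ?_⟩
    rw [gh_comp _ _ (show (1 : ℤ) + (j - 1) = j by ring), ShiftedHom.comp]
    congr 1
    rw [← cancel_mono (φ.hom.app A), hv, shiftFunctorComm_eq C 1 (j - 1) j (by ring)]
    simp only [Linear.units_smul_comp, Linear.comp_units_smul, Category.assoc, Iso.trans_hom,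
      Iso.symm_hom, NatTrans.comp_app]
    rfl

end

theorem Ex.rev {K : Type w} [Field K] {D : Type u} [Category.{v} D] [Preadditive D] [Linear K D]
    {G : Grading K D} {A B Z : D} {f : A ⟶ B} {g : B ⟶ Z} {a : ℤ} (h : Ex G f g a) :
    Ex G.rev f g (-a) :=
  ⟨h.1, fun X j w hw h0 => by
    obtain ⟨v, hv, hv'⟩ := h.2 X (-j) w hw h0
    exact ⟨v, G.cast_mem hv (by ring), hv'⟩⟩

end Pool.Agent.PT
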