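import Pool.Agent.PT.Assemble

/-!
# From the category with shift to the graded category
-/

open CategoryTheory Limits Pretriangulated DirectSum

namespace Pool.Agent.PT

universe v u w

section basic

variable {C : Type u} [Category.{v} C] [Preadditive C] [HasShift C ℤ]
  [∀ a : ℤ, (shiftFunctor C a).Additive]

theorem tp_eq_starPow {P : C} (t : HomStar P P) (i : ℕ) :
    (tp (P := GCat.mk P) t i : GCat.mk P ⟶ GCat.mk P) = starPow t i := by
  induction i with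
  | zero => rfl
  | succ i ih =>
    rw [tp_succ, ih]
    rfl

theorem gz_injective {X Y : C} : Function.Injective (gz : (X ⟶ Y) → _) := by
  intro f g h
  have h1 : ShiftedHom.mk₀ (0 : ℤ) rfl f = ShiftedHom.mk₀ (0 : ℤ) rfl g :=
    hof_injective (X := X) (Y := Y) 0 h
  exact (ShiftedHom.homEquiv (0 : ℤ) rfl).injective h1

/-- the canonical homogeneous isomorphism `X⟦l⟧ ⟶ X` of degree `l` -/
noncomputable def sh (X : C) (l : ℤ) : GCat.mk (X⟦l⟧) ⟶ GCat.mk X :=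
  gh l (𝟙 (X⟦l⟧) : ShiftedHom (X⟦l⟧) X l)

/-- its inverse -/
noncomputable def sh' (X : C) (l : ℤ) : GCat.mk X ⟶ GCat.mk (X⟦l⟧) :=
  gh (-l) ((shiftFunctorCompIsoId C l (-l) (add_neg_cancel l)).inv.app X :
    ShiftedHom X (X⟦l⟧) (-l))

theorem sh_sh' (X : C) (l : ℤ) : sh X l ≫ sh' X l = 𝟙 _ := by
  rw [sh, sh', gh_comp _ _ (neg_add_cancel l), ← gz_id, gz]
  change hof 0 _ = hof 0 _
  congr 1
  rw [ShiftedHom.comp, Category.id_comp, shift_shiftFunctorCompIsoId_inv_app]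
  simp [shiftFunctorCompIsoId, ShiftedHom.mk₀, shiftFunctorZero']

theorem sh'_sh (X : C) (l : ℤ) : sh' X l ≫ sh X l = 𝟙 _ := by
  rw [sh, sh', gh_comp _ _ (add_neg_cancel l), ← gz_id, gz]
  change hof 0 _ = hof 0 _
  congr 1
  rw [ShiftedHom.comp]
  simp [shiftFunctorCompIsoId, ShiftedHom.mk₀, shiftFunctorZero']

theorem gh_eq_gz_sh {X Y : C} {l : ℤ} (f : ShiftedHom X Y l) : gh l f = gz (B := Y⟦l⟧) f ≫ sh Y l := by
  rw [sh, gz_comp_gh, Category.comp_id]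

variable (K : Type w) [Field K] [Linear K C] [∀ a : ℤ, (shiftFunctor C a).Linear K]

theorem exists_gz {X Y : GCat C} {f : X ⟶ Y} (hf : f ∈ (grading K C).gr X Y 0) :
    ∃ f' : X.as ⟶ Y.as, f = gz f' := by
  obtain ⟨f', rfl⟩ := hf
  refine ⟨(ShiftedHom.homEquiv (0 : ℤ) rfl).symm f', ?_⟩
  have : ShiftedHom.mk₀ (0 : ℤ) rfl ((ShiftedHom.homEquiv (0 : ℤ) rfl).symm f') = f' :=
    (ShiftedHom.homEquiv (0 : ℤ) rfl).apply_symm_apply f'
  rw [gz, this]
  rfl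

theorem sh_mem (X : C) (l : ℤ) : sh X l ∈ (grading K C).gr _ _ l := gh_mem K _

theorem sh'_mem (X : C) (l : ℤ) : sh' X l ∈ (grading K C).gr _ _ (-l) := gh_mem K _

theorem exists_of_iso {F F₀ : C} {l : ℤ} (φ : F ≅ F₀⟦l⟧) :
    ∃ a ∈ (grading K C).gr ⟨F⟩ ⟨F₀⟩ l, ∃ b ∈ (grading K C).gr ⟨F₀⟩ ⟨F⟩ (-l),
      a ≫ b = 𝟙 _ ∧ b ≫ a = 𝟙 _ := by
  refine ⟨gz φ.hom ≫ sh F₀ l, (grading K C).comp_mem' (gz_mem K _) (sh_mem K _ _) (zero_add l),
    sh' F₀ l ≫ gz φ.inv, (grading K C).comp_mem' (sh'_mem K _ _) (gz_mem K _) (add_zero _), ?_, ?_⟩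
  · calc (gz φ.hom ≫ sh F₀ l) ≫ sh' F₀ l ≫ gz φ.inv
        = gz φ.hom ≫ (sh F₀ l ≫ sh' F₀ l) ≫ gz φ.inv := by simp only [Category.assoc]
      _ = 𝟙 _ := by rw [sh_sh', Category.id_comp, gz_comp_gz, Iso.hom_inv_id, gz_id]
  · calc (sh' F₀ l ≫ gz φ.inv) ≫ gz φ.hom ≫ sh F₀ l
        = sh' F₀ l ≫ (gz φ.inv ≫ gz φ.hom) ≫ sh F₀ l := by simp only [Category.assoc]
      _ = 𝟙 _ := by rw [gz_comp_gz, Iso.inv_hom_id, gz_id, Category.id_comp, sh'_sh]

theorem noIso_of_isEmpty {P P' : C} (h : ∀ j : ℤ, IsEmpty (P ≅ P'⟦j⟧)) :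
    NoIso (grading K C) (GCat.mk P) (GCat.mk P') := by
  rintro j x hx v hv ⟨hxv, hvx⟩
  obtain ⟨α, hα⟩ := exists_gz K ((grading K C).comp_mem' hx (sh'_mem K P' j) (by ring))
  obtain ⟨β, hβ⟩ := exists_gz K ((grading K C).comp_mem' (sh_mem K P' j) hv (by ring))
  refine (h j).elim ⟨α, β, ?_, ?_⟩
  · apply gz_injective
    rw [← gz_comp_gz]
    change gz α ≫ gz β = gz (𝟙 P)
    rw [← hα, ← hβ, gz_id]
    calc (x ≫ sh' P' j) ≫ sh P' j ≫ v = x ≫ (sh' P' j ≫ sh P' j) ≫ v := by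
          simp only [Category.assoc]
      _ = 𝟙 _ := by rw [sh'_sh, Category.id_comp, hxv]
  · apply gz_injective
    rw [← gz_comp_gz]
    change gz β ≫ gz α = gz (𝟙 (P'⟦j⟧))
    rw [← hα, ← hβ, gz_id]
    calc (sh P' j ≫ v) ≫ x ≫ sh' P' j = sh P' j ≫ (v ≫ x) ≫ sh' P' j := by
          simp only [Category.assoc]
      _ = 𝟙 _ := by rw [hvx, Category.id_comp, sh_sh']

variable {K}

theorem IsPObject.pobj {S : ObjectProperty C} {n : ℕ} {k : ℤ} {P : C} {t : ShiftedHom P P k}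
    (h : IsPObject K S n k P t) : PObj (grading K C) n k (GCat.mk P) (gh k t) where
  deg := gh_mem K t
  pow := by
    rw [gh, tp_eq_starPow]
    exact h.pow_eq_zero
  indep := by
    have : (fun i : Fin (n + 1) => tp (P := GCat.mk P) (gh k t) i)
        = fun i : Fin (n + 1) => starPow (hof k t) i := by
      funext i
      rw [gh, tp_eq_starPow]
    rw [this]
    exact h.powersBasis.1
  span := by
    intro r
    obtain ⟨c, hc⟩ := h.powersBasis.2 r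
    refine ⟨c, ?_⟩
    have : (fun i : Fin (n + 1) => tp (P := GCat.mk P) (gh k t) i)
        = fun i : Fin (n + 1) => starPow (hof k t) i := by
      funext i
      rw [gh, tp_eq_starPow]
    have h2 : ∀ i : Fin (n + 1), tp (P := GCat.mk P) (gh k t) i = starPow (hof k t) i :=
      fun i => congrFun this i
    rw [Finset.sum_congr rfl (fun i _ => by rw [h2 i])]
    exact hc

/-- non-degeneracy of the Calabi–Yau pairing -/
theorem IsPObject.cyp {S : ObjectProperty C} {n : ℕ} {k : ℤ} {P P' : C} {t : ShiftedHom P P k}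
    (h : IsPObject K S n k P t) (hP : S P) (hP' : ∀ j : ℤ, S (P'⟦j⟧)) :
    CYP (grading K C) n k (GCat.mk P) (GCat.mk P') := by
  obtain ⟨φ, hφ⟩ := h.calabiYau
  have key : ∀ (F : C) (hF : S F) (a : P ⟶ F) (b : F ⟶ P⟦(n * k : ℤ)⟧),
      φ F hF a b ≠ 0 → a ≫ b ≠ 0 := by
    intro F hF a b h0 h1
    apply h0
    have h2 := hφ P F hP hF (𝟙 P) a b
    rw [Category.id_comp] at h2
    rw [h2, h1, map_zero]
  constructor
  · intro j v hv hv0
    set s := sh P' (n * k - j) with hs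
    set s' := sh' P' (n * k - j) with hs'
    obtain ⟨b, hb⟩ := exists_gh K ((grading K C).comp_mem' (sh_mem K P' (n * k - j)) hv
      (show (n * k - j : ℤ) + j = n * k by ring))
    have hb0 : b ≠ 0 := by
      rintro rfl
      apply hv0
      rw [gh_eq_zero.2 rfl] at hb
      rw [← Category.id_comp v, ← sh'_sh P' (n * k - j), Category.assoc, hb, comp_zero]
    obtain ⟨ψ, hψ⟩ : ∃ ψ : Module.Dual K (P'⟦(n * k - j : ℤ)⟧ ⟶ P⟦(n * k : ℤ)⟧), ψ b ≠ 0 := by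
      by_contra hcon
      push Not at hcon
      exact hb0 ((Module.forall_dual_apply_eq_zero_iff K b).1 hcon)
    obtain ⟨a, ha⟩ := (φ _ (hP' _)).surjective ψ
    have hab : a ≫ b ≠ 0 := key _ (hP' _) a b (by rw [ha]; exact hψ)
    refine ⟨gz a ≫ sh P' (n * k - j), (grading K C).comp_mem' (gz_mem K a) (sh_mem K _ _)
      (zero_add _), ?_⟩
    rw [Category.assoc, hb, gz_comp_gh]
    intro h0
    exact hab (gh_eq_zero.1 h0)
  · intro j x hx hx0
    obtain ⟨x', hx'⟩ := exists_gh K hx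
    have hx'0 : x' ≠ 0 := by
      rintro rfl
      exact hx0 (by rw [hx', gh_eq_zero])
    have h1 : φ (P'⟦j⟧) (hP' j) x' ≠ 0 := by
      intro h0
      exact hx'0 ((φ (P'⟦j⟧) (hP' j)).injective (by rw [h0, map_zero]))
    obtain ⟨b, hb⟩ : ∃ b, φ (P'⟦j⟧) (hP' j) x' b ≠ 0 := by
      by_contra hcon
      push Not at hcon
      exact h1 (LinearMap.ext hcon)
    have h2 := key _ _ _ _ hb
    refine ⟨sh' P' j ≫ gh (n * k) b, (grading K C).comp_mem' (sh'_mem K _ _) (gh_mem K b)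
      (by ring), ?_⟩
    rw [hx', gh_eq_gz_sh]
    have h3 : (gz (B := P'⟦j⟧) x' ≫ sh P' j) ≫ sh' P' j ≫ gh (n * k : ℤ) b
        = gh (n * k : ℤ) (x' ≫ b) := by
      calc (gz (B := P'⟦j⟧) x' ≫ sh P' j) ≫ sh' P' j ≫ gh (n * k : ℤ) b
          = gz (B := P'⟦j⟧) x' ≫ (sh P' j ≫ sh' P' j) ≫ gh (n * k : ℤ) b := by
            simp only [Category.assoc]
        _ = _ := by rw [sh_sh', Category.id_comp, gz_comp_gh]
    change (gz (B := P'⟦j⟧) x' ≫ sh P' j) ≫ sh' P' j ≫ gh (n * k : ℤ) b ≠ 0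
    rw [h3]
    intro h0
    exact h2 (gh_eq_zero.1 h0)

end basic

end Pool.Agent.PT
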