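import Pool.Agent.PT.Coprod

/-!
# Finiteness of `Hom^*(P,F)` and twist data
-/

open CategoryTheory Limits Pretriangulated DirectSum

namespace Pool.Agent.PT

universe v u w

variable {K : Type w} [Field K] {C : Type u} [Category.{v} C] [Preadditive C] [HasShift C ℤ]
  [∀ a : ℤ, (shiftFunctor C a).Additive] [Linear K C] [∀ a : ℤ, (shiftFunctor C a).Linear K]
  [HasZeroObject C] [Pretriangulated C]

/-- The data in `IsPTwistAt`, with the morphisms completing the triangles. -/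
structure PTwistAt (K : Type w) [Field K] {C : Type u} [Category.{v} C] [Preadditive C]
    [HasShift C ℤ] [∀ a : ℤ, (shiftFunctor C a).Additive] [Linear K C]
    [HasZeroObject C] [Pretriangulated C] {k : ℤ} {P : C} (t : ShiftedHom P P k) (F G : C) where
  B : HomogBasis K P F
  Q : C
  Q' : C
  sq : ShiftCoproduct P B.d Q
  sq' : ShiftCoproduct P (fun i => B.d i + k) Q'
  H : Q' ⟶ Q
  Cone : C
  q : Q ⟶ Cone
  r : Cone ⟶ Q'⟦(1 : ℤ)⟧
  cone_H : Triangle.mk H q r ∈ distTriang C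
  e : Cone ⟶ F
  η : F ⟶ G
  δ : G ⟶ Cone⟦(1 : ℤ)⟧
  cone_e : Triangle.mk e η δ ∈ distTriang C
  H_eq : IsTwistMap t B sq sq' H
  ev : IsEvaluation B sq (q ≫ e)

theorem IsPTwistAt.exists {k : ℤ} {P F F' : C} {t : ShiftedHom P P k}
    (h : IsPTwistAt K t F F') : Nonempty (PTwistAt K t F F') := by
  obtain ⟨B, Q, Q', q, q', H, Cn, c, e, η, h1, ⟨r, h2⟩, h3, δ, h4⟩ := h
  exact ⟨⟨B, Q, Q', q, q', H, Cn, c, r, h2, e, η, δ, h4, h1, h3⟩⟩

namespace PTwistAt

variable {k : ℤ} {P F F' : C} {t : ShiftedHom P P k} (T : PTwistAt K t F F')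

/-- the index set -/
abbrev ι : Type v := T.B.ι

/-- the degrees -/
abbrev d : T.ι → ℤ := T.B.d

/-- the basis -/
abbrev basis : Module.Basis T.ι K (HomStar P F) := T.B.basis

/-- the inclusions -/
abbrev inj : ∀ i, P⟦-(T.d i)⟧ ⟶ T.Q := T.sq.inj

/-- the inclusions -/
abbrev inj' : ∀ i, P⟦-(T.d i + k)⟧ ⟶ T.Q' := T.sq'.inj

theorem nonempty_isColimitQ : Nonempty (IsColimit (Cofan.mk T.Q T.inj)) := ⟨T.sq.isColimit⟩

noncomputable def isColimitQ : IsColimit (Cofan.mk T.Q T.inj) := T.sq.isColimit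

noncomputable def isColimitQ' : IsColimit (Cofan.mk T.Q' T.inj') := T.sq'.isColimit

/-- the basis, in the graded category -/
noncomputable def bb : Module.Basis T.ι K (GCat.mk P ⟶ GCat.mk F) := T.basis

theorem bb_mem (i : T.ι) : T.bb i ∈ (grading K C).gr _ _ (T.d i) := by
  obtain ⟨f, hf⟩ := T.B.homog i
  change T.basis i ∈ _
  rw [hf]
  exact gh_mem K f

/-- `m ↦ m ⊗ id` -/
noncomputable def UU : (GCat.mk P ⟶ GCat.mk F) →ₗ[K] (GCat.mk P ⟶ GCat.mk T.Q) :=
  T.bb.constr K (fun i => uu T.inj i)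

theorem UU_bb (i : T.ι) : T.UU (T.bb i) = uu T.inj i := by simp [UU]

/-- inclusions into `Q'` -/
noncomputable def uu' (i : T.ι) : GCat.mk P ⟶ GCat.mk T.Q' :=
  uu (d := fun i => T.d i + k) T.inj' i

theorem uu'_mem (i : T.ι) : T.uu' i ∈ (grading K C).gr _ _ (T.d i + k) :=
  uu_mem (K := K) (d := fun i => T.d i + k) i

theorem h_eq (i : T.ι) :
    T.uu' i ≫ gz T.H = T.UU (gh k t ≫ T.bb i) - gh k t ≫ uu T.inj i := by
  obtain ⟨c, h0, h1⟩ := T.H_eq i
  have h2 : T.uu' i ≫ gz T.H = unshift (T.d i + k) (T.inj' i ≫ T.H) := by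
    rw [unshift_eq, uu', uu_eq, Category.assoc, gz_comp_gz]
  have h3 : T.UU (gh k t ≫ T.bb i) = c.sum (fun j a => a • uu T.inj j) := by
    have h4 : gh k t ≫ T.bb i = c.sum (fun j a => a • T.bb j) := h0
    rw [h4, Finsupp.sum, map_sum]
    rw [Finsupp.sum]
    apply Finset.sum_congr rfl
    intro j _
    rw [map_smul, T.UU_bb]
  rw [h2, h3]
  exact h1

theorem ce (i : T.ι) : uu T.inj i ≫ gz T.q ≫ gz T.e = T.bb i := by
  have h1 := T.ev i
  rw [gz_comp_gz, uu_eq, Category.assoc, gz_comp_gz, ← unshift_eq]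
  exact h1

/-- the canonical isomorphism `Q ⟶ Q'` of degree `k` -/
theorem exists_tau : ∃ τ ∈ (grading K C).gr (GCat.mk T.Q) (GCat.mk T.Q') k,
    ∀ i, uu T.inj i ≫ τ = T.uu' i :=
  exists_desc T.isColimitQ T.uu' T.uu'_mem

section nilpotent

variable {T} {θ : GCat.mk T.Q ⟶ GCat.mk T.Q}
  (hθ : ∀ i, uu T.inj i ≫ θ = T.UU (gh k t ≫ T.bb i) - gh k t ≫ uu T.inj i)

include hθ

theorem UU_theta (m : GCat.mk P ⟶ GCat.mk F) :
    T.UU m ≫ θ = T.UU (gh k t ≫ m) - gh k t ≫ T.UU m := by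
  have h1 : (Linear.rightComp K (GCat.mk P) θ) ∘ₗ T.UU
      = T.UU ∘ₗ (Linear.leftComp K (GCat.mk F) (gh k t))
        - (Linear.leftComp K (GCat.mk T.Q) (gh k t)) ∘ₗ T.UU := by
    apply T.bb.ext
    intro i
    simp only [LinearMap.comp_apply, LinearMap.sub_apply, Linear.rightComp_apply,
      Linear.leftComp_apply, T.UU_bb]
    exact hθ i
  exact LinearMap.congr_fun h1 m

theorem theta_nilp {n : ℕ} (hP : PObj (grading K C) n k (GCat.mk P) (gh k t)) (N : ℕ) :
    ∀ (a b : ℕ) (m : GCat.mk P ⟶ GCat.mk F), 2 * n + 1 ≤ a + b + N →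
      tp (gh k t) a ≫ T.UU (tp (gh k t) b ≫ m) ≫ tp θ N = 0 := by
  induction N with
  | zero =>
    intro a b m h
    rcases Nat.lt_or_ge n a with ha | ha
    · rw [hP.tp_mul_eq_zero ha, zero_comp]
    · rw [hP.tp_mul_eq_zero (show n < b by omega), zero_comp, map_zero, zero_comp, comp_zero]
  | succ N ih =>
    intro a b m h
    rw [tp_succ']
    have h1 : T.UU (tp (gh k t) b ≫ m) ≫ θ ≫ tp θ N
        = (T.UU (tp (gh k t) b ≫ m) ≫ θ) ≫ tp θ N := (Category.assoc _ _ _).symm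
    rw [h1, UU_theta hθ, Preadditive.sub_comp, Preadditive.comp_sub]
    have h2 := ih a (b + 1) m (by omega)
    have h3 := ih (a + 1) b m (by omega)
    rw [tp_succ' (gh k t) b, Category.assoc] at h2
    rw [tp_succ (gh k t) a] at h3
    rw [h2]
    simp only [Category.assoc] at h3 ⊢
    rw [h3, sub_zero]

end nilpotent

open Classical in
/-- If the cone of `H` is compact then `Hom^*(P,F)` is finite-dimensional. -/
theorem finite_index {n : ℕ} (hP : PObj (grading K C) n k (GCat.mk P) (gh k t))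
    (hC : IsCompactObj T.Cone) : Finite T.ι := by
  obtain ⟨τ, hτ, hτ'⟩ := T.exists_tau
  set θ := τ ≫ gz T.H with hθdef
  have hθm : θ ∈ (grading K C).gr _ _ k :=
    (grading K C).comp_mem' hτ (gz_mem K _) (add_zero k)
  have hθ : ∀ i, uu T.inj i ≫ θ = T.UU (gh k t ≫ T.bb i) - gh k t ≫ uu T.inj i := by
    intro i
    rw [hθdef, ← Category.assoc, hτ', T.h_eq]
  -- nilpotency
  have hnil : tp θ (2 * n + 1) = 0 := by
    apply uu_ext T.isColimitQ (tp_mem (grading K C) hθm (2 * n + 1))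
    intro i
    have := theta_nilp hθ hP (2 * n + 1) 0 0 (T.bb i) (by omega)
    rw [tp_zero, Category.id_comp, Category.id_comp, T.UU_bb] at this
    exact this
  -- the step
  have hstep : ∀ (j : ℤ) (g : GCat.mk T.Q ⟶ GCat.mk T.Q), g ∈ (grading K C).gr _ _ j →
      (∃ J : Finset T.ι, θ ≫ g = (θ ≫ g) ≫ gz (EJ T.isColimitQ J)) →
      ∃ J : Finset T.ι, g = g ≫ gz (EJ T.isColimitQ J) := by
    rintro j g hg ⟨J, hJ⟩
    have hg' : g - g ≫ gz (EJ T.isColimitQ J) ∈ (grading K C).gr _ _ j :=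
      Submodule.sub_mem _ hg ((grading K C).comp_mem' hg (gz_mem K _) (add_zero j))
    have h0 : θ ≫ (g - g ≫ gz (EJ T.isColimitQ J)) = 0 := by
      rw [Preadditive.comp_sub, sub_eq_zero, ← Category.assoc]
      exact hJ
    have h1 : gz T.H ≫ (g - g ≫ gz (EJ T.isColimitQ J)) = 0 := by
      apply uu_ext (d := fun i => T.d i + k) T.isColimitQ'
        ((grading K C).comp_mem' (gz_mem K _) hg' (zero_add j))
      intro i
      change T.uu' i ≫ gz T.H ≫ (g - g ≫ gz (EJ T.isColimitQ J)) = 0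
      rw [← hτ', Category.assoc, ← Category.assoc τ]
      change uu T.inj i ≫ θ ≫ (g - g ≫ gz (EJ T.isColimitQ J)) = 0
      rw [h0, comp_zero]
    obtain ⟨γ, hγ⟩ := exists_gh K hg'
    rw [hγ, gz_comp_gh, gh_eq_zero] at h1
    obtain ⟨γ', hγ'⟩ : ∃ γ' : T.Cone ⟶ T.Q⟦j⟧, γ = T.q ≫ γ' :=
      Triangle.yoneda_exact₂ _ T.cone_H γ h1
    obtain ⟨J', hJ'⟩ := exists_gz_EJ T.isColimitQ hC (gh_mem (j := j) K γ')
    have h2 : g - g ≫ gz (EJ T.isColimitQ J) = gz T.q ≫ gh j γ' := by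
      rw [hγ, gz_comp_gh, hγ']
    have h3 : g - g ≫ gz (EJ T.isColimitQ J)
        = (g - g ≫ gz (EJ T.isColimitQ J)) ≫ gz (EJ T.isColimitQ J') := by
      rw [h2, Category.assoc, ← hJ']
    refine ⟨J ∪ J', ?_⟩
    have e1 : gz (EJ T.isColimitQ J) ≫ gz (EJ T.isColimitQ (J ∪ J'))
        = gz (EJ T.isColimitQ J) := by
      rw [gz_comp_gz, EJ_EJ _ Finset.subset_union_left]
    have e2 : gz (EJ T.isColimitQ J') ≫ gz (EJ T.isColimitQ (J ∪ J'))
        = gz (EJ T.isColimitQ J') := by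
      rw [gz_comp_gz, EJ_EJ _ Finset.subset_union_right]
    have h4 : (g - g ≫ gz (EJ T.isColimitQ J)) ≫ gz (EJ T.isColimitQ (J ∪ J'))
        = g - g ≫ gz (EJ T.isColimitQ J) := by
      conv_lhs => rw [h3, Category.assoc, e2]
      exact h3.symm
    rw [Preadditive.sub_comp, Category.assoc, e1] at h4
    exact (sub_left_injective h4).symm
  -- descend
  have hdesc : ∀ m : ℕ, m ≤ 2 * n + 1 → ∃ J : Finset T.ι,
      tp θ (2 * n + 1 - m) = tp θ (2 * n + 1 - m) ≫ gz (EJ T.isColimitQ J) := by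
    intro m
    induction m with
    | zero => intro _; exact ⟨∅, by rw [Nat.sub_zero, hnil, zero_comp]⟩
    | succ m ih =>
      intro hm
      obtain ⟨J, hJ⟩ := ih (by omega)
      refine hstep _ _ (tp_mem (grading K C) hθm _) ⟨J, ?_⟩
      have h5 : 2 * n + 1 - m = (2 * n + 1 - (m + 1)) + 1 := by omega
      rw [h5, tp_succ'] at hJ
      exact hJ
  obtain ⟨J, hJ⟩ := hdesc (2 * n + 1) le_rfl
  rw [Nat.sub_self, tp_zero, Category.id_comp] at hJ
  -- every index is in `J`
  have hall : ∀ i, i ∈ J := by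
    intro i
    by_contra hi
    have h6 : uu T.inj i = 0 := by
      have h7 : uu T.inj i = uu T.inj i ≫ gz (EJ T.isColimitQ J) := by
        rw [← hJ, Category.comp_id]
      rw [h7, uu_eq, Category.assoc, gz_comp_gz, inj_EJ_of_notMem _ hi, gz_zero, comp_zero]
    have h8 := uu_ppr_same T.isColimitQ i
    rw [h6, zero_comp] at h8
    have h9 := hP.tp_ne_zero (Nat.zero_le n)
    rw [tp_zero] at h9
    exact h9 h8.symm
  exact Finite.of_finite_univ (J.finite_toSet.subset (fun i _ => hall i))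

/-- The cone description gives twist data in the graded category. -/
noncomputable def tw {m : ℕ} (e : T.ι ≃ Fin m) :
    Tw (grading K C) 1 k (GCat.mk P) (gh k t) (GCat.mk F) (GCat.mk F') :=
  haveI : Fintype T.ι := Fintype.ofEquiv _ e.symm
  { ι := Fin m
    b := T.bb.reindex e
    d := fun i => T.d (e.symm i)
    b_mem := fun i => by
      rw [Module.Basis.reindex_apply]
      exact T.bb_mem _
    Q := ⟨T.Q⟩
    Q' := ⟨T.Q'⟩
    Cn := ⟨T.Cone⟩
    u := fun i => uu T.inj (e.symm i)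
    pr := fun i => ppr T.isColimitQ (e.symm i)
    u_mem := fun i => uu_mem _
    pr_mem := fun i => ppr_mem _ _
    u_pr := fun i j => by
      by_cases h : i = j
      · rw [if_pos h, h, uu_ppr_same]
      · rw [if_neg h, uu_ppr_ne]
        exact fun h' => h (e.symm.injective h')
    sum_pr_u := by
      rw [← sum_ppr_uu T.isColimitQ]
      exact Equiv.sum_comp e.symm (fun i => ppr T.isColimitQ i ≫ uu T.inj i)
    u' := fun i => T.uu' (e.symm i)
    pr' := fun i => ppr (d := fun i => T.d i + k) T.isColimitQ' (e.symm i)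
    u'_mem := fun i => T.uu'_mem _
    pr'_mem := fun i => ppr_mem (d := fun i => T.d i + k) _ _
    u'_pr' := fun i j => by
      by_cases h : i = j
      · rw [if_pos h, h]
        exact uu_ppr_same (d := fun i => T.d i + k) T.isColimitQ' _
      · rw [if_neg h]
        exact uu_ppr_ne (d := fun i => T.d i + k) T.isColimitQ'
          (fun h' => h (e.symm.injective h'))
    sum_pr'_u' := by
      rw [← sum_ppr_uu (d := fun i => T.d i + k) T.isColimitQ']
      exact Equiv.sum_comp e.symm (fun i =>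
        ppr (d := fun i => T.d i + k) T.isColimitQ' i ≫ uu (d := fun i => T.d i + k) T.inj' i)
    h := gz T.H
    c := gz T.q
    dd := gh 1 T.r
    h_mem := gz_mem K _
    c_mem := gz_mem K _
    dd_mem := gh_mem K _
    ex_h_c := ex₂ K T.cone_H
    ex_c_dd := ex₃ K T.cone_H
    ex_dd_h := ex₁ K T.cone_H
    e := gz T.e
    η := gz T.η
    del := gh 1 T.δ
    e_mem := gz_mem K _
    η_mem := gz_mem K _
    del_mem := gh_mem K _
    ex_e_η := ex₂ K T.cone_e
    ex_η_del := ex₃ K T.cone_e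
    ex_del_e := ex₁ K T.cone_e
    h_eq := fun i => by
      have h1 : (T.bb.reindex e).constr K (fun i => uu T.inj (e.symm i)) = T.UU := by
        apply (T.bb.reindex e).ext
        intro j
        rw [Module.Basis.constr_basis, Module.Basis.reindex_apply, T.UU_bb]
      rw [h1, Module.Basis.reindex_apply]
      exact T.h_eq _
    ce := fun i => by
      rw [Module.Basis.reindex_apply]
      exact T.ce _ }

theorem exists_tw_of_finite (h : Finite T.ι) :
    Nonempty (Tw (grading K C) 1 k (GCat.mk P) (gh k t) (GCat.mk F) (GCat.mk F')) := by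
  obtain ⟨m, ⟨e⟩⟩ := finite_iff_exists_equiv_fin.1 h
  exact ⟨T.tw e⟩

end PTwistAt

end Pool.Agent.PT
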