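import Mathlib

/-!
# Graded linear categories and twist data

An abstract framework: a `K`-linear category in which every Hom-space carries a `ℤ`-grading
(think of `Hom^*(X,Y) = ⨁ Hom(X,Y[j])`), and exact triangles whose connecting morphism has
degree `ε`.
-/

open CategoryTheory

namespace Pool.Agent.PT

universe v u w

variable (K : Type w) [Field K] (D : Type u) [Category.{v} D] [Preadditive D] [Linear K D]

/-- A grading of the Hom-spaces of a linear category. -/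
structure Grading where
  /-- homogeneous morphisms of degree `j` -/
  gr : ∀ X Y : D, ℤ → Submodule K (X ⟶ Y)
  comp_mem : ∀ {X Y Z : D} {a b : ℤ} {f : X ⟶ Y} {g : Y ⟶ Z},
    f ∈ gr X Y a → g ∈ gr Y Z b → f ≫ g ∈ gr X Z (a + b)
  id_mem : ∀ X : D, 𝟙 X ∈ gr X X 0
  /-- projections to the homogeneous components -/
  proj : ∀ X Y : D, ℤ → ((X ⟶ Y) →ₗ[K] (X ⟶ Y))
  proj_same : ∀ {X Y : D} {j : ℤ} {f : X ⟶ Y}, f ∈ gr X Y j → proj X Y j f = f
  proj_ne : ∀ {X Y : D} {i j : ℤ} {f : X ⟶ Y}, f ∈ gr X Y i → i ≠ j → proj X Y j f = 0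

variable {K D}

namespace Grading

variable (G : Grading K D)

theorem comp_mem' {X Y Z : D} {a b c : ℤ} {f : X ⟶ Y} {g : Y ⟶ Z}
    (hf : f ∈ G.gr X Y a) (hg : g ∈ G.gr Y Z b) (h : a + b = c) : f ≫ g ∈ G.gr X Z c :=
  h ▸ G.comp_mem hf hg

theorem cast_mem {X Y : D} {a b : ℤ} {f : X ⟶ Y} (hf : f ∈ G.gr X Y a) (h : a = b) :
    f ∈ G.gr X Y b := h ▸ hf

/-- In a homogeneous basis the coordinates of a homogeneous element are supported in its
degree. -/
theorem repr_supp {X Y : D} {ι : Type*} (b : Module.Basis ι K (X ⟶ Y)) (d : ι → ℤ)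
    (hb : ∀ i, b i ∈ G.gr X Y (d i)) {j : ℤ} {f : X ⟶ Y} (hf : f ∈ G.gr X Y j) (i : ι)
    (hi : d i ≠ j) : b.repr f i = 0 := by
  have h1 : G.proj X Y (d i) f = 0 := G.proj_ne hf (Ne.symm hi)
  have h2 : ∀ g : X ⟶ Y, b.repr (G.proj X Y (d i) g) i = b.repr g i := by
    intro g
    have : (Finsupp.lapply i) ∘ₗ (b.repr : (X ⟶ Y) →ₗ[K] ι →₀ K) ∘ₗ (G.proj X Y (d i))
        = (Finsupp.lapply i) ∘ₗ (b.repr : (X ⟶ Y) →ₗ[K] ι →₀ K) := by
      apply b.ext
      intro l
      by_cases hl : d l = d i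
      · simp only [LinearMap.comp_apply]
        rw [G.proj_same (G.cast_mem (hb l) hl)]
      · simp only [LinearMap.comp_apply]
        rw [G.proj_ne (hb l) hl]
        have : l ≠ i := fun h => hl (by rw [h])
        simp [Finsupp.single_eq_of_ne this.symm]
    exact LinearMap.congr_fun this g
  rw [← h2 f, h1]
  simp

/-- lowest degree -/
def IsBot (X Y : D) (a : ℤ) : Prop :=
  (∃ f ∈ G.gr X Y a, f ≠ 0) ∧ ∀ j < a, ∀ f ∈ G.gr X Y j, f = 0

/-- highest degree -/
def IsTop (X Y : D) (z : ℤ) : Prop :=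
  (∃ f ∈ G.gr X Y z, f ≠ 0) ∧ ∀ j, z < j → ∀ f ∈ G.gr X Y j, f = 0

theorem IsBot.unique {X Y : D} {a b : ℤ} (ha : G.IsBot X Y a) (hb : G.IsBot X Y b) : a = b := by
  obtain ⟨⟨f, hf, hf0⟩, h1⟩ := ha
  obtain ⟨⟨g, hg, hg0⟩, h2⟩ := hb
  rcases lt_trichotomy a b with h | h | h
  · exact absurd (h2 a h f hf) hf0
  · exact h
  · exact absurd (h1 b h g hg) hg0

theorem IsTop.unique {X Y : D} {a b : ℤ} (ha : G.IsTop X Y a) (hb : G.IsTop X Y b) : a = b := by
  obtain ⟨⟨f, hf, hf0⟩, h1⟩ := ha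
  obtain ⟨⟨g, hg, hg0⟩, h2⟩ := hb
  rcases lt_trichotomy a b with h | h | h
  · exact absurd (h1 b h g hg) hg0
  · exact h
  · exact absurd (h2 a h f hf) hf0

theorem IsBot.le {X Y : D} {a j : ℤ} (ha : G.IsBot X Y a) {f : X ⟶ Y} (hf : f ∈ G.gr X Y j)
    (h0 : f ≠ 0) : a ≤ j := by
  by_contra h
  exact h0 (ha.2 j (by omega) f hf)

theorem IsTop.le {X Y : D} {a j : ℤ} (ha : G.IsTop X Y a) {f : X ⟶ Y} (hf : f ∈ G.gr X Y j)
    (h0 : f ≠ 0) : j ≤ a := by
  by_contra h
  exact h0 (ha.2 j (by omega) f hf)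

end Grading

/-- powers of an endomorphism -/
def tp {P : D} (t : P ⟶ P) : ℕ → (P ⟶ P)
  | 0 => 𝟙 P
  | (i + 1) => tp t i ≫ t

@[simp] theorem tp_zero {P : D} (t : P ⟶ P) : tp t 0 = 𝟙 P := rfl

theorem tp_succ {P : D} (t : P ⟶ P) (i : ℕ) : tp t (i + 1) = tp t i ≫ t := rfl

theorem tp_succ' {P : D} (t : P ⟶ P) (i : ℕ) : tp t (i + 1) = t ≫ tp t i := by
  induction i with
  | zero => simp [tp]
  | succ i ih => rw [tp_succ, ih, Category.assoc, ← tp_succ, ← ih]

theorem tp_add {P : D} (t : P ⟶ P) (i j : ℕ) : tp t (i + j) = tp t i ≫ tp t j := by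
  induction j with
  | zero => simp
  | succ j ih => rw [← add_assoc, tp_succ, ih, Category.assoc, ← tp_succ]

theorem tp_mem (G : Grading K D) {P : D} {t : P ⟶ P} {k : ℤ} (ht : t ∈ G.gr P P k) (i : ℕ) :
    tp t i ∈ G.gr P P (i * k) := by
  induction i with
  | zero => simpa using G.id_mem P
  | succ i ih => exact G.comp_mem' ih ht (by push_cast; ring)

/-- `End^*(P) = K[t]/t^{n+1}` with `deg t = k`. -/
structure PObj (G : Grading K D) (n : ℕ) (k : ℤ) (P : D) (t : P ⟶ P) : Prop where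
  deg : t ∈ G.gr P P k
  pow : tp t (n + 1) = 0
  indep : LinearIndependent K (fun i : Fin (n + 1) => tp t i)
  span : ∀ r : P ⟶ P, ∃ a : Fin (n + 1) → K, r = ∑ i, a i • tp t i

namespace PObj

variable {G : Grading K D} {n : ℕ} {k : ℤ} {P : D} {t : P ⟶ P}

/-- the basis `1, t, …, t^n` -/
noncomputable def basis (h : PObj G n k P t) : Module.Basis (Fin (n + 1)) K (P ⟶ P) :=
  Module.Basis.mk h.indep (by
    intro r _
    obtain ⟨a, ha⟩ := h.span r
    rw [ha]
    exact Submodule.sum_mem _ fun i _ => Submodule.smul_mem _ _ (Submodule.subset_span ⟨i, rfl⟩))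

@[simp] theorem basis_apply (h : PObj G n k P t) (i : Fin (n + 1)) : h.basis i = tp t i := by
  simp [basis]

theorem tp_ne_zero (h : PObj G n k P t) {i : ℕ} (hi : i ≤ n) : tp t i ≠ 0 := by
  have := h.indep.ne_zero (⟨i, by omega⟩ : Fin (n + 1))
  simpa using this

/-- a homogeneous endomorphism has coordinates supported in its degree -/
theorem repr_supp (h : PObj G n k P t) {j : ℤ} {r : P ⟶ P} (hr : r ∈ G.gr P P j)
    (i : Fin (n + 1)) (hi : (i : ℤ) * k ≠ j) : h.basis.repr r i = 0 :=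
  G.repr_supp h.basis (fun i => (i : ℤ) * k)
    (fun i => by rw [h.basis_apply]; exact tp_mem G h.deg i) hr i hi

theorem tp_mul_eq_zero (h : PObj G n k P t) {i : ℕ} (hi : n < i) : tp t i = 0 := by
  obtain ⟨l, rfl⟩ : ∃ l, i = (n + 1) + l := ⟨i - (n + 1), by omega⟩
  rw [tp_add, h.pow, Limits.zero_comp]

/-- In degree `n k` (with `k > 0`) everything is a multiple of `t^n`. -/
theorem top_eq (h : PObj G n k P t) (hk : 0 < k) {r : P ⟶ P} (hr : r ∈ G.gr P P (n * k)) :
    ∃ c : K, r = c • tp t n := by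
  refine ⟨h.basis.repr r (Fin.last n), ?_⟩
  conv_lhs => rw [← h.basis.sum_repr r]
  rw [Finset.sum_eq_single (Fin.last n)]
  · simp
  · intro i _ hi
    rw [h.repr_supp hr i, zero_smul]
    intro h'
    have h2 : (i : ℤ) = n := by
      have := mul_right_cancel₀ (ne_of_gt hk) h'
      exact this
    apply hi
    ext
    simp only [Fin.val_last]
    exact_mod_cast h2
  · intro h'; exact absurd (Finset.mem_univ _) h'

/-- In degree `0` (with `k > 0`) everything is a multiple of `1`. -/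
theorem zero_eq (h : PObj G n k P t) (hk : 0 < k) {r : P ⟶ P} (hr : r ∈ G.gr P P 0) :
    ∃ c : K, r = c • 𝟙 P := by
  refine ⟨h.basis.repr r 0, ?_⟩
  conv_lhs => rw [← h.basis.sum_repr r]
  rw [Finset.sum_eq_single 0]
  · simp
  · intro i _ hi
    rw [h.repr_supp hr i, zero_smul]
    intro h'
    have h2 : (i : ℤ) = 0 := by
      rcases mul_eq_zero.1 h' with h3 | h3
      · exact h3
      · omega
    apply hi
    ext
    simp only [Fin.val_zero]
    exact_mod_cast h2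
  · intro h'; exact absurd (Finset.mem_univ _) h'

/-- degrees are between `0` and `n k` -/
theorem degree_range (h : PObj G n k P t) (hk : 0 ≤ k) {j : ℤ} {r : P ⟶ P}
    (hr : r ∈ G.gr P P j) (h0 : r ≠ 0) : 0 ≤ j ∧ j ≤ n * k := by
  have : ∃ i : Fin (n + 1), h.basis.repr r i ≠ 0 := by
    by_contra hcon
    push Not at hcon
    apply h0
    rw [← h.basis.sum_repr r]
    simp [hcon]
  obtain ⟨i, hi⟩ := this
  have h1 : (i : ℤ) * k = j := by
    by_contra h2
    exact hi (h.repr_supp hr i h2)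
  have h3 : (i : ℤ) ≤ n := by exact_mod_cast Nat.lt_succ_iff.1 i.2
  constructor
  · rw [← h1]; positivity
  · rw [← h1]; exact mul_le_mul_of_nonneg_right h3 hk

end PObj

end Pool.Agent.PT
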