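import Pool.Agent.PT.Twist

/-!
# Supports and the forward/backward step
-/

open CategoryTheory

namespace Pool.Agent.PT

universe v u w

variable {K : Type w} [Field K] {D : Type u} [Category.{v} D] [Preadditive D] [Linear K D]

/-! ### nilpotency lemmas -/

section nil

variable {G : Grading K D} {n : ℕ} {k : ℤ} {P : D} {t : P ⟶ P}

/-- a nonzero top-degree element killed by `t` (acting on `Hom(P,F)`). -/
theorem exists_top_kill (hP : PObj G n k P t) (hk : 0 ≤ k) {F : D} {z : ℤ}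
    (hz : G.IsTop P F z) : ∃ f ∈ G.gr P F z, f ≠ 0 ∧ t ≫ f = 0 := by
  classical
  obtain ⟨f, hf, hf0⟩ := hz.1
  have hex : ∃ i : ℕ, tp t i ≫ f = 0 := ⟨n + 1, by rw [hP.pow, Limits.zero_comp]⟩
  set i := Nat.find hex with hi
  have h1 : tp t i ≫ f = 0 := Nat.find_spec hex
  have hi0 : i ≠ 0 := by
    intro h0
    rw [h0] at h1
    simp at h1
    exact hf0 h1
  obtain ⟨l, hl⟩ := Nat.exists_eq_succ_of_ne_zero hi0
  have h2 : tp t l ≫ f ≠ 0 := Nat.find_min hex (by omega)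
  have h3 : tp t l ≫ f ∈ G.gr P F (l * k + z) := G.comp_mem (tp_mem G hP.deg l) hf
  have h4 : (l : ℤ) * k + z ≤ z := hz.le G h3 h2
  have h5 : (0 : ℤ) ≤ (l : ℤ) * k := by positivity
  refine ⟨tp t l ≫ f, G.cast_mem h3 (by omega), h2, ?_⟩
  rw [← Category.assoc, ← tp_succ', ← Nat.succ_eq_add_one, ← hl]
  exact h1

/-- a nonzero top-degree element killed by `t` (acting on `Hom(X,P)`). -/
theorem exists_top_kill' (hP : PObj G n k P t) (hk : 0 ≤ k) {X : D} {z : ℤ}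
    (hz : G.IsTop X P z) : ∃ y ∈ G.gr X P z, y ≠ 0 ∧ y ≫ t = 0 := by
  classical
  obtain ⟨f, hf, hf0⟩ := hz.1
  have hex : ∃ i : ℕ, f ≫ tp t i = 0 := ⟨n + 1, by rw [hP.pow, Limits.comp_zero]⟩
  set i := Nat.find hex with hi
  have h1 : f ≫ tp t i = 0 := Nat.find_spec hex
  have hi0 : i ≠ 0 := by
    intro h0
    rw [h0] at h1
    simp at h1
    exact hf0 h1
  obtain ⟨l, hl⟩ := Nat.exists_eq_succ_of_ne_zero hi0
  have h2 : f ≫ tp t l ≠ 0 := Nat.find_min hex (by omega)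
  have h3 : f ≫ tp t l ∈ G.gr X P (z + l * k) := G.comp_mem hf (tp_mem G hP.deg l)
  have h4 : z + (l : ℤ) * k ≤ z := hz.le G h3 h2
  have h5 : (0 : ℤ) ≤ (l : ℤ) * k := by positivity
  refine ⟨f ≫ tp t l, G.cast_mem h3 (by omega), h2, ?_⟩
  rw [Category.assoc, ← tp_succ, ← Nat.succ_eq_add_one, ← hl]
  exact h1

/-- `t · gr_a ≠ gr_a` in degree `a` when `k = 0`. -/
theorem exists_not_mul (hP : PObj G n 0 P t) {F : D} {a : ℤ}
    (ha : ∃ f ∈ G.gr P F a, f ≠ 0) : ∃ f ∈ G.gr P F a, ∀ m ∈ G.gr P F a, f ≠ t ≫ m := by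
  by_contra hcon
  push Not at hcon
  obtain ⟨f, hf, hf0⟩ := ha
  have key : ∀ i : ℕ, ∃ m ∈ G.gr P F a, f = tp t i ≫ m := by
    intro i
    induction i with
    | zero => exact ⟨f, hf, by simp⟩
    | succ i ih =>
      obtain ⟨m, hm, hm1⟩ := ih
      obtain ⟨m', hm', hm1'⟩ := hcon m hm
      exact ⟨m', hm', by rw [hm1, hm1', tp_succ, Category.assoc]⟩
  obtain ⟨m, _, hm⟩ := key (n + 1)
  rw [hP.pow, Limits.zero_comp] at hm
  exact hf0 hm

theorem exists_not_mul' (hP : PObj G n 0 P t) {X : D} {a : ℤ}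
    (ha : ∃ f ∈ G.gr X P a, f ≠ 0) : ∃ f ∈ G.gr X P a, ∀ m ∈ G.gr X P a, f ≠ m ≫ t := by
  by_contra hcon
  push Not at hcon
  obtain ⟨f, hf, hf0⟩ := ha
  have key : ∀ i : ℕ, ∃ m ∈ G.gr X P a, f = m ≫ tp t i := by
    intro i
    induction i with
    | zero => exact ⟨f, hf, by simp⟩
    | succ i ih =>
      obtain ⟨m, hm, hm1⟩ := ih
      obtain ⟨m', hm', hm1'⟩ := hcon m hm
      exact ⟨m', hm', by rw [hm1, hm1', tp_succ', Category.assoc]⟩
  obtain ⟨m, _, hm⟩ := key (n + 1)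
  rw [hP.pow, Limits.comp_zero] at hm
  exact hf0 hm

end nil

/-! ### supports of the cone -/

namespace Tw

variable {G : Grading K D} {ε k : ℤ} {P : D} {t : P ⟶ P} {F F' : D} (T : Tw G ε k P t F F')
variable {X : D} {μ0 μ1 l0 l1 : ℤ}

theorem d_range (hb : G.IsBot P F μ0) (ht : G.IsTop P F μ1) (i : T.ι) :
    μ0 ≤ T.d i ∧ T.d i ≤ μ1 :=
  ⟨hb.le G (T.b_mem i) (T.b.ne_zero i), ht.le G (T.b_mem i) (T.b.ne_zero i)⟩

theorem gr_Q_zero (hb : G.IsBot P F μ0) (ht : G.IsTop P F μ1) (hlb : G.IsBot X P l0)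
    (hlt : G.IsTop X P l1) {j : ℤ} (hj : j < μ0 + l0 ∨ μ1 + l1 < j) {w : X ⟶ T.Q}
    (hw : w ∈ G.gr X T.Q j) : w = 0 := by
  rw [T.eq_sum w]
  apply Finset.sum_eq_zero
  intro i _
  have h1 := T.d_range hb ht i
  have h2 : w ≫ T.pr i = 0 := by
    by_contra h0
    have h3 := hlb.le G (G.comp_mem hw (T.pr_mem i)) h0
    have h4 := hlt.le G (G.comp_mem hw (T.pr_mem i)) h0
    omega
  rw [h2, Limits.zero_comp]

theorem gr_Q'_zero (hb : G.IsBot P F μ0) (ht : G.IsTop P F μ1) (hlb : G.IsBot X P l0)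
    (hlt : G.IsTop X P l1) {j : ℤ} (hj : j < μ0 + l0 + k ∨ μ1 + l1 + k < j) {w : X ⟶ T.Q'}
    (hw : w ∈ G.gr X T.Q' j) : w = 0 := by
  rw [T.eq_sum' w]
  apply Finset.sum_eq_zero
  intro i _
  have h1 := T.d_range hb ht i
  have h2 : w ≫ T.pr' i = 0 := by
    by_contra h0
    have h3 := hlb.le G (G.comp_mem hw (T.pr'_mem i)) h0
    have h4 := hlt.le G (G.comp_mem hw (T.pr'_mem i)) h0
    omega
  rw [h2, Limits.zero_comp]

theorem gr_C_zero (hk : 0 ≤ k) (hκ : 0 ≤ k - ε)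
    (hb : G.IsBot P F μ0) (ht : G.IsTop P F μ1) (hlb : G.IsBot X P l0)
    (hlt : G.IsTop X P l1) {j : ℤ} (hj : j < μ0 + l0 ∨ μ1 + l1 + (k - ε) < j) {z : X ⟶ T.Cn}
    (hz : z ∈ G.gr X T.Cn j) : z = 0 := by
  have h1 : z ≫ T.dd = 0 :=
    T.gr_Q'_zero hb ht hlb hlt (by omega) (G.comp_mem hz T.dd_mem)
  obtain ⟨w, hw, hw1⟩ := T.ex_c_dd.2 X j z hz h1
  have h2 : w = 0 := T.gr_Q_zero hb ht hlb hlt (by omega) hw
  rw [← hw1, h2, Limits.zero_comp]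

/-- for `k > 0`: bottom tensors stay nonzero in the cone -/
theorem comp_U_c_ne_zero (hk : 0 < k)
    (hb : G.IsBot P F μ0) (ht : G.IsTop P F μ1) (hlb : G.IsBot X P l0)
    (hlt : G.IsTop X P l1) {f : P ⟶ F} {y : X ⟶ P} (hf : f ∈ G.gr P F μ0) (hy : y ∈ G.gr X P l0)
    (hf0 : f ≠ 0) (hy0 : y ≠ 0) : y ≫ T.U f ≫ T.c ≠ 0 := by
  intro h0
  obtain ⟨v, hv, hv1⟩ := T.ex_h_c.2 X _ (y ≫ T.U f) (G.comp_mem hy (T.U_mem hf))
    (by simpa using h0)
  have h2 : v = 0 := T.gr_Q'_zero hb ht hlb hlt (by omega) hv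
  rw [h2, Limits.zero_comp] at hv1
  exact T.comp_U_ne_zero hy0 hf0 hv1.symm

/-- there is a nonzero element in the bottom degree of the cone, of the form `f ⊗ y`. -/
theorem exists_bot {n : ℕ} (hP : PObj G n k P t) (hk : 0 ≤ k)
    (hb : G.IsBot P F μ0) (ht : G.IsTop P F μ1) (hlb : G.IsBot X P l0)
    (hlt : G.IsTop X P l1) :
    ∃ f ∈ G.gr P F μ0, ∃ y ∈ G.gr X P l0, y ≫ T.U f ≫ T.c ≠ 0 := by
  rcases hk.lt_or_eq with hk | hk
  · obtain ⟨f, hf, hf0⟩ := hb.1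
    obtain ⟨y, hy, hy0⟩ := hlb.1
    exact ⟨f, hf, y, hy, T.comp_U_c_ne_zero hk hb ht hlb hlt hf hy hf0 hy0⟩
  · subst hk
    obtain ⟨f, hf, hf1⟩ := exists_not_mul hP hb.1
    obtain ⟨y, hy, hy1⟩ := exists_not_mul' hP hlb.1
    refine ⟨f, hf, y, hy, ?_⟩
    intro h0
    obtain ⟨v, hv, hv1⟩ := T.ex_h_c.2 X _ (y ≫ T.U f) (G.comp_mem hy (T.U_mem hf))
      (by simpa using h0)
    -- functionals
    set S : Submodule K (P ⟶ F) := (G.gr P F μ0).map (Linear.leftComp K F t) with hS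
    have hfS : f ∉ S := by
      rintro ⟨m, hm, hm1⟩
      exact hf1 m hm hm1.symm
    set S' : Submodule K (X ⟶ P) := (G.gr X P l0).map (Linear.rightComp K X t) with hS'
    have hyS : y ∉ S' := by
      rintro ⟨m, hm, hm1⟩
      exact hy1 m hm hm1.symm
    obtain ⟨φ, hφ1, hφ2⟩ := Submodule.exists_le_ker_of_notMem hfS
    obtain ⟨ψ, hψ1, hψ2⟩ := Submodule.exists_le_ker_of_notMem hyS
    have e1 : ψ ((v ≫ T.h) ≫ T.Φ φ) = 0 := by
      rw [T.eq_sum' v, Preadditive.sum_comp, Preadditive.sum_comp, map_sum]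
      apply Finset.sum_eq_zero
      intro i _
      by_cases h0 : v ≫ T.pr' i = 0
      · rw [h0, Limits.zero_comp, Limits.zero_comp, Limits.zero_comp, map_zero]
      · have h3 := hlb.le G (G.comp_mem hv (T.pr'_mem i)) h0
        have h4 := T.d_range hb ht i
        have hdi : T.d i = μ0 := by omega
        have h5 : v ≫ T.pr' i ∈ G.gr X P l0 := G.comp_mem' hv (T.pr'_mem i) (by omega)
        have h6 : φ (t ≫ T.b i) = 0 :=
          hφ2 ⟨T.b i, G.cast_mem (T.b_mem i) hdi, rfl⟩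
        have h7 : ψ ((v ≫ T.pr' i) ≫ t) = 0 := hψ2 ⟨_, h5, rfl⟩
        have h8 : (T.u' i ≫ T.h) ≫ T.Φ φ = -(φ (T.b i) • t) := by
          rw [← T.U'_b, T.U'_h, Preadditive.sub_comp, T.U_Φ, Category.assoc t, T.U_Φ, h6,
            zero_smul, zero_sub, Linear.comp_smul, Category.comp_id]
        have h9 : (((v ≫ T.pr' i) ≫ T.u' i) ≫ T.h) ≫ T.Φ φ
            = -(φ (T.b i) • ((v ≫ T.pr' i) ≫ t)) := by
          have : (((v ≫ T.pr' i) ≫ T.u' i) ≫ T.h) ≫ T.Φ φ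
              = (v ≫ T.pr' i) ≫ ((T.u' i ≫ T.h) ≫ T.Φ φ) := by
            simp only [Category.assoc]
          rw [this, h8, Preadditive.comp_neg, Linear.comp_smul]
        rw [h9, map_neg, map_smul, h7, smul_zero, neg_zero]
    rw [hv1, Category.assoc, T.U_Φ, Linear.comp_smul, Category.comp_id, map_smul, smul_eq_mul]
      at e1
    rcases mul_eq_zero.1 e1 with h | h
    · exact hφ1 h
    · exact hψ1 h

/-- elements `f ⊗ y` killed by `t` on both sides lift to the cone. -/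
theorem exists_lift {f : P ⟶ F} {y : X ⟶ P} {a b : ℤ} (hf : f ∈ G.gr P F a)
    (hy : y ∈ G.gr X P b) (hf0 : t ≫ f = 0) (hy0 : y ≫ t = 0) :
    ∃ z ∈ G.gr X T.Cn (a + b + (k - ε)), z ≫ T.dd = y ≫ T.U' f := by
  have h1 : (y ≫ T.U' f) ≫ T.h = 0 := by
    rw [Category.assoc, T.U'_h, hf0, map_zero, zero_sub, Preadditive.comp_neg,
      ← Category.assoc, hy0, Limits.zero_comp, neg_zero]
  obtain ⟨z, hz, hz1⟩ := T.ex_dd_h.2 X _ (y ≫ T.U' f) (G.comp_mem hy (T.U'_mem hf)) h1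
  exact ⟨z, G.cast_mem hz (by ring), hz1⟩

/-- if `κ > 0`, everything in the bottom degree of the cone comes from `Q`. -/
theorem bot_from_Q (hκ : 0 < k - ε)
    (hb : G.IsBot P F μ0) (ht : G.IsTop P F μ1) (hlb : G.IsBot X P l0)
    (hlt : G.IsTop X P l1) {z : X ⟶ T.Cn} (hz : z ∈ G.gr X T.Cn (μ0 + l0)) :
    ∃ w ∈ G.gr X T.Q (μ0 + l0), w ≫ T.c = z := by
  have h1 : z ≫ T.dd = 0 :=
    T.gr_Q'_zero hb ht hlb hlt (by omega) (G.comp_mem hz T.dd_mem)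
  obtain ⟨w, hw, hw1⟩ := T.ex_c_dd.2 X _ z hz h1
  exact ⟨w, G.cast_mem hw (by ring), hw1⟩

/-- if `κ > 0`, the top degree of the cone injects into `Q'`. -/
theorem top_inj (hκ : 0 < k - ε)
    (hb : G.IsBot P F μ0) (ht : G.IsTop P F μ1) (hlb : G.IsBot X P l0)
    (hlt : G.IsTop X P l1) {z : X ⟶ T.Cn} (hz : z ∈ G.gr X T.Cn (μ1 + l1 + (k - ε)))
    (h0 : z ≫ T.dd = 0) : z = 0 := by
  obtain ⟨w, hw, hw1⟩ := T.ex_c_dd.2 X _ z hz h0
  have h2 : w = 0 := T.gr_Q_zero hb ht hlb hlt (by omega) hw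
  rw [← hw1, h2, Limits.zero_comp]

end Tw

end Pool.Agent.PT
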