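import Pool.Agent.PT.Finite

/-!
# Freeness
-/

open CategoryTheory Limits Pretriangulated DirectSum

namespace Pool.Agent.PT

universe v u w

section core

variable {K : Type w} [Field K] {C : Type u} [Category.{v} C] [Preadditive C] [HasShift C ℤ]
  [∀ a : ℤ, (shiftFunctor C a).Additive] [Linear K C] [∀ a : ℤ, (shiftFunctor C a).Linear K]

theorem Path.append {D : Type u} [Category.{v} D] [Preadditive D] [Linear K D] {G : Grading K D}
    {ε k : ℤ} {n : ℕ} {𝔓 : Pair G ε k n} {w : List (Bool × Bool)} {l : Bool × Bool} :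
    ∀ {F F1 F' : D}, Path 𝔓 w F F1 → Rel 𝔓 l F1 F' → Path 𝔓 (w ++ [l]) F F' := by
  induction w with
  | nil =>
    intro F F1 F' h1 h2
    change F = F1 at h1
    subst h1
    exact ⟨F', h2, rfl⟩
  | cons l' w ih =>
    intro F F1 F' h1 h2
    obtain ⟨F2, h3, h4⟩ := h1
    exact ⟨F2, h3, ih h4 h2⟩

theorem core (G : Grading K (GCat C))
    (hiso : ∀ (F F₀ : C) (l : ℤ), Nonempty (F ≅ F₀⟦l⟧) → ∃ l' : ℤ, ∃ a ∈ G.gr ⟨F⟩ ⟨F₀⟩ l',
      ∃ b ∈ G.gr ⟨F₀⟩ ⟨F⟩ (-l'), a ≫ b = 𝟙 _ ∧ b ≫ a = 𝟙 _)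
    {ε k : ℤ} {n : ℕ} (𝔓 : Pair G ε k n) (T₁ T₂ : C ≌ C) (S : ObjectProperty C)
    (hS : ∀ l F, S F → S ((letter T₁ T₂ l).functor.obj F))
    (hrel : ∀ l F, S F → Rel 𝔓 l ⟨F⟩ ⟨(letter T₁ T₂ l).functor.obj F⟩)
    (hS₁ : S 𝔓.P.as) (hS₂ : S 𝔓.P'.as)
    (L : List (Bool × Bool)) (hL : FreeGroup.IsReduced L) (hne : L ≠ []) (l : ℤ) :
    ¬ Nonempty ((wordEq T₁ T₂ L).functor ≅ shiftFunctor C l) := by
  rintro ⟨φ⟩
  -- the path
  have hpath : ∀ (L : List (Bool × Bool)) (F : C), S F →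
      S ((wordEq T₁ T₂ L).functor.obj F) ∧
      Path 𝔓 L.reverse ⟨F⟩ ⟨(wordEq T₁ T₂ L).functor.obj F⟩ := by
    intro L F hF
    induction L with
    | nil => exact ⟨hF, rfl⟩
    | cons l L ih =>
      refine ⟨hS l _ ih.1, ?_⟩
      rw [List.reverse_cons]
      exact ih.2.append (hrel l _ ih.1)
  have hrev : L.reverse ≠ [] := by simpa using hne
  have hchain : L.reverse.IsChain (fun a b => ¬ (a.1 = b.1 ∧ a.2 ≠ b.2)) := by
    rw [List.isChain_reverse]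
    refine List.IsChain.imp ?_ hL
    rintro a b hab ⟨h1, h2⟩
    exact h2 (hab h1.symm).symm
  obtain ⟨l₀, L₀, hL₀⟩ := List.exists_cons_of_ne_nil hrev
  -- the starting object
  rcases hb : l₀ with ⟨_ | _, s⟩
  · -- start with `P`
    have hp := (hpath L 𝔓.P.as hS₁).2
    rw [hL₀, hb] at hp
    rw [hL₀, hb] at hchain
    obtain ⟨l', hafter⟩ := hp.after hchain (𝔓.ready_P s)
    obtain ⟨l'', a, ha, b, hb', hab, hba⟩ := hiso _ 𝔓.P.as l ⟨φ.app 𝔓.P.as⟩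
    have hst := 𝔓.swap.st_P'
    have hst' : St 𝔓 ⟨(wordEq T₁ T₂ L).functor.obj 𝔓.P.as⟩ (0 - l'') (n * k - l'')
        (n * k - 𝔓.ν1 - l'') (n * k - 𝔓.ν0 - l'') := by
      refine ⟨?_, ?_, ?_, ?_⟩
      · exact hst.b2.transport ha hb' hab hba
      · exact hst.t2.transport ha hb' hab hba
      · exact hst.b1.transport ha hb' hab hba
      · exact hst.t1.transport ha hb' hab hba
    exact hafter.ne_P hst' ⟨by ring, by ring⟩
  · have hp := (hpath L 𝔓.P'.as hS₂).2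
    rw [hL₀, hb] at hp
    rw [hL₀, hb] at hchain
    obtain ⟨l', hafter⟩ := hp.after hchain (𝔓.ready_P' s)
    obtain ⟨l'', a, ha, b, hb', hab, hba⟩ := hiso _ 𝔓.P'.as l ⟨φ.app 𝔓.P'.as⟩
    have hst := 𝔓.st_P'
    have hst' : St 𝔓 ⟨(wordEq T₁ T₂ L).functor.obj 𝔓.P'.as⟩ (𝔓.ν0 - l'') (𝔓.ν1 - l'')
        (0 - l'') (n * k - l'') := by
      refine ⟨?_, ?_, ?_, ?_⟩
      · exact hst.b1.transport ha hb' hab hba
      · exact hst.t1.transport ha hb' hab hba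
      · exact hst.b2.transport ha hb' hab hba
      · exact hst.t2.transport ha hb' hab hba
    exact hafter.ne_P' hst' ⟨by ring, by ring⟩

variable [HasZeroObject C] [Pretriangulated C]

/-- For `F` in `S`, the index set of a homogeneous basis of `Hom^*(P,F)` is finite: either by
assumption, or because `F` and `T(F)` are compact. -/
theorem exists_tw {S : ObjectProperty C} {n : ℕ} {k : ℤ} {P : C} {t : ShiftedHom P P k}
    (hP : IsPObject K S n k P t) {T : C ≌ C} (h : IsPTwist K S t T)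
    (hST : ∀ F, S F → S (T.functor.obj F))
    (hab : (∀ F, S F → FiniteDimensional K (HomStar P F)) ∨ (∀ F, S F → IsCompactObj F))
    {F : C} (hF : S F) :
    Nonempty (Tw (grading K C) 1 k (GCat.mk P) (gh k t) (GCat.mk F)
      (GCat.mk (T.functor.obj F))) := by
  obtain ⟨T'⟩ := (h F hF).exists
  apply T'.exists_tw_of_finite
  rcases hab with hab | hab
  · haveI := hab F hF
    exact Module.Finite.finite_basis T'.basis
  · exact T'.finite_index hP.pobj (IsCompactObj.of_triangle T'.cone_e (hab F hF)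
      (hab _ (hST F hF)))

theorem exists_tw_symm {S : ObjectProperty C} {n : ℕ} {k : ℤ} {P : C} {t : ShiftedHom P P k}
    (hP : IsPObject K S n k P t) {T : C ≌ C} (h : IsPTwist K S t T)
    (hST : ∀ F, S F → S (T.functor.obj F))
    (hab : (∀ F, S F → FiniteDimensional K (HomStar P F)) ∨ (∀ F, S F → IsCompactObj F))
    {F : C} (hF : S (T.inverse.obj F)) :
    Nonempty (Tw (grading K C) 1 k (GCat.mk P) (gh k t) (GCat.mk (T.inverse.obj F))
      (GCat.mk F)) := by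
  obtain ⟨T'⟩ := exists_tw hP h hST hab hF
  refine ⟨T'.ofIso (gz (T.counitIso.app F).hom) (gz (T.counitIso.app F).inv) (gz_mem K _)
    (gz_mem K _) ?_ ?_⟩
  · rw [gz_comp_gz, Iso.hom_inv_id, gz_id]
  · rw [gz_comp_gz, Iso.inv_hom_id, gz_id]

/-- The main theorem, for words. -/
theorem main_words (S : ObjectProperty C) (n : ℕ) (hn : 1 ≤ n) (k : ℤ) (P₁ P₂ : C)
    (t₁ : ShiftedHom P₁ P₁ k) (t₂ : ShiftedHom P₂ P₂ k)
    (h₁ : IsPObject K S n k P₁ t₁) (h₂ : IsPObject K S n k P₂ t₂)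
    (hS₁ : S P₁) (hS₂ : S P₂) (hSs : ∀ (F : C) (j : ℤ), S F → S (F⟦j⟧))
    (hab : (∀ F, S F → FiniteDimensional K (HomStar P₁ F) ∧ FiniteDimensional K (HomStar P₂ F)) ∨
      (∀ F, S F → IsCompactObj F))
    (T₁ T₂ : C ≌ C) (hT₁ : IsPTwist K S t₁ T₁) (hT₂ : IsPTwist K S t₂ T₂)
    (hST₁ : ∀ F, S F → S (T₁.functor.obj F) ∧ S (T₁.inverse.obj F))
    (hST₂ : ∀ F, S F → S (T₂.functor.obj F) ∧ S (T₂.inverse.obj F))
    (hno : ∃ (j : ℤ) (f : P₁ ⟶ P₂⟦j⟧), f ≠ 0)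
    (hns : ∀ j : ℤ, IsEmpty (P₁ ≅ P₂⟦j⟧))
    (L : List (Bool × Bool)) (hL : FreeGroup.IsReduced L) (hne : L ≠ []) (l : ℤ) :
    ¬ Nonempty ((wordEq T₁ T₂ L).functor ≅ shiftFunctor C l) := by
  have hP := h₁.pobj
  have hP' := h₂.pobj
  have cy := h₁.cyp (P' := P₂) hS₁ (fun j => hSs _ j hS₂)
  have cy' := h₂.cyp (P' := P₁) hS₂ (fun j => hSs _ j hS₁)
  have hnoiso := noIso_of_isEmpty K hns
  have hab₁ : (∀ F, S F → FiniteDimensional K (HomStar P₁ F)) ∨ (∀ F, S F → IsCompactObj F) :=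
    hab.imp (fun h F hF => (h F hF).1) id
  have hab₂ : (∀ F, S F → FiniteDimensional K (HomStar P₂ F)) ∨ (∀ F, S F → IsCompactObj F) :=
    hab.imp (fun h F hF => (h F hF).2) id
  have tw₁ : ∀ F, S F → Nonempty (Tw (grading K C) 1 k (GCat.mk P₁) (gh k t₁) (GCat.mk F)
      (GCat.mk (T₁.functor.obj F))) := fun F hF =>
    exists_tw h₁ hT₁ (fun F hF => (hST₁ F hF).1) hab₁ hF
  have tw₁' : ∀ F, S F → Nonempty (Tw (grading K C) 1 k (GCat.mk P₁) (gh k t₁)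
      (GCat.mk (T₁.inverse.obj F)) (GCat.mk F)) := fun F hF =>
    exists_tw_symm h₁ hT₁ (fun F hF => (hST₁ F hF).1) hab₁ (hST₁ F hF).2
  have tw₂ : ∀ F, S F → Nonempty (Tw (grading K C) 1 k (GCat.mk P₂) (gh k t₂) (GCat.mk F)
      (GCat.mk (T₂.functor.obj F))) := fun F hF =>
    exists_tw h₂ hT₂ (fun F hF => (hST₂ F hF).1) hab₂ hF
  have tw₂' : ∀ F, S F → Nonempty (Tw (grading K C) 1 k (GCat.mk P₂) (gh k t₂)
      (GCat.mk (T₂.inverse.obj F)) (GCat.mk F)) := fun F hF =>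
    exists_tw_symm h₂ hT₂ (fun F hF => (hST₂ F hF).1) hab₂ (hST₂ F hF).2
  obtain ⟨j₀, f₀, hf₀⟩ := hno
  have hne' : ∃ f : GCat.mk P₁ ⟶ GCat.mk P₂, f ≠ 0 := ⟨gh j₀ f₀, fun h => hf₀ (gh_eq_zero.1 h)⟩
  obtain ⟨E⟩ := tw₁ P₂ hS₂
  have hSl : ∀ l F, S F → S ((letter T₁ T₂ l).functor.obj F) := by
    rintro ⟨_ | _, _ | _⟩ F hF
    · exact (hST₂ F hF).2
    · exact (hST₂ F hF).1
    · exact (hST₁ F hF).2
    · exact (hST₁ F hF).1
  rcases le_or_gt k 0 with hk | hk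
  · -- reversed degrees
    obtain ⟨ν0, h0⟩ := (grading K C).rev.exists_isBot E.b (fun i => -E.d i)
      (fun i => (grading K C).cast_mem (E.b_mem i) (by ring)) hne'
    obtain ⟨ν1, h1⟩ := (grading K C).rev.exists_isTop E.b (fun i => -E.d i)
      (fun i => (grading K C).cast_mem (E.b_mem i) (by ring)) hne'
    let 𝔓 : Pair (grading K C).rev (-1) (-k) n := mkPair (grading K C).rev hP.rev hP'.rev hn
      (Or.inr rfl) (by omega) (by omega) h0 h1 cy.rev cy'.rev hnoiso.rev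
    refine core (grading K C).rev ?_ 𝔓 T₁ T₂ S hSl ?_ hS₁ hS₂ L hL hne l
    · rintro F F₀ l ⟨φ⟩
      obtain ⟨a, ha, b, hb, hab, hba⟩ := exists_of_iso K φ
      exact ⟨-l, a, (grading K C).cast_mem ha (by ring), b, (grading K C).cast_mem hb (by ring),
        hab, hba⟩
    · rintro ⟨_ | _, _ | _⟩ F hF
      · exact (tw₂' F hF).map Tw.rev
      · exact (tw₂ F hF).map Tw.rev
      · exact (tw₁' F hF).map Tw.rev
      · exact (tw₁ F hF).map Tw.rev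
  · obtain ⟨ν0, h0⟩ := (grading K C).exists_isBot E.b E.d E.b_mem hne'
    obtain ⟨ν1, h1⟩ := (grading K C).exists_isTop E.b E.d E.b_mem hne'
    let 𝔓 : Pair (grading K C) 1 k n := mkPair (grading K C) hP hP' hn
      (Or.inl rfl) (by omega) (by omega) h0 h1 cy cy' hnoiso
    refine core (grading K C) ?_ 𝔓 T₁ T₂ S hSl ?_ hS₁ hS₂ L hL hne l
    · rintro F F₀ l ⟨φ⟩
      exact ⟨l, exists_of_iso K φ⟩
    · rintro ⟨_ | _, _ | _⟩ F hF
      · exact tw₂' F hF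
      · exact tw₂ F hF
      · exact tw₁' F hF
      · exact tw₁ F hF

end core

end Pool.Agent.PT
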