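import Pool.Agent.PT.Machine

/-!
# Pairs of `ℙ`-objects and the states of the state machine
-/

open CategoryTheory

namespace Pool.Agent.PT

universe v u w

variable {K : Type w} [Field K] {D : Type u} [Category.{v} D] [Preadditive D] [Linear K D]

/-- the products `y ≫ f` of homogeneous elements of given degrees -/
def Prods (G : Grading K D) (X Y F : D) (a b : ℤ) : Set (X ⟶ F) :=
  {w | ∃ y ∈ G.gr X Y a, ∃ f ∈ G.gr Y F b, w = y ≫ f}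

def SurjP (G : Grading K D) (X Y F : D) (a b c : ℤ) : Prop :=
  ∀ v ∈ G.gr X F c, v ∈ Submodule.span K (Prods G X Y F a b)

def NonSurjP (G : Grading K D) (X Y F : D) (a b c : ℤ) : Prop :=
  ∃ v ∈ G.gr X F c, v ∉ Submodule.span K (Prods G X Y F a b)

def KillOne (G : Grading K D) (X Y F : D) (a b : ℤ) : Prop :=
  ∃ y ∈ G.gr X Y a, ∃ f ∈ G.gr Y F b, y ≠ 0 ∧ f ≠ 0 ∧ y ≫ f = 0

def KillAll (G : Grading K D) (X Y F : D) (a b : ℤ) : Prop :=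
  ∃ f ∈ G.gr Y F b, f ≠ 0 ∧ ∀ y ∈ G.gr X Y a, y ≫ f = 0

def InjP (G : Grading K D) (X Y F : D) (a b : ℤ) : Prop :=
  ∀ f ∈ G.gr Y F b, f ≠ 0 → ∃ y ∈ G.gr X Y a, y ≫ f ≠ 0

/-- the condition needed at the bottom when the degrees coincide -/
def CondA (G : Grading K D) (ε : ℤ) (X Y F : D) (c a b : ℤ) : Prop :=
  (ε = 1 → KillOne G X Y F c a) ∧ (ε = -1 → NonSurjP G X Y F c a b)

/-- the condition needed at the top when the degrees coincide -/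
def CondZ (G : Grading K D) (ε : ℤ) (X Y F : D) (c a b : ℤ) : Prop :=
  (ε = 1 → NonSurjP G X Y F c a b) ∧ (ε = -1 → KillAll G X Y F c a)

/-- A pair of non-orthogonal `ℙ`-objects that are not shifts of each other. -/
structure Pair (G : Grading K D) (ε k : ℤ) (n : ℕ) where
  P : D
  P' : D
  t : P ⟶ P
  t' : P' ⟶ P'
  hP : PObj G n k P t
  hP' : PObj G n k P' t'
  hn : 1 ≤ n
  hε : ε = 1 ∨ ε = -1
  hk : 0 ≤ k
  hκ : 0 ≤ k - ε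
  ν0 : ℤ
  ν1 : ℤ
  bN : G.IsBot P P' ν0
  tN : G.IsTop P P' ν1
  cy1 : ∀ j, ∀ v ∈ G.gr P' P j, v ≠ 0 → ∃ x ∈ G.gr P P' (n * k - j), x ≫ v ≠ 0
  cy2 : ∀ j, ∀ x ∈ G.gr P P' j, x ≠ 0 → ∃ v ∈ G.gr P' P (n * k - j), x ≫ v ≠ 0
  cy1' : ∀ j, ∀ x ∈ G.gr P P' j, x ≠ 0 → ∃ v ∈ G.gr P' P (n * k - j), v ≫ x ≠ 0
  cy2' : ∀ j, ∀ v ∈ G.gr P' P j, v ≠ 0 → ∃ x ∈ G.gr P P' (n * k - j), v ≫ x ≠ 0
  nu : ∀ j, ∀ x ∈ G.gr P P' j, ∀ v ∈ G.gr P' P (-j), x ≫ v ≫ tp t n = 0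
  nu' : ∀ j, ∀ v ∈ G.gr P' P j, ∀ x ∈ G.gr P P' (-j), v ≫ x ≫ tp t' n = 0

namespace Pair

variable {G : Grading K D} {ε k : ℤ} {n : ℕ} (𝔓 : Pair G ε k n)

theorem hw : 𝔓.ν0 ≤ 𝔓.ν1 := by
  obtain ⟨f, hf, hf0⟩ := 𝔓.bN.1
  exact 𝔓.tN.le G hf hf0

theorem bN' : G.IsBot 𝔓.P' 𝔓.P (n * k - 𝔓.ν1) := by
  constructor
  · obtain ⟨x, hx, hx0⟩ := 𝔓.tN.1
    obtain ⟨v, hv, hv0⟩ := 𝔓.cy2 _ x hx hx0
    refine ⟨v, hv, ?_⟩
    rintro rfl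
    exact hv0 (by simp)
  · intro j hj v hv
    by_contra h0
    obtain ⟨x, hx, hx0⟩ := 𝔓.cy1 _ v hv h0
    have := 𝔓.tN.2 (n * k - j) (by omega) x hx
    rw [this] at hx0
    exact hx0 (by simp)

theorem tN' : G.IsTop 𝔓.P' 𝔓.P (n * k - 𝔓.ν0) := by
  constructor
  · obtain ⟨x, hx, hx0⟩ := 𝔓.bN.1
    obtain ⟨v, hv, hv0⟩ := 𝔓.cy2 _ x hx hx0
    refine ⟨v, hv, ?_⟩
    rintro rfl
    exact hv0 (by simp)
  · intro j hj v hv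
    by_contra h0
    obtain ⟨x, hx, hx0⟩ := 𝔓.cy1 _ v hv h0
    have := 𝔓.bN.2 (n * k - j) (by omega) x hx
    rw [this] at hx0
    exact hx0 (by simp)

/-- exchanging the two objects -/
def swap : Pair G ε k n where
  P := 𝔓.P'
  P' := 𝔓.P
  t := 𝔓.t'
  t' := 𝔓.t
  hP := 𝔓.hP'
  hP' := 𝔓.hP
  hn := 𝔓.hn
  hε := 𝔓.hε
  hk := 𝔓.hk
  hκ := 𝔓.hκ
  ν0 := n * k - 𝔓.ν1
  ν1 := n * k - 𝔓.ν0
  bN := 𝔓.bN'
  tN := 𝔓.tN'
  cy1 := 𝔓.cy1'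
  cy2 := 𝔓.cy2'
  cy1' := 𝔓.cy1
  cy2' := 𝔓.cy2
  nu := 𝔓.nu'
  nu' := 𝔓.nu

/-- for `k > 0`: degree-zero composites vanish -/
theorem comp_zero (hk : 0 < k) {j : ℤ} {x : 𝔓.P ⟶ 𝔓.P'} (hx : x ∈ G.gr 𝔓.P 𝔓.P' j)
    {v : 𝔓.P' ⟶ 𝔓.P} (hv : v ∈ G.gr 𝔓.P' 𝔓.P (-j)) : x ≫ v = 0 := by
  obtain ⟨c, hc⟩ := 𝔓.hP.zero_eq hk (G.comp_mem' hx hv (by ring))
  have h1 := 𝔓.nu j x hx v hv
  rw [← Category.assoc, hc, Linear.smul_comp, Category.id_comp] at h1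
  rcases smul_eq_zero.1 h1 with h | h
  · rw [hc, h, zero_smul]
  · exact absurd h (𝔓.hP.tp_ne_zero le_rfl)

/-- in general degree-zero composites are divisible by `t` -/
theorem comp_div (hk : k = 0) {j : ℤ} {x : 𝔓.P ⟶ 𝔓.P'} (hx : x ∈ G.gr 𝔓.P 𝔓.P' j)
    {v : 𝔓.P' ⟶ 𝔓.P} (hv : v ∈ G.gr 𝔓.P' 𝔓.P (-j)) :
    ∃ r ∈ G.gr 𝔓.P 𝔓.P 0, x ≫ v = 𝔓.t ≫ r := by
  have h1 := 𝔓.nu j x hx v hv
  obtain ⟨a, ha⟩ := 𝔓.hP.span (x ≫ v)
  have h2 : a 0 = 0 := by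
    rw [← Category.assoc, ha, Preadditive.sum_comp, Finset.sum_eq_single 0] at h1
    · rw [Linear.smul_comp] at h1
      simp only [Fin.val_zero, tp_zero, Category.id_comp] at h1
      exact (smul_eq_zero.1 h1).resolve_right (𝔓.hP.tp_ne_zero le_rfl)
    · intro i _ hi
      rw [Linear.smul_comp, ← tp_add, 𝔓.hP.tp_mul_eq_zero, smul_zero]
      have : (i : ℕ) ≠ 0 := fun h => hi (Fin.ext h)
      omega
    · intro h; exact absurd (Finset.mem_univ _) h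
  refine ⟨∑ i : Fin n, a i.succ • tp 𝔓.t i, ?_, ?_⟩
  · apply Submodule.sum_mem
    intro i _
    exact Submodule.smul_mem _ _ (G.cast_mem (tp_mem G 𝔓.hP.deg i) (by rw [hk]; ring))
  · rw [ha, Fin.sum_univ_succ, h2, zero_smul, zero_add, Preadditive.comp_sum]
    apply Finset.sum_congr rfl
    intro i _
    rw [Linear.comp_smul, Fin.val_succ, tp_succ']

/-- if `w = nk`, then `y t^n = 0` for `y` in the lowest degree of `Hom(P',P)`. -/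
theorem bot_tp (h : -𝔓.ν0 = n * k - 𝔓.ν1) {y : 𝔓.P' ⟶ 𝔓.P}
    (hy : y ∈ G.gr 𝔓.P' 𝔓.P (n * k - 𝔓.ν1)) : y ≫ tp 𝔓.t n = 0 := by
  by_contra h0
  obtain ⟨x, hx, hx0⟩ := 𝔓.cy1 _ _ (G.comp_mem hy (tp_mem G 𝔓.hP.deg n)) h0
  apply hx0
  exact 𝔓.nu _ x hx y (G.cast_mem hy (by omega))

end Pair

/-- extreme degrees of `Hom^*(P,F)` and `Hom^*(P',F)` -/
structure St {G : Grading K D} {ε k : ℤ} {n : ℕ} (𝔓 : Pair G ε k n) (F : D)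
    (a1 z1 a2 z2 : ℤ) : Prop where
  b1 : G.IsBot 𝔓.P F a1
  t1 : G.IsTop 𝔓.P F z1
  b2 : G.IsBot 𝔓.P' F a2
  t2 : G.IsTop 𝔓.P' F z2

structure ReadyPos {G : Grading K D} {ε k : ℤ} {n : ℕ} (𝔓 : Pair G ε k n) (F : D)
    (a1 z1 a2 z2 : ℤ) : Prop where
  st : St 𝔓 F a1 z1 a2 z2
  top : z2 - z1 < n * k - 𝔓.ν0 + (k - ε) ∨
    (𝔓.ν1 - 𝔓.ν0 + (k - ε) = 0 ∧ z2 - z1 = n * k - 𝔓.ν1 ∧
      SurjP G 𝔓.P' 𝔓.P F (n * k - 𝔓.ν1) z1 z2)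
  bot : a2 - a1 = n * k - 𝔓.ν1 → CondA G ε 𝔓.P' 𝔓.P F (n * k - 𝔓.ν1) a1 a2

structure ReadyNeg {G : Grading K D} {ε k : ℤ} {n : ℕ} (𝔓 : Pair G ε k n) (F : D)
    (a1 z1 a2 z2 : ℤ) : Prop where
  st : St 𝔓 F a1 z1 a2 z2
  bot : -𝔓.ν1 - (k - ε) < a2 - a1 ∨
    (𝔓.ν1 - 𝔓.ν0 + (k - ε) = 0 ∧ a2 - a1 = -𝔓.ν0 ∧ InjP G 𝔓.P 𝔓.P' F 𝔓.ν0 a2)
  top : z2 - z1 = -𝔓.ν0 → CondZ G ε 𝔓.P 𝔓.P' F 𝔓.ν0 z2 z1

structure AfterPos {G : Grading K D} {ε k : ℤ} {n : ℕ} (𝔓 : Pair G ε k n) (F : D)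
    (a1 z1 a2 z2 : ℤ) : Prop where
  st : St 𝔓 F a1 z1 a2 z2
  hz : z2 - z1 = -𝔓.ν0
  ha : a2 - a1 ≤ -𝔓.ν1 - (k - ε)
  surj : 𝔓.ν1 - 𝔓.ν0 + (k - ε) = 0 → SurjP G 𝔓.P 𝔓.P' F 𝔓.ν0 z2 z1
  kill : 𝔓.ν1 - 𝔓.ν0 + (k - ε) = 0 → a2 - a1 = -𝔓.ν0 → KillAll G 𝔓.P 𝔓.P' F 𝔓.ν0 a2
  eq : -𝔓.ν0 = n * k - 𝔓.ν1 → CondZ G ε 𝔓.P' 𝔓.P F (n * k - 𝔓.ν1) z1 z2

structure AfterNeg {G : Grading K D} {ε k : ℤ} {n : ℕ} (𝔓 : Pair G ε k n) (F : D)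
    (a1 z1 a2 z2 : ℤ) : Prop where
  st : St 𝔓 F a1 z1 a2 z2
  ha : a2 - a1 = n * k - 𝔓.ν1
  hz : n * k - 𝔓.ν0 + (k - ε) ≤ z2 - z1
  inj : 𝔓.ν1 - 𝔓.ν0 + (k - ε) = 0 → InjP G 𝔓.P' 𝔓.P F (n * k - 𝔓.ν1) a1
  nonsurj : 𝔓.ν1 - 𝔓.ν0 + (k - ε) = 0 → z2 - z1 = n * k - 𝔓.ν1 →
    NonSurjP G 𝔓.P' 𝔓.P F (n * k - 𝔓.ν1) z1 z2
  eq : -𝔓.ν0 = n * k - 𝔓.ν1 → CondA G ε 𝔓.P 𝔓.P' F 𝔓.ν0 a2 a1

section transitions

variable {G : Grading K D} {ε k : ℤ} {n : ℕ} {𝔓 : Pair G ε k n} {F : D} {a1 z1 a2 z2 : ℤ}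

theorem St.swap (h : St 𝔓 F a1 z1 a2 z2) : St 𝔓.swap F a2 z2 a1 z1 := ⟨h.b2, h.t2, h.b1, h.t1⟩

theorem Pair.pos_nk (𝔓 : Pair G ε k n) : 0 < (n : ℤ) * k + (k - ε) := by
  have h1 := 𝔓.hn
  have h2 := 𝔓.hk
  have h3 := 𝔓.hκ
  rcases 𝔓.hε with h | h
  · have hk1 : 1 ≤ k := by omega
    have : (1 : ℤ) * 1 ≤ (n : ℤ) * k := mul_le_mul (by exact_mod_cast h1) hk1 (by norm_num)
      (by positivity)
    omega
  · have : (0 : ℤ) ≤ (n : ℤ) * k := by positivity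
    omega

theorem Pair.nk_nonneg (𝔓 : Pair G ε k n) : 0 ≤ (n : ℤ) * k := by
  have h2 := 𝔓.hk
  positivity

/-- `T` then `T` -/
theorem AfterPos.pos (h : AfterPos 𝔓 F a1 z1 a2 z2) : ReadyPos 𝔓 F a1 z1 a2 z2 where
  st := h.st
  top := by
    left
    have := 𝔓.pos_nk
    have := h.hz
    omega
  bot := by
    intro h0
    have := 𝔓.pos_nk
    have := h.ha
    omega

/-- `T` then `T'` -/
theorem AfterPos.pos_swap (h : AfterPos 𝔓 F a1 z1 a2 z2) : ReadyPos 𝔓.swap F a2 z2 a1 z1 where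
  st := h.st.swap
  top := by
    have h1 := h.hz
    have h2 := 𝔓.hw
    have h3 := 𝔓.hκ
    simp only [Pair.swap]
    rcases eq_or_ne (𝔓.ν1 - 𝔓.ν0 + (k - ε)) 0 with h4 | h4
    · right
      refine ⟨by omega, by omega, ?_⟩
      have h5 : (n : ℤ) * k - (n * k - 𝔓.ν0) = 𝔓.ν0 := by ring
      rw [h5]
      exact h.surj h4
    · left; omega
  bot := by
    intro h0
    simp only [Pair.swap] at h0 ⊢
    have h1 := h.ha
    have h2 := 𝔓.hw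
    have h3 := 𝔓.hκ
    have h4 : 𝔓.ν1 - 𝔓.ν0 + (k - ε) = 0 := by omega
    have h5 : (n : ℤ) * k - (n * k - 𝔓.ν0) = 𝔓.ν0 := by ring
    rw [h5]
    obtain ⟨g, hg, hg0, hg1⟩ := h.kill h4 (by omega)
    constructor
    · intro _
      obtain ⟨x, hx, hx0⟩ := 𝔓.bN.1
      exact ⟨x, hx, g, hg, hx0, hg0, hg1 x hx⟩
    · intro hε
      exfalso
      have := 𝔓.hk
      omega

/-- `T` then `T'^{-1}` -/
theorem AfterPos.neg_swap (h : AfterPos 𝔓 F a1 z1 a2 z2) : ReadyNeg 𝔓.swap F a2 z2 a1 z1 where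
  st := h.st.swap
  bot := by
    left
    simp only [Pair.swap]
    have h1 := h.ha
    have h2 := 𝔓.hw
    have h3 := 𝔓.hκ
    have h4 := 𝔓.pos_nk
    omega
  top := by
    intro h0
    simp only [Pair.swap] at h0 ⊢
    have h1 := h.hz
    exact h.eq (by omega)

/-- `T^{-1}` then `T^{-1}` -/
theorem AfterNeg.neg (h : AfterNeg 𝔓 F a1 z1 a2 z2) : ReadyNeg 𝔓 F a1 z1 a2 z2 where
  st := h.st
  bot := by
    left
    have := 𝔓.pos_nk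
    have := h.ha
    have := 𝔓.hw
    omega
  top := by
    intro h0
    have := 𝔓.pos_nk
    have := h.hz
    omega

/-- `T^{-1}` then `T'` -/
theorem AfterNeg.pos_swap (h : AfterNeg 𝔓 F a1 z1 a2 z2) : ReadyPos 𝔓.swap F a2 z2 a1 z1 where
  st := h.st.swap
  top := by
    left
    simp only [Pair.swap]
    have h1 := h.hz
    have h2 := 𝔓.hw
    have h3 := 𝔓.hκ
    have h4 := 𝔓.pos_nk
    omega
  bot := by
    intro h0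
    simp only [Pair.swap] at h0 ⊢
    have h1 := h.ha
    have h5 : (n : ℤ) * k - (n * k - 𝔓.ν0) = 𝔓.ν0 := by ring
    rw [h5]
    exact h.eq (by omega)

/-- `T^{-1}` then `T'^{-1}` -/
theorem AfterNeg.neg_swap (h : AfterNeg 𝔓 F a1 z1 a2 z2) : ReadyNeg 𝔓.swap F a2 z2 a1 z1 where
  st := h.st.swap
  bot := by
    have h1 := h.ha
    have h2 := 𝔓.hw
    have h3 := 𝔓.hκ
    simp only [Pair.swap]
    rcases eq_or_ne (𝔓.ν1 - 𝔓.ν0 + (k - ε)) 0 with h4 | h4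
    · right
      exact ⟨by omega, by omega, h.inj h4⟩
    · left; omega
  top := by
    intro h0
    simp only [Pair.swap] at h0 ⊢
    have h1 := h.hz
    have h2 := 𝔓.hw
    have h3 := 𝔓.hκ
    have h4 : 𝔓.ν1 - 𝔓.ν0 + (k - ε) = 0 := by omega
    constructor
    · intro _
      exact h.nonsurj h4 (by omega)
    · intro hε
      exfalso
      have := 𝔓.hk
      omega

/-! ### the initial object `P'` -/

/-- state of the object `P'` itself -/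
theorem Pair.st_P' (𝔓 : Pair G ε k n) : St 𝔓 𝔓.P' 𝔓.ν0 𝔓.ν1 0 (n * k) where
  b1 := 𝔓.bN
  t1 := 𝔓.tN
  b2 := by
    constructor
    · exact ⟨𝟙 _, G.id_mem _, by simpa using 𝔓.hP'.tp_ne_zero (Nat.zero_le n)⟩
    · intro j hj f hf
      by_contra h0
      have := 𝔓.hP'.degree_range 𝔓.hk hf h0
      omega
  t2 := by
    constructor
    · exact ⟨tp 𝔓.t' n, tp_mem G 𝔓.hP'.deg n, 𝔓.hP'.tp_ne_zero le_rfl⟩
    · intro j hj f hf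
      by_contra h0
      have := 𝔓.hP'.degree_range 𝔓.hk hf h0
      omega

theorem Pair.pos_of_eps (𝔓 : Pair G ε k n) (h : ε = 1) : 0 < k := by
  have := 𝔓.hκ
  omega

theorem Pair.readyPos_P' (𝔓 : Pair G ε k n) : ReadyPos 𝔓 𝔓.P' 𝔓.ν0 𝔓.ν1 0 (n * k) where
  st := 𝔓.st_P'
  top := by
    have h2 := 𝔓.hw
    have h3 := 𝔓.hκ
    rcases eq_or_ne (𝔓.ν1 - 𝔓.ν0 + (k - ε)) 0 with h4 | h4
    · right
      refine ⟨h4, by omega, ?_⟩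
      intro v hv
      have hε : ε = 1 := by
        rcases 𝔓.hε with h | h
        · exact h
        · have := 𝔓.hk; omega
      have hk := 𝔓.pos_of_eps hε
      obtain ⟨c, hc⟩ := 𝔓.hP'.top_eq hk hv
      obtain ⟨f, hf, hf0⟩ := 𝔓.tN.1
      obtain ⟨y, hy, hy0⟩ := 𝔓.cy1' _ f hf hf0
      obtain ⟨c', hc'⟩ := 𝔓.hP'.top_eq hk (G.comp_mem' hy hf (by ring))
      have hc'0 : c' ≠ 0 := by
        rintro rfl
        rw [zero_smul] at hc'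
        exact hy0 hc'
      have : v = (c * c'⁻¹) • (y ≫ f) := by
        rw [hc, hc', smul_smul, mul_assoc, inv_mul_cancel₀ hc'0, mul_one]
      rw [this]
      exact Submodule.smul_mem _ _ (Submodule.subset_span ⟨y, hy, f, hf, rfl⟩)
    · left; omega
  bot := by
    intro h0
    constructor
    · intro hε
      have hk := 𝔓.pos_of_eps hε
      obtain ⟨f, hf, hf0⟩ := 𝔓.bN.1
      obtain ⟨y, hy, hy0⟩ := 𝔓.bN'.1
      exact ⟨y, hy, f, hf, hy0, hf0,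
        𝔓.swap.comp_zero hk hy (G.cast_mem hf (by omega))⟩
    · intro hε
      refine ⟨𝟙 _, G.id_mem _, ?_⟩
      intro hmem
      -- every product is killed by `t'^n`
      have key : ∀ v ∈ Submodule.span K (Prods G 𝔓.P' 𝔓.P 𝔓.P' (n * k - 𝔓.ν1) 𝔓.ν0),
          v ≫ tp 𝔓.t' n = 0 := by
        intro v hv
        induction hv using Submodule.span_induction with
        | mem v hv =>
          obtain ⟨y, hy, f, hf, rfl⟩ := hv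
          rw [Category.assoc]
          exact 𝔓.nu' _ y hy f (G.cast_mem hf (by omega))
        | zero => simp
        | add a b _ _ ha hb => rw [Preadditive.add_comp, ha, hb, add_zero]
        | smul c a _ ha => rw [Linear.smul_comp, ha, smul_zero]
      have := key _ hmem
      rw [Category.id_comp] at this
      exact 𝔓.hP'.tp_ne_zero le_rfl this

theorem Pair.readyNeg_P' (𝔓 : Pair G ε k n) : ReadyNeg 𝔓 𝔓.P' 𝔓.ν0 𝔓.ν1 0 (n * k) where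
  st := 𝔓.st_P'
  bot := by
    have h2 := 𝔓.hw
    have h3 := 𝔓.hκ
    rcases eq_or_ne (𝔓.ν1 - 𝔓.ν0 + (k - ε)) 0 with h4 | h4
    · right
      refine ⟨h4, by omega, ?_⟩
      intro f hf hf0
      have hε : ε = 1 := by
        rcases 𝔓.hε with h | h
        · exact h
        · have := 𝔓.hk; omega
      have hk := 𝔓.pos_of_eps hε
      obtain ⟨c, hc⟩ := 𝔓.hP'.zero_eq hk hf
      obtain ⟨x, hx, hx0⟩ := 𝔓.bN.1
      refine ⟨x, hx, ?_⟩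
      rw [hc, Linear.comp_smul, Category.comp_id]
      have hc0 : c ≠ 0 := by
        rintro rfl
        rw [zero_smul] at hc
        exact hf0 hc
      exact smul_ne_zero hc0 hx0
    · left; omega
  top := by
    intro h0
    have hpq : -𝔓.ν0 = n * k - 𝔓.ν1 := by omega
    have key : ∀ x ∈ G.gr 𝔓.P 𝔓.P' 𝔓.ν0, x ≫ tp 𝔓.t' n = 0 := by
      intro x hx
      exact 𝔓.swap.bot_tp (by simp only [Pair.swap]; omega)
        (G.cast_mem hx (by simp only [Pair.swap]; ring))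
    constructor
    · intro hε
      have hk := 𝔓.pos_of_eps hε
      obtain ⟨f, hf, hf0⟩ := 𝔓.tN.1
      refine ⟨f, hf, ?_⟩
      intro hmem
      have key2 : ∀ v ∈ Submodule.span K (Prods G 𝔓.P 𝔓.P' 𝔓.P' 𝔓.ν0 (n * k)), v = 0 := by
        intro v hv
        induction hv using Submodule.span_induction with
        | mem v hv =>
          obtain ⟨x, hx, g, hg, rfl⟩ := hv
          obtain ⟨c, hc⟩ := 𝔓.hP'.top_eq hk hg
          rw [hc, Linear.comp_smul, key x hx, smul_zero]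
        | zero => rfl
        | add a b _ _ ha hb => rw [ha, hb, add_zero]
        | smul c a _ ha => rw [ha, smul_zero]
      exact hf0 (key2 _ hmem)
    · intro hε
      exact ⟨tp 𝔓.t' n, tp_mem G 𝔓.hP'.deg n, 𝔓.hP'.tp_ne_zero le_rfl, key⟩

end transitions

end Pool.Agent.PT
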