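import Pool.Agent.PT.Pair

/-!
# The effect of a twist and of an inverse twist on the extreme degrees
-/

open CategoryTheory

namespace Pool.Agent.PT

universe v u w

variable {K : Type w} [Field K] {D : Type u} [Category.{v} D] [Preadditive D] [Linear K D]

namespace Tw

variable {G : Grading K D} {ε k : ℤ} {P : D} {t : P ⟶ P} {F F' : D} (T : Tw G ε k P t F F')
variable {n : ℕ}

theorem ζ_zero : T.ζ n (0 : P ⟶ F) = 0 := by
  simp [ζ]

include T in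
theorem bot_fwd (hP : PObj G n k P t) {a : ℤ} (hb : G.IsBot P F a) :
    G.IsBot P F' (a + (n * k + k - 2 * ε)) := by
  constructor
  · obtain ⟨f, hf, hf0⟩ := hb.1
    obtain ⟨g, hg, hg1⟩ := T.exists_g hP hf
    refine ⟨g, G.cast_mem hg (by ring), ?_⟩
    rintro rfl
    apply T.ζ_ne_zero hP hf0
    rw [← hg1]
    simp [δ]
  · intro j hj g hg
    obtain ⟨m, hm, hm1⟩ := T.exists_m hP hg
    have hm0 : m = 0 := hb.2 _ (by have : ((n : ℤ) + 1) * k = n * k + k := by ring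
                                   omega) m hm
    apply T.δ_inj hP hg
    rw [hm1, hm0, T.ζ_zero]

include T in
theorem top_fwd (hP : PObj G n k P t) {a : ℤ} (hb : G.IsTop P F a) :
    G.IsTop P F' (a + (n * k + k - 2 * ε)) := by
  constructor
  · obtain ⟨f, hf, hf0⟩ := hb.1
    obtain ⟨g, hg, hg1⟩ := T.exists_g hP hf
    refine ⟨g, G.cast_mem hg (by ring), ?_⟩
    rintro rfl
    apply T.ζ_ne_zero hP hf0
    rw [← hg1]
    simp [δ]
  · intro j hj g hg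
    obtain ⟨m, hm, hm1⟩ := T.exists_m hP hg
    have hm0 : m = 0 := hb.2 _ (by have : ((n : ℤ) + 1) * k = n * k + k := by ring
                                   omega) m hm
    apply T.δ_inj hP hg
    rw [hm1, hm0, T.ζ_zero]

include T in
theorem bot_bwd (hP : PObj G n k P t) {a : ℤ} (hb : G.IsBot P F' a) :
    G.IsBot P F (a - (n * k + k - 2 * ε)) := by
  have e1 : ((n : ℤ) + 1) * k = n * k + k := by ring
  constructor
  · obtain ⟨g, hg, hg0⟩ := hb.1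
    obtain ⟨m, hm, hm1⟩ := T.exists_m hP hg
    refine ⟨m, G.cast_mem hm (by rw [e1]; ring), ?_⟩
    rintro rfl
    exact hg0 (T.δ_inj hP hg (by rw [hm1, T.ζ_zero]))
  · intro j hj m hm
    obtain ⟨g, hg, hg1⟩ := T.exists_g hP hm
    have hg0 : g = 0 := hb.2 _ (by omega) g hg
    by_contra hm0
    apply T.ζ_ne_zero hP hm0
    rw [← hg1, hg0]
    simp [δ]

include T in
theorem top_bwd (hP : PObj G n k P t) {a : ℤ} (hb : G.IsTop P F' a) :
    G.IsTop P F (a - (n * k + k - 2 * ε)) := by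
  have e1 : ((n : ℤ) + 1) * k = n * k + k := by ring
  constructor
  · obtain ⟨g, hg, hg0⟩ := hb.1
    obtain ⟨m, hm, hm1⟩ := T.exists_m hP hg
    refine ⟨m, G.cast_mem hm (by rw [e1]; ring), ?_⟩
    rintro rfl
    exact hg0 (T.δ_inj hP hg (by rw [hm1, T.ζ_zero]))
  · intro j hj m hm
    obtain ⟨g, hg, hg1⟩ := T.exists_g hP hm
    have hg0 : g = 0 := hb.2 _ (by omega) g hg
    by_contra hm0
    apply T.ζ_ne_zero hP hm0
    rw [← hg1, hg0]
    simp [δ]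

/-- products lift to `Q` -/
theorem lift_span {X : D} {a b : ℤ} {v : X ⟶ F}
    (hv : v ∈ Submodule.span K (Prods G X P F a b)) :
    ∃ w ∈ G.gr X T.Q (a + b), w ≫ T.c ≫ T.e = v := by
  induction hv using Submodule.span_induction with
  | mem v hv =>
    obtain ⟨y, hy, f, hf, rfl⟩ := hv
    exact ⟨y ≫ T.U f, G.comp_mem hy (T.U_mem hf), by rw [Category.assoc, T.U_c_e]⟩
  | zero => exact ⟨0, Submodule.zero_mem _, by simp⟩
  | add x y _ _ hx hy =>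
    obtain ⟨w, hw, hw1⟩ := hx
    obtain ⟨w', hw', hw1'⟩ := hy
    exact ⟨w + w', Submodule.add_mem _ hw hw', by rw [Preadditive.add_comp, hw1, hw1']⟩
  | smul c x _ hx =>
    obtain ⟨w, hw, hw1⟩ := hx
    exact ⟨c • w, Submodule.smul_mem _ _ hw, by rw [Linear.smul_comp, hw1]⟩

/-- products are killed by `η` -/
theorem span_comp_η {X : D} {a b : ℤ} {v : X ⟶ F}
    (hv : v ∈ Submodule.span K (Prods G X P F a b)) : v ≫ T.η = 0 := by
  obtain ⟨w, _, hw⟩ := T.lift_span hv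
  rw [← hw, Category.assoc, Category.assoc, T.ex_e_η.1, Limits.comp_zero, Limits.comp_zero]

/-- the bottom degree of `Hom(X,Q)` evaluates into the span of products -/
theorem mem_span_bot {X : D} {μ0 μ1 l0 l1 : ℤ} (hb : G.IsBot P F μ0) (ht : G.IsTop P F μ1)
    (hlb : G.IsBot X P l0) (hlt : G.IsTop X P l1) {w : X ⟶ T.Q}
    (hw : w ∈ G.gr X T.Q (μ0 + l0)) :
    w ≫ T.c ≫ T.e ∈ Submodule.span K (Prods G X P F l0 μ0) := by
  rw [T.eq_sum w, Preadditive.sum_comp]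
  apply Submodule.sum_mem
  intro i _
  rw [Category.assoc, T.ce]
  by_cases h0 : w ≫ T.pr i = 0
  · rw [h0, Limits.zero_comp]; exact Submodule.zero_mem _
  · have h3 := hlb.le G (G.comp_mem hw (T.pr_mem i)) h0
    have h4 := T.d_range hb ht i
    exact Submodule.subset_span ⟨_, G.comp_mem' hw (T.pr_mem i) (by omega), _,
      G.cast_mem (T.b_mem i) (by omega), rfl⟩

end Tw

variable {G : Grading K D} {ε k : ℤ} {n : ℕ} {𝔓 : Pair G ε k n} {F F' : D} {a1 z1 a2 z2 : ℤ}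

/-! ### forward step -/

section fwd

variable (T : Tw G ε k 𝔓.P 𝔓.t F F')
include T

theorem fwd_lift (R : ReadyPos 𝔓 F a1 z1 a2 z2) {f : 𝔓.P ⟶ F} {y : 𝔓.P' ⟶ 𝔓.P}
    (hf : f ∈ G.gr 𝔓.P F z1) (hy : y ∈ G.gr 𝔓.P' 𝔓.P (n * k - 𝔓.ν0)) (hf0 : 𝔓.t ≫ f = 0)
    (hy0 : y ≫ 𝔓.t = 0) :
    ∃ g ∈ G.gr 𝔓.P' F' (z1 + (n * k + k - 2 * ε) - 𝔓.ν0), T.δ g = y ≫ T.U' f := by
  obtain ⟨z, hz, hz1⟩ := T.exists_lift hf hy hf0 hy0
  have key : ∃ w ∈ G.gr 𝔓.P' T.Q (z1 + (n * k - 𝔓.ν0) + (k - ε)), w ≫ T.c ≫ T.e = z ≫ T.e := by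
    rcases R.top with h | ⟨h1, h2, h3⟩
    · refine ⟨0, Submodule.zero_mem _, ?_⟩
      rw [Limits.zero_comp]
      exact (R.st.t2.2 _ (by omega) _ (G.comp_mem hz T.e_mem)).symm
    · have h4 : z ≫ T.e ∈ G.gr 𝔓.P' F z2 := G.comp_mem' hz T.e_mem (by omega)
      obtain ⟨w, hw, hw1⟩ := T.lift_span (h3 _ h4)
      exact ⟨w, G.cast_mem hw (by omega), hw1⟩
  obtain ⟨w, hw, hw1⟩ := key
  have h1 : z - w ≫ T.c ∈ G.gr 𝔓.P' T.Cn (z1 + (n * k - 𝔓.ν0) + (k - ε)) :=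
    Submodule.sub_mem _ hz (G.comp_mem' hw T.c_mem (by ring))
  have h2 : (z - w ≫ T.c) ≫ T.e = 0 := by
    rw [Preadditive.sub_comp, Category.assoc, hw1, sub_self]
  obtain ⟨g, hg, hg1⟩ := T.ex_del_e.2 _ _ _ h1 h2
  refine ⟨g, G.cast_mem hg (by ring), ?_⟩
  rw [Tw.δ, ← Category.assoc, hg1, Preadditive.sub_comp, hz1, Category.assoc, T.ex_c_dd.1,
    Limits.comp_zero, sub_zero]

theorem fwd_top (R : ReadyPos 𝔓 F a1 z1 a2 z2) :
    G.IsTop 𝔓.P' F' (z1 + (n * k + k - 2 * ε) - 𝔓.ν0) := by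
  constructor
  · obtain ⟨f, hf, hf0, hf1⟩ := exists_top_kill 𝔓.hP 𝔓.hk R.st.t1
    obtain ⟨y, hy, hy0, hy1⟩ := exists_top_kill' 𝔓.hP 𝔓.hk 𝔓.tN'
    obtain ⟨g, hg, hg1⟩ := fwd_lift T R hf hy hf1 hy1
    refine ⟨g, hg, ?_⟩
    rintro rfl
    apply T.comp_U'_ne_zero hy0 hf0
    rw [← hg1]
    simp [Tw.δ]
  · intro j hj w hw
    have h1 : w ≫ T.del = 0 :=
      T.gr_C_zero 𝔓.hk 𝔓.hκ R.st.b1 R.st.t1 𝔓.bN' 𝔓.tN' (by right; omega)
        (G.comp_mem hw T.del_mem)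
    obtain ⟨v, hv, hv1⟩ := T.ex_η_del.2 _ j w hw h1
    have hv' : v ∈ G.gr 𝔓.P' F j := G.cast_mem hv (by ring)
    rcases R.top with h | ⟨h1, h2, h3⟩
    · have hv0 : v = 0 := by
        apply R.st.t2.2 j _ v hv'
        rcases 𝔓.hε with hε | hε <;> omega
      rw [← hv1, hv0, Limits.zero_comp]
    · have hε : ε = 1 := by
        have := 𝔓.hw
        have := 𝔓.hk
        rcases 𝔓.hε with h | h <;> omega
      have hj2 : z2 ≤ j := by
        have := 𝔓.hw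
        have := 𝔓.hκ
        omega
      rcases hj2.lt_or_eq with h | h
      · rw [← hv1, R.st.t2.2 j h v hv', Limits.zero_comp]
      · subst h
        rw [← hv1]
        exact T.span_comp_η (h3 v hv')

/-- the bottom degree after a twist -/
theorem fwd_bot (R : ReadyPos 𝔓 F a1 z1 a2 z2) :
    ∃ a2', G.IsBot 𝔓.P' F' a2' ∧ a2' - (a1 + (n * k + k - 2 * ε)) ≤ -𝔓.ν1 - (k - ε) ∧
      (𝔓.ν1 - 𝔓.ν0 + (k - ε) = 0 → a2' - (a1 + (n * k + k - 2 * ε)) = -𝔓.ν0 →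
        KillAll G 𝔓.P 𝔓.P' F' 𝔓.ν0 a2') := by
  have hCz : ∀ j, j < a1 + (n * k - 𝔓.ν1) → ∀ z ∈ G.gr 𝔓.P' T.Cn j, z = 0 := by
    intro j hj z hz
    exact T.gr_C_zero 𝔓.hk 𝔓.hκ R.st.b1 R.st.t1 𝔓.bN' 𝔓.tN' (by left; omega) hz
  have hWz : ∀ j, j < a2 → j + ε < a1 + (n * k - 𝔓.ν1) → ∀ w ∈ G.gr 𝔓.P' F' j, w = 0 := by
    intro j hj hj' w hw
    obtain ⟨v, hv, hv1⟩ := T.ex_η_del.2 _ j w hw (hCz _ hj' _ (G.comp_mem hw T.del_mem))
    have hv0 : v = 0 := R.st.b2.2 j hj v (G.cast_mem hv (by ring))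
    rw [← hv1, hv0, Limits.zero_comp]
  -- the case where the bottom of the cone survives
  have caseC : ∀ z ∈ G.gr 𝔓.P' T.Cn (a1 + (n * k - 𝔓.ν1)), z ≠ 0 → z ≫ T.e = 0 → z ≫ T.dd = 0 →
      a1 + (n * k - 𝔓.ν1) ≤ a2 → (ε = -1 → a1 + (n * k - 𝔓.ν1) < a2) →
      ∃ a2', G.IsBot 𝔓.P' F' a2' ∧ a2' - (a1 + (n * k + k - 2 * ε)) ≤ -𝔓.ν1 - (k - ε) ∧
      (𝔓.ν1 - 𝔓.ν0 + (k - ε) = 0 → a2' - (a1 + (n * k + k - 2 * ε)) = -𝔓.ν0 →
        KillAll G 𝔓.P 𝔓.P' F' 𝔓.ν0 a2') := by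
    intro z hz hz0 hze hzd hle hlt
    obtain ⟨g, hg, hg1⟩ := T.ex_del_e.2 _ _ z hz hze
    have hg0 : g ≠ 0 := by
      rintro rfl
      exact hz0 (by rw [← hg1, Limits.zero_comp])
    refine ⟨a1 + (n * k - 𝔓.ν1) - ε, ⟨⟨g, hg, hg0⟩, ?_⟩, by omega, ?_⟩
    · intro j hj w hw
      apply hWz j _ (by omega) w hw
      rcases 𝔓.hε with hε | hε
      · omega
      · have := hlt hε
        omega
    · intro _ _
      refine ⟨g, hg, hg0, ?_⟩
      intro x hx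
      apply T.δ_inj 𝔓.hP (G.comp_mem hx hg)
      rw [T.comp_δ, Tw.δ, ← Category.assoc g, hg1, hzd, Limits.comp_zero]
  rcases lt_trichotomy (a2 - a1) (n * k - 𝔓.ν1) with hlt | heq | hgt
  · -- bottom of `F` survives
    obtain ⟨v, hv, hv0⟩ := R.st.b2.1
    have hvη : v ≫ T.η ≠ 0 := by
      intro h0
      obtain ⟨z, hz, hz1⟩ := T.ex_e_η.2 _ _ v hv h0
      have : z = 0 := hCz _ (by omega) z hz
      exact hv0 (by rw [← hz1, this, Limits.zero_comp])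
    refine ⟨a2, ⟨⟨v ≫ T.η, G.comp_mem' hv T.η_mem (by ring), hvη⟩, ?_⟩, ?_, ?_⟩
    · intro j hj w hw
      apply hWz j hj _ w hw
      rcases 𝔓.hε with hε | hε <;> omega
    · rcases 𝔓.hε with hε | hε <;> omega
    · intro _ _
      refine ⟨v ≫ T.η, G.comp_mem' hv T.η_mem (by ring), hvη, ?_⟩
      intro x hx
      rw [← Category.assoc, T.comp_η]
  · -- equality
    have hcond := R.bot heq
    rcases 𝔓.hε with hε | hε
    · obtain ⟨y, hy, f, hf, hy0, hf0, hyf⟩ := hcond.1 hε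
      have hk := 𝔓.pos_of_eps hε
      refine caseC (y ≫ T.U f ≫ T.c) (G.comp_mem' hy (G.comp_mem (T.U_mem hf) T.c_mem) (by ring))
        (T.comp_U_c_ne_zero hk R.st.b1 R.st.t1 𝔓.bN' 𝔓.tN' hf hy hf0 hy0) ?_ ?_ (by omega) (by omega)
      · rw [Category.assoc, Category.assoc, T.U_c_e, hyf]
      · rw [Category.assoc, Category.assoc, T.ex_c_dd.1, Limits.comp_zero, Limits.comp_zero]
    · obtain ⟨v, hv, hvs⟩ := hcond.2 hε
      have hvη : v ≫ T.η ≠ 0 := by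
        intro h0
        obtain ⟨z, hz, hz1⟩ := T.ex_e_η.2 _ _ v hv h0
        obtain ⟨w, hw, hw1⟩ := T.bot_from_Q (by have := 𝔓.hk; omega) R.st.b1 R.st.t1 𝔓.bN' 𝔓.tN'
          (G.cast_mem hz (by omega))
        apply hvs
        rw [← hz1, ← hw1, Category.assoc]
        exact T.mem_span_bot R.st.b1 R.st.t1 𝔓.bN' 𝔓.tN' hw
      refine ⟨a2, ⟨⟨v ≫ T.η, G.comp_mem' hv T.η_mem (by ring), hvη⟩, ?_⟩, by omega, ?_⟩
      · intro j hj w hw
        exact hWz j hj (by omega) w hw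
      · intro h0
        have := 𝔓.hw
        have := 𝔓.hk
        omega
  · -- bottom of the cone survives
    obtain ⟨f, hf, y, hy, hfy⟩ := T.exists_bot 𝔓.hP 𝔓.hk R.st.b1 R.st.t1 𝔓.bN' 𝔓.tN'
    have hz : y ≫ T.U f ≫ T.c ∈ G.gr 𝔓.P' T.Cn (a1 + (n * k - 𝔓.ν1)) :=
      G.comp_mem' hy (G.comp_mem (T.U_mem hf) T.c_mem) (by ring)
    refine caseC (y ≫ T.U f ≫ T.c) hz hfy ?_ ?_ (by omega) (by omega)
    · exact R.st.b2.2 _ (by omega) _ (G.comp_mem hz T.e_mem)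
    · rw [Category.assoc, Category.assoc, T.ex_c_dd.1, Limits.comp_zero, Limits.comp_zero]

/-- **The forward step.** -/
theorem step_pos (R : ReadyPos 𝔓 F a1 z1 a2 z2) :
    ∃ a2' z2', AfterPos 𝔓 F' (a1 + (n * k + k - 2 * ε)) (z1 + (n * k + k - 2 * ε)) a2' z2' := by
  obtain ⟨a2', hb, hle, hkill⟩ := fwd_bot T R
  refine ⟨a2', z1 + (n * k + k - 2 * ε) - 𝔓.ν0,
    ⟨⟨T.bot_fwd 𝔓.hP R.st.b1, T.top_fwd 𝔓.hP R.st.t1, hb, fwd_top T R⟩, by ring, hle, ?_, hkill, ?_⟩⟩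
  · -- surjectivity
    intro hwk g1 hg1
    have hε : ε = 1 := by
      have := 𝔓.hw
      have := 𝔓.hk
      rcases 𝔓.hε with h | h <;> omega
    have hk := 𝔓.pos_of_eps hε
    obtain ⟨m, hm, hm1⟩ := T.exists_m 𝔓.hP hg1
    have hm' : m ∈ G.gr 𝔓.P F z1 := G.cast_mem hm (by ring)
    have htm : 𝔓.t ≫ m = 0 := R.st.t1.2 _ (by omega) _ (G.comp_mem 𝔓.hP.deg hm')
    rw [T.ζ_eq n htm] at hm1
    -- dual elements
    obtain ⟨y, hy, hy0⟩ := 𝔓.tN'.1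
    obtain ⟨x, hx, hx0⟩ := 𝔓.cy1 _ y hy hy0
    obtain ⟨c, hc⟩ := 𝔓.hP.top_eq hk (G.comp_mem' hx hy (by ring))
    have hc0 : c ≠ 0 := by
      rintro rfl
      rw [zero_smul] at hc
      exact hx0 hc
    have hyt : y ≫ 𝔓.t = 0 := 𝔓.tN'.2 _ (by omega) _ (G.comp_mem hy 𝔓.hP.deg)
    obtain ⟨g, hg, hg2⟩ := fwd_lift T R hm' hy htm hyt
    have e1 : g1 = c⁻¹ • (x ≫ g) := by
      have h0 : T.δ (g1 - c⁻¹ • (x ≫ g)) = 0 := by
        rw [T.δ_sub, T.δ_smul, T.comp_δ, hg2, ← Category.assoc x, hc, Linear.smul_comp, smul_smul,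
          inv_mul_cancel₀ hc0, one_smul, hm1, sub_self]
      have hmem : g1 - c⁻¹ • (x ≫ g) ∈ G.gr 𝔓.P F' (z1 + (n * k + k - 2 * ε)) :=
        Submodule.sub_mem _ hg1 (Submodule.smul_mem _ _ (G.comp_mem' hx hg (by ring)))
      exact sub_eq_zero.1 (T.δ_inj 𝔓.hP hmem h0)
    rw [e1]
    exact Submodule.smul_mem _ _ (Submodule.subset_span
      ⟨x, G.cast_mem hx (by ring), g, hg, rfl⟩)
  · -- the condition at the top if `w = nk`
    intro hpq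
    constructor
    · intro hε
      have hk := 𝔓.pos_of_eps hε
      obtain ⟨f, hf, hf0, hf1⟩ := exists_top_kill 𝔓.hP 𝔓.hk R.st.t1
      obtain ⟨y, hy, hy0, hy1⟩ := exists_top_kill' 𝔓.hP 𝔓.hk 𝔓.tN'
      obtain ⟨g, hg, hg1⟩ := fwd_lift T R hf hy hf1 hy1
      refine ⟨g, hg, ?_⟩
      intro hmem
      have key : ∀ v ∈ Submodule.span K (Prods G 𝔓.P' 𝔓.P F' (n * k - 𝔓.ν1)
          (z1 + (n * k + k - 2 * ε))), T.δ v = 0 := by
        intro v hv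
        induction hv using Submodule.span_induction with
        | mem v hv =>
          obtain ⟨y', hy', f', hf', rfl⟩ := hv
          obtain ⟨m, hm, hm1⟩ := T.exists_m 𝔓.hP hf'
          have hm' : m ∈ G.gr 𝔓.P F z1 := G.cast_mem hm (by ring)
          have htm : 𝔓.t ≫ m = 0 := R.st.t1.2 _ (by omega) _ (G.comp_mem 𝔓.hP.deg hm')
          rw [T.comp_δ, hm1, T.ζ_eq n htm, ← Category.assoc, 𝔓.bot_tp hpq hy', Limits.zero_comp]
        | zero => simp [Tw.δ]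
        | add a b _ _ ha hb => rw [T.δ_add, ha, hb, add_zero]
        | smul c a _ ha => rw [T.δ_smul, ha, smul_zero]
      have h0 := key _ hmem
      rw [hg1] at h0
      exact T.comp_U'_ne_zero hy0 hf0 h0
    · intro hε
      obtain ⟨f, hf, hf0, hf1⟩ := exists_top_kill 𝔓.hP 𝔓.hk R.st.t1
      obtain ⟨g, hg, hg1⟩ := T.exists_g 𝔓.hP hf
      have hg' : g ∈ G.gr 𝔓.P F' (z1 + (n * k + k - 2 * ε)) := G.cast_mem hg (by ring)
      refine ⟨g, hg', ?_, ?_⟩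
      · rintro rfl
        apply T.ζ_ne_zero 𝔓.hP hf0
        rw [← hg1]
        simp [Tw.δ]
      · intro y hy
        have hδ : T.δ (y ≫ g) = 0 := by
          rw [T.comp_δ, hg1, T.ζ_eq n hf1, ← Category.assoc, 𝔓.bot_tp hpq hy, Limits.zero_comp]
        have hmem : y ≫ g ∈ G.gr 𝔓.P' F' (z1 + (n * k + k - 2 * ε) - 𝔓.ν0) :=
          G.comp_mem' hy hg' (by omega)
        have hdel : (y ≫ g) ≫ T.del = 0 := by
          apply T.top_inj (by have := 𝔓.hk; omega) R.st.b1 R.st.t1 𝔓.bN' 𝔓.tN'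
            (G.comp_mem' hmem T.del_mem (by ring))
          simpa [Tw.δ] using hδ
        obtain ⟨v, hv, hv1⟩ := T.ex_η_del.2 _ _ _ hmem hdel
        have hv0 : v = 0 := by
          apply R.st.t2.2 _ _ v hv
          rcases R.top with h | ⟨h1, h2, h3⟩
          · omega
          · have := 𝔓.hw
            have := 𝔓.hk
            omega
        rw [← hv1, hv0, Limits.zero_comp]

end fwd

end Pool.Agent.PT
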