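import Pool.Agent.PT.Step

/-!
# The backward step
-/

open CategoryTheory

namespace Pool.Agent.PT

universe v u w

variable {K : Type w} [Field K] {D : Type u} [Category.{v} D] [Preadditive D] [Linear K D]

variable {G : Grading K D} {ε k : ℤ} {n : ℕ}

/-- uniform version of `comp_div` -/
theorem Pair.comp_div' (𝔓 : Pair G ε k n) {j : ℤ} {x : 𝔓.P ⟶ 𝔓.P'}
    (hx : x ∈ G.gr 𝔓.P 𝔓.P' j) {v : 𝔓.P' ⟶ 𝔓.P} (hv : v ∈ G.gr 𝔓.P' 𝔓.P (-j)) :
    ∃ r ∈ G.gr 𝔓.P 𝔓.P (-k), x ≫ v = 𝔓.t ≫ r := by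
  rcases 𝔓.hk.lt_or_eq with hk | hk
  · exact ⟨0, Submodule.zero_mem _, by rw [𝔓.comp_zero hk hx hv, Limits.comp_zero]⟩
  · obtain ⟨r, hr, h⟩ := 𝔓.comp_div hk.symm hx hv
    exact ⟨r, G.cast_mem hr (by omega), h⟩

/-- uniform version of `exists_not_mul` -/
theorem exists_not_mul_bot {P : D} {t : P ⟶ P} (hP : PObj G n k P t) (hk : 0 ≤ k) {F : D} {a : ℤ}
    (ha : G.IsBot P F a) : ∃ f ∈ G.gr P F a, ∀ m ∈ G.gr P F (a - k), f ≠ t ≫ m := by
  rcases hk.lt_or_eq with hk | hk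
  · obtain ⟨f, hf, hf0⟩ := ha.1
    refine ⟨f, hf, ?_⟩
    intro m hm h
    have : m = 0 := ha.2 _ (by omega) m hm
    rw [this, Limits.comp_zero] at h
    exact hf0 h
  · subst hk
    obtain ⟨f, hf, hf1⟩ := exists_not_mul hP ha.1
    exact ⟨f, hf, fun m hm => hf1 m (G.cast_mem hm (by ring))⟩

variable {𝔓 : Pair G ε k n} {F F' : D} {a1 z1 a2 z2 : ℤ}

section bwd

variable (T : Tw G ε k 𝔓.P 𝔓.t F F')
include T

theorem bwd_bot (R : ReadyNeg 𝔓 F' a1 z1 a2 z2) :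
    G.IsBot 𝔓.P' F (a1 - (n * k + k - 2 * ε) + (n * k - 𝔓.ν1)) ∧
    (𝔓.ν1 - 𝔓.ν0 + (k - ε) = 0 →
      InjP G 𝔓.P' 𝔓.P F (n * k - 𝔓.ν1) (a1 - (n * k + k - 2 * ε))) ∧
    (-𝔓.ν0 = n * k - 𝔓.ν1 → CondA G ε 𝔓.P 𝔓.P' F 𝔓.ν0
      (a1 - (n * k + k - 2 * ε) + (n * k - 𝔓.ν1)) (a1 - (n * k + k - 2 * ε))) := by
  have hb := T.bot_bwd 𝔓.hP R.st.b1
  have ht := T.top_bwd 𝔓.hP R.st.t1
  set σ : ℤ := n * k + k - 2 * ε with hσ
  set β : ℤ := a1 - σ + (n * k - 𝔓.ν1) with hβ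
  have hCz : ∀ j, j < β → ∀ z ∈ G.gr 𝔓.P' T.Cn j, z = 0 := by
    intro j hj z hz
    exact T.gr_C_zero 𝔓.hk 𝔓.hκ hb ht 𝔓.bN' 𝔓.tN' (by left; omega) hz
  -- `δ` is injective in degree `a2` in the borderline case
  have hinj : InjP G 𝔓.P 𝔓.P' F' 𝔓.ν0 a2 → ∀ g ∈ G.gr 𝔓.P' F' a2, T.δ g = 0 → g = 0 := by
    intro hI g hg h0
    by_contra hg0
    obtain ⟨x, hx, hx0⟩ := hI g hg hg0
    apply hx0
    apply T.δ_inj 𝔓.hP (G.comp_mem hx hg)
    rw [T.comp_δ, h0, Limits.comp_zero]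
  -- key A
  have keyA : ∀ z ∈ G.gr 𝔓.P' T.Cn β, z ≫ T.dd = 0 → z ≫ T.e = 0 → z = 0 := by
    intro z hz hzd hze
    obtain ⟨g, hg, hg1⟩ := T.ex_del_e.2 _ _ z hz hze
    have hg0 : g = 0 := by
      rcases R.bot with h | ⟨h1, h2, h3⟩
      · exact R.st.b2.2 _ (by omega) g hg
      · have hε : ε = 1 := by
          have := 𝔓.hw
          have := 𝔓.hk
          rcases 𝔓.hε with h | h <;> omega
        apply hinj h3 g (G.cast_mem hg (by omega))
        rw [Tw.δ, ← Category.assoc, hg1, hzd]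
    rw [← hg1, hg0, Limits.zero_comp]
  -- key B
  have keyB : ∀ j < β, ∀ v ∈ G.gr 𝔓.P' F j, v = 0 := by
    intro j hj v hv
    have hvη : v ≫ T.η = 0 := by
      have hmem : v ≫ T.η ∈ G.gr 𝔓.P' F' j := G.comp_mem' hv T.η_mem (by ring)
      rcases R.bot with h | ⟨h1, h2, h3⟩
      · apply R.st.b2.2 _ _ _ hmem
        rcases 𝔓.hε with hε | hε <;> omega
      · have hε : ε = 1 := by
          have := 𝔓.hw
          have := 𝔓.hk
          rcases 𝔓.hε with h | h <;> omega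
        rcases lt_or_eq_of_le (show j ≤ a2 by omega) with h | h
        · exact R.st.b2.2 _ h _ hmem
        · subst h
          apply hinj h3 _ hmem
          rw [Tw.δ, Category.assoc, ← Category.assoc T.η, T.ex_η_del.1, Limits.zero_comp,
            Limits.comp_zero]
    obtain ⟨z, hz, hz1⟩ := T.ex_e_η.2 _ _ v hv hvη
    rw [← hz1, hCz _ (by omega) z hz, Limits.zero_comp]
  have hprod : ∀ f ∈ G.gr 𝔓.P F (a1 - σ), ∀ y ∈ G.gr 𝔓.P' 𝔓.P (n * k - 𝔓.ν1),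
      y ≫ T.U f ≫ T.c ≠ 0 → y ≫ f ≠ 0 := by
    intro f hf y hy hne h0
    apply hne
    apply keyA
    · exact G.comp_mem' hy (G.comp_mem (T.U_mem hf) T.c_mem) (by ring)
    · rw [Category.assoc, Category.assoc, T.ex_c_dd.1, Limits.comp_zero, Limits.comp_zero]
    · rw [Category.assoc, Category.assoc, T.U_c_e, h0]
  refine ⟨⟨?_, keyB⟩, ?_, ?_⟩
  · obtain ⟨f, hf, y, hy, hne⟩ := T.exists_bot 𝔓.hP 𝔓.hk hb ht 𝔓.bN' 𝔓.tN'
    exact ⟨y ≫ f, G.comp_mem' hy hf (by ring), hprod f hf y hy hne⟩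
  · intro hwk f hf hf0
    have hk : 0 < k := by
      have h1 := 𝔓.hw
      have h2 := 𝔓.hk
      have h3 := 𝔓.hκ
      rcases 𝔓.hε with h | h <;> omega
    obtain ⟨y, hy, hy0⟩ := 𝔓.bN'.1
    exact ⟨y, hy, hprod f hf y hy (T.comp_U_c_ne_zero hk hb ht 𝔓.bN' 𝔓.tN' hf hy hf0 hy0)⟩
  · intro hpq
    constructor
    · intro hε
      have hk := 𝔓.pos_of_eps hε
      obtain ⟨y, hy, hy0⟩ := 𝔓.bN'.1
      obtain ⟨f, hf, hf0⟩ := hb.1
      obtain ⟨x, hx, hx0⟩ := 𝔓.bN.1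
      refine ⟨x, hx, y ≫ f, G.comp_mem' hy hf (by ring), hx0,
        hprod f hf y hy (T.comp_U_c_ne_zero hk hb ht 𝔓.bN' 𝔓.tN' hf hy hf0 hy0), ?_⟩
      rw [← Category.assoc, 𝔓.comp_zero hk hx (G.cast_mem hy (by omega)), Limits.zero_comp]
    · intro hε
      obtain ⟨f, hf, hf1⟩ := exists_not_mul_bot 𝔓.hP 𝔓.hk hb
      refine ⟨f, hf, ?_⟩
      intro hmem
      have key : ∀ v ∈ Submodule.span K (Prods G 𝔓.P 𝔓.P' F 𝔓.ν0 β),
          ∃ m ∈ G.gr 𝔓.P F (a1 - σ - k), v = 𝔓.t ≫ m := by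
        intro v hv
        induction hv using Submodule.span_induction with
        | mem v hv =>
          obtain ⟨x, hx, g, hg, rfl⟩ := hv
          -- `g` is a combination of products
          have hgη : g ≫ T.η = 0 := by
            have hmem : g ≫ T.η ∈ G.gr 𝔓.P' F' β := G.comp_mem' hg T.η_mem (by ring)
            rcases R.bot with h | ⟨h1, h2, h3⟩
            · exact R.st.b2.2 _ (by omega) _ hmem
            · exfalso
              have := 𝔓.hw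
              have := 𝔓.hk
              omega
          obtain ⟨z, hz, hz1⟩ := T.ex_e_η.2 _ _ g hg hgη
          obtain ⟨w, hw, hw1⟩ := T.bot_from_Q (by have := 𝔓.hk; omega) hb ht 𝔓.bN' 𝔓.tN'
            (G.cast_mem hz (by omega))
          have hgs : g ∈ Submodule.span K (Prods G 𝔓.P' 𝔓.P F (n * k - 𝔓.ν1) (a1 - σ)) := by
            rw [← hz1, ← hw1, Category.assoc]
            exact T.mem_span_bot hb ht 𝔓.bN' 𝔓.tN' hw
          clear hz1 hw1 hz hw z w hgη hg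
          induction hgs using Submodule.span_induction with
          | mem g hg =>
            obtain ⟨y, hy, f', hf', rfl⟩ := hg
            obtain ⟨r, hr, hr1⟩ := 𝔓.comp_div' hx (G.cast_mem hy (by omega))
            refine ⟨r ≫ f', G.comp_mem' hr hf' (by ring), ?_⟩
            rw [← Category.assoc, hr1, Category.assoc]
          | zero => exact ⟨0, Submodule.zero_mem _, by simp⟩
          | add p q _ _ hp hq =>
            obtain ⟨m, hm, hm1⟩ := hp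
            obtain ⟨m', hm', hm1'⟩ := hq
            exact ⟨m + m', Submodule.add_mem _ hm hm', by
              rw [Preadditive.comp_add, hm1, hm1', Preadditive.comp_add]⟩
          | smul c p _ hp =>
            obtain ⟨m, hm, hm1⟩ := hp
            exact ⟨c • m, Submodule.smul_mem _ _ hm, by
              rw [Linear.comp_smul, hm1, Linear.comp_smul]⟩
        | zero => exact ⟨0, Submodule.zero_mem _, by simp⟩
        | add p q _ _ hp hq =>
          obtain ⟨m, hm, hm1⟩ := hp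
          obtain ⟨m', hm', hm1'⟩ := hq
          exact ⟨m + m', Submodule.add_mem _ hm hm', by rw [hm1, hm1', Preadditive.comp_add]⟩
        | smul c p _ hp =>
          obtain ⟨m, hm, hm1⟩ := hp
          exact ⟨c • m, Submodule.smul_mem _ _ hm, by rw [hm1, Linear.comp_smul]⟩
      obtain ⟨m, hm, hm1⟩ := key f hmem
      exact hf1 m hm hm1

theorem bwd_top (R : ReadyNeg 𝔓 F' a1 z1 a2 z2) :
    ∃ z2', G.IsTop 𝔓.P' F z2' ∧ n * k - 𝔓.ν0 + (k - ε) ≤ z2' - (z1 - (n * k + k - 2 * ε)) ∧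
    (𝔓.ν1 - 𝔓.ν0 + (k - ε) = 0 → z2' - (z1 - (n * k + k - 2 * ε)) = n * k - 𝔓.ν1 →
      NonSurjP G 𝔓.P' 𝔓.P F (n * k - 𝔓.ν1) (z1 - (n * k + k - 2 * ε)) z2') := by
  have hb := T.bot_bwd 𝔓.hP R.st.b1
  have ht := T.top_bwd 𝔓.hP R.st.t1
  have hσe : ((n : ℤ) + 1) * k = n * k + k := by ring
  set σ : ℤ := n * k + k - 2 * ε with hσ
  set τ : ℤ := z1 - σ + (n * k - 𝔓.ν0) + (k - ε) with hτ
  have hCz : ∀ j, τ < j → ∀ z ∈ G.gr 𝔓.P' T.Cn j, z = 0 := by
    intro j hj z hz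
    exact T.gr_C_zero 𝔓.hk 𝔓.hκ hb ht 𝔓.bN' 𝔓.tN' (by right; omega) hz
  -- vanishing above
  have hVz : ∀ j, τ < j → z2 < j → ∀ v ∈ G.gr 𝔓.P' F j, v = 0 := by
    intro j hj hj' v hv
    have hvη : v ≫ T.η = 0 := R.st.t2.2 _ hj' _ (G.comp_mem' hv T.η_mem (by ring))
    obtain ⟨z, hz, hz1⟩ := T.ex_e_η.2 _ _ v hv hvη
    rw [← hz1, hCz _ (by omega) z hz, Limits.zero_comp]
  -- the case where the top of the cone survives
  have caseC : ∀ z ∈ G.gr 𝔓.P' T.Cn τ,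
      (∀ w ∈ G.gr 𝔓.P' T.Q τ, (z - w ≫ T.c) ≫ T.e ≠ 0) → (∀ j, τ < j → z2 < j) →
      ∃ z2', G.IsTop 𝔓.P' F z2' ∧ n * k - 𝔓.ν0 + (k - ε) ≤ z2' - (z1 - σ) ∧
      (𝔓.ν1 - 𝔓.ν0 + (k - ε) = 0 → z2' - (z1 - σ) = n * k - 𝔓.ν1 →
        NonSurjP G 𝔓.P' 𝔓.P F (n * k - 𝔓.ν1) (z1 - σ) z2') := by
    intro z hz hne hj
    have hze : z ≫ T.e ∈ G.gr 𝔓.P' F τ := G.comp_mem' hz T.e_mem (by ring)
    refine ⟨τ, ⟨⟨z ≫ T.e, hze, ?_⟩, fun j hj' v hv => hVz j hj' (hj j hj') v hv⟩, by omega, ?_⟩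
    · have := hne 0 (Submodule.zero_mem _)
      simpa using this
    · intro hwk _
      refine ⟨z ≫ T.e, hze, ?_⟩
      intro hmem
      obtain ⟨w, hw, hw1⟩ := T.lift_span hmem
      apply hne w (G.cast_mem hw (by omega))
      rw [Preadditive.sub_comp, Category.assoc, hw1, sub_self]
  rcases lt_trichotomy (z2 - z1) (-𝔓.ν0) with hlt | heq | hgt
  · -- top of the cone survives
    obtain ⟨f, hf, hf0, hf1⟩ := exists_top_kill 𝔓.hP 𝔓.hk ht
    obtain ⟨y, hy, hy0, hy1⟩ := exists_top_kill' 𝔓.hP 𝔓.hk 𝔓.tN'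
    obtain ⟨z, hz, hz1⟩ := T.exists_lift hf hy hf1 hy1
    apply caseC z hz
    · intro w hw h0
      have hmem : z - w ≫ T.c ∈ G.gr 𝔓.P' T.Cn τ :=
        Submodule.sub_mem _ hz (G.comp_mem' hw T.c_mem (by ring))
      obtain ⟨g, hg, hg1⟩ := T.ex_del_e.2 _ _ _ hmem h0
      have hg0 : g = 0 := R.st.t2.2 _ (by omega) g hg
      rw [hg0, Limits.zero_comp] at hg1
      have h2 : z ≫ T.dd = 0 := by
        rw [sub_eq_zero.1 hg1.symm, Category.assoc, T.ex_c_dd.1, Limits.comp_zero]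
      rw [hz1] at h2
      exact T.comp_U'_ne_zero hy0 hf0 h2
    · intro j hj
      rcases 𝔓.hε with hε | hε <;> omega
  · -- equality
    have hcond := R.top heq
    rcases 𝔓.hε with hε | hε
    · obtain ⟨g1, hg1, hg1s⟩ := hcond.1 hε
      have hk := 𝔓.pos_of_eps hε
      obtain ⟨m, hm, hm1⟩ := T.exists_m 𝔓.hP hg1
      have hm' : m ∈ G.gr 𝔓.P F (z1 - σ) := G.cast_mem hm (by omega)
      have htm : 𝔓.t ≫ m = 0 := ht.2 _ (by omega) _ (G.comp_mem 𝔓.hP.deg hm')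
      rw [T.ζ_eq n htm] at hm1
      obtain ⟨y, hy, hy0⟩ := 𝔓.tN'.1
      obtain ⟨x, hx, hx0⟩ := 𝔓.cy1 _ y hy hy0
      obtain ⟨c, hc⟩ := 𝔓.hP.top_eq hk (G.comp_mem' hx hy (by ring))
      have hc0 : c ≠ 0 := by
        rintro rfl
        rw [zero_smul] at hc
        exact hx0 hc
      have hyt : y ≫ 𝔓.t = 0 := 𝔓.tN'.2 _ (by omega) _ (G.comp_mem hy 𝔓.hP.deg)
      obtain ⟨z, hz, hz1⟩ := T.exists_lift hm' hy htm hyt
      apply caseC z hz
      · intro w hw h0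
        have hmem : z - w ≫ T.c ∈ G.gr 𝔓.P' T.Cn τ :=
          Submodule.sub_mem _ hz (G.comp_mem' hw T.c_mem (by ring))
        obtain ⟨g, hg, hg2⟩ := T.ex_del_e.2 _ _ _ hmem h0
        have hδg : T.δ g = y ≫ T.U' m := by
          rw [Tw.δ, ← Category.assoc, hg2, Preadditive.sub_comp, hz1, Category.assoc,
            T.ex_c_dd.1, Limits.comp_zero, sub_zero]
        apply hg1s
        have hgm : g ∈ G.gr 𝔓.P' F' z2 := G.cast_mem hg (by omega)
        have e1 : g1 = c⁻¹ • (x ≫ g) := by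
          have h0 : T.δ (g1 - c⁻¹ • (x ≫ g)) = 0 := by
            rw [T.δ_sub, T.δ_smul, T.comp_δ, hδg, ← Category.assoc x, hc, Linear.smul_comp,
              smul_smul, inv_mul_cancel₀ hc0, one_smul, hm1, sub_self]
          have hmem : g1 - c⁻¹ • (x ≫ g) ∈ G.gr 𝔓.P F' z1 :=
            Submodule.sub_mem _ hg1 (Submodule.smul_mem _ _ (G.comp_mem' hx hgm (by omega)))
          exact sub_eq_zero.1 (T.δ_inj 𝔓.hP hmem h0)
        rw [e1]
        exact Submodule.smul_mem _ _ (Submodule.subset_span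
          ⟨x, G.cast_mem hx (by ring), g, hgm, rfl⟩)
      · intro j hj
        omega
    · obtain ⟨g, hg, hg0, hgx⟩ := hcond.2 hε
      have hδ : T.δ g = 0 := by
        rw [T.eq_sum' (T.δ g)]
        apply Finset.sum_eq_zero
        intro i _
        have h2 : T.δ g ≫ T.pr' i = 0 := by
          by_contra h0
          have hmem := G.comp_mem (T.δ_mem hg) (T.pr'_mem i)
          have h3 := 𝔓.tN'.le G hmem h0
          have h4 := T.d_range hb ht i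
          obtain ⟨x, hx, hx0⟩ := 𝔓.cy1 _ _ hmem h0
          apply hx0
          rw [← Category.assoc, ← T.comp_δ, hgx x (G.cast_mem hx (by omega))]
          simp [Tw.δ]
        rw [h2, Limits.zero_comp]
      have hdel : g ≫ T.del = 0 := by
        apply T.top_inj (by have := 𝔓.hk; omega) hb ht 𝔓.bN' 𝔓.tN'
          (G.comp_mem' hg T.del_mem (by omega))
        simpa [Tw.δ] using hδ
      obtain ⟨v, hv, hv1⟩ := T.ex_η_del.2 _ _ g hg hdel
      refine ⟨z2, ⟨⟨v, G.cast_mem hv (by ring), ?_⟩, ?_⟩, by omega, ?_⟩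
      · rintro rfl
        exact hg0 (by rw [← hv1, Limits.zero_comp])
      · intro j hj v' hv'
        exact hVz j (by omega) hj v' hv'
      · intro hwk
        exfalso
        have := 𝔓.hw
        have := 𝔓.hk
        omega
  · -- top of `F'` survives
    obtain ⟨w, hw, hw0⟩ := R.st.t2.1
    have hdel : w ≫ T.del = 0 := hCz _ (by omega) _ (G.comp_mem hw T.del_mem)
    obtain ⟨v, hv, hv1⟩ := T.ex_η_del.2 _ _ w hw hdel
    refine ⟨z2, ⟨⟨v, G.cast_mem hv (by ring), ?_⟩, ?_⟩, ?_, ?_⟩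
    · rintro rfl
      exact hw0 (by rw [← hv1, Limits.zero_comp])
    · intro j hj v' hv'
      refine hVz j ?_ hj v' hv'
      rcases 𝔓.hε with hε | hε <;> omega
    · rcases 𝔓.hε with hε | hε <;> omega
    · intro _ _
      refine ⟨v, G.cast_mem hv (by ring), ?_⟩
      intro hmem
      apply hw0
      rw [← hv1]
      exact T.span_comp_η hmem

/-- **The backward step.** -/
theorem step_neg (R : ReadyNeg 𝔓 F' a1 z1 a2 z2) :
    ∃ a2' z2', AfterNeg 𝔓 F (a1 - (n * k + k - 2 * ε)) (z1 - (n * k + k - 2 * ε)) a2' z2' := by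
  obtain ⟨hb2, hinj, heq⟩ := bwd_bot T R
  obtain ⟨z2', ht2, hz, hns⟩ := bwd_top T R
  exact ⟨_, z2', ⟨⟨T.bot_bwd 𝔓.hP R.st.b1, T.top_bwd 𝔓.hP R.st.t1, hb2, ht2⟩, by ring, hz, hinj,
    hns, heq⟩⟩

end bwd

end Pool.Agent.PT
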