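import Pool.Agent.PT.Graded

/-!
# The cone description of a `ℙ`-twist in the graded category
-/

open CategoryTheory

namespace Pool.Agent.PT

universe v u w

variable {K : Type w} [Field K] {D : Type u} [Category.{v} D] [Preadditive D] [Linear K D]

/-- Homogeneous exactness (tested on all objects on the left) of `A → B → C` at `B`. -/
def Ex (G : Grading K D) {A B C : D} (f : A ⟶ B) (g : B ⟶ C) (a : ℤ) : Prop :=
  f ≫ g = 0 ∧ ∀ (X : D) (j : ℤ) (w : X ⟶ B), w ∈ G.gr X B j → w ≫ g = 0 →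
    ∃ v ∈ G.gr X A (j - a), v ≫ f = w

/-- Twist data at `F` with target `F'`: `Q = Hom^*(P,F) ⊗ P`, `Q' = Q[-k]`,
`Cn = cone (t ⊗ 1 - 1 ⊗ t : Q' → Q)` and `F' = cone (Cn → F)`. -/
structure Tw (G : Grading K D) (ε k : ℤ) (P : D) (t : P ⟶ P) (F F' : D) where
  ι : Type
  [fin : Fintype ι]
  [dec : DecidableEq ι]
  b : Module.Basis ι K (P ⟶ F)
  d : ι → ℤ
  b_mem : ∀ i, b i ∈ G.gr P F (d i)
  Q : D
  Q' : D
  Cn : D
  u : ι → (P ⟶ Q)
  pr : ι → (Q ⟶ P)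
  u_mem : ∀ i, u i ∈ G.gr P Q (d i)
  pr_mem : ∀ i, pr i ∈ G.gr Q P (-(d i))
  u_pr : ∀ i j, u i ≫ pr j = if i = j then 𝟙 P else 0
  sum_pr_u : ∑ i, pr i ≫ u i = 𝟙 Q
  u' : ι → (P ⟶ Q')
  pr' : ι → (Q' ⟶ P)
  u'_mem : ∀ i, u' i ∈ G.gr P Q' (d i + k)
  pr'_mem : ∀ i, pr' i ∈ G.gr Q' P (-(d i + k))
  u'_pr' : ∀ i j, u' i ≫ pr' j = if i = j then 𝟙 P else 0
  sum_pr'_u' : ∑ i, pr' i ≫ u' i = 𝟙 Q'
  h : Q' ⟶ Q
  c : Q ⟶ Cn
  dd : Cn ⟶ Q'
  h_mem : h ∈ G.gr Q' Q 0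
  c_mem : c ∈ G.gr Q Cn 0
  dd_mem : dd ∈ G.gr Cn Q' ε
  ex_h_c : Ex G h c 0
  ex_c_dd : Ex G c dd 0
  ex_dd_h : Ex G dd h ε
  e : Cn ⟶ F
  η : F ⟶ F'
  del : F' ⟶ Cn
  e_mem : e ∈ G.gr Cn F 0
  η_mem : η ∈ G.gr F F' 0
  del_mem : del ∈ G.gr F' Cn ε
  ex_e_η : Ex G e η 0
  ex_η_del : Ex G η del 0
  ex_del_e : Ex G del e ε
  h_eq : ∀ i, u' i ≫ h = b.constr K u (t ≫ b i) - t ≫ u i
  ce : ∀ i, u i ≫ c ≫ e = b i

attribute [instance] Tw.fin Tw.dec

namespace Tw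

variable {G : Grading K D} {ε k : ℤ} {P : D} {t : P ⟶ P} {F F' : D} (T : Tw G ε k P t F F')

/-- `m ↦ m ⊗ 1` -/
noncomputable def U : (P ⟶ F) →ₗ[K] (P ⟶ T.Q) := T.b.constr K T.u

/-- `m ↦ m ⊗ 1` -/
noncomputable def U' : (P ⟶ F) →ₗ[K] (P ⟶ T.Q') := T.b.constr K T.u'

@[simp] theorem U_b (i : T.ι) : T.U (T.b i) = T.u i := by simp [U]

@[simp] theorem U'_b (i : T.ι) : T.U' (T.b i) = T.u' i := by simp [U']

theorem U_apply (m : P ⟶ F) : T.U m = ∑ i, T.b.repr m i • T.u i := by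
  simp [U, Module.Basis.constr_apply_fintype]

theorem U'_apply (m : P ⟶ F) : T.U' m = ∑ i, T.b.repr m i • T.u' i := by
  simp [U', Module.Basis.constr_apply_fintype]

/-- the functional `φ ⊗ 1` -/
noncomputable def Φ (φ : (P ⟶ F) →ₗ[K] K) : T.Q ⟶ P := ∑ i, φ (T.b i) • T.pr i

noncomputable def Φ' (φ : (P ⟶ F) →ₗ[K] K) : T.Q' ⟶ P := ∑ i, φ (T.b i) • T.pr' i

theorem U_Φ (φ : (P ⟶ F) →ₗ[K] K) (m : P ⟶ F) : T.U m ≫ T.Φ φ = φ m • 𝟙 P := by
  have : ∀ m, T.U m ≫ T.Φ φ = φ m • 𝟙 P := by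
    intro m
    rw [U_apply, Φ, Preadditive.sum_comp]
    have h1 : ∀ i ∈ (Finset.univ : Finset T.ι), (T.b.repr m i • T.u i) ≫ (∑ j, φ (T.b j) • T.pr j)
        = (T.b.repr m i * φ (T.b i)) • 𝟙 P := by
      intro i _
      rw [Preadditive.comp_sum, Finset.sum_eq_single i]
      · rw [Linear.smul_comp, Linear.comp_smul, T.u_pr, if_pos rfl, smul_smul]
      · intro j _ hj
        rw [Linear.smul_comp, Linear.comp_smul, T.u_pr, if_neg hj.symm, smul_zero, smul_zero]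
      · intro h; exact absurd (Finset.mem_univ _) h
    rw [Finset.sum_congr rfl h1, ← Finset.sum_smul]
    congr 1
    conv_rhs => rw [← T.b.sum_repr m]
    rw [map_sum]
    apply Finset.sum_congr rfl
    intro i _
    rw [map_smul, smul_eq_mul]
  exact this m

theorem U'_Φ' (φ : (P ⟶ F) →ₗ[K] K) (m : P ⟶ F) : T.U' m ≫ T.Φ' φ = φ m • 𝟙 P := by
  rw [U'_apply, Φ', Preadditive.sum_comp]
  have h1 : ∀ i ∈ (Finset.univ : Finset T.ι), (T.b.repr m i • T.u' i) ≫ (∑ j, φ (T.b j) • T.pr' j)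
      = (T.b.repr m i * φ (T.b i)) • 𝟙 P := by
    intro i _
    rw [Preadditive.comp_sum, Finset.sum_eq_single i]
    · rw [Linear.smul_comp, Linear.comp_smul, T.u'_pr', if_pos rfl, smul_smul]
    · intro j _ hj
      rw [Linear.smul_comp, Linear.comp_smul, T.u'_pr', if_neg hj.symm, smul_zero, smul_zero]
    · intro h; exact absurd (Finset.mem_univ _) h
  rw [Finset.sum_congr rfl h1, ← Finset.sum_smul]
  congr 1
  conv_rhs => rw [← T.b.sum_repr m]
  rw [map_sum]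
  apply Finset.sum_congr rfl
  intro i _
  rw [map_smul, smul_eq_mul]

theorem U_mem {a : ℤ} {m : P ⟶ F} (hm : m ∈ G.gr P F a) : T.U m ∈ G.gr P T.Q a := by
  rw [U_apply]
  apply Submodule.sum_mem
  intro i _
  by_cases hi : T.d i = a
  · exact Submodule.smul_mem _ _ (G.cast_mem (T.u_mem i) hi)
  · rw [G.repr_supp T.b T.d T.b_mem hm i hi, zero_smul]
    exact Submodule.zero_mem _

theorem U'_mem {a : ℤ} {m : P ⟶ F} (hm : m ∈ G.gr P F a) : T.U' m ∈ G.gr P T.Q' (a + k) := by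
  rw [U'_apply]
  apply Submodule.sum_mem
  intro i _
  by_cases hi : T.d i = a
  · exact Submodule.smul_mem _ _ (G.cast_mem (T.u'_mem i) (by rw [hi]))
  · rw [G.repr_supp T.b T.d T.b_mem hm i hi, zero_smul]
    exact Submodule.zero_mem _

/-- `h (m ⊗ 1) = mt ⊗ 1 - m ⊗ t` -/
theorem U'_h (m : P ⟶ F) : T.U' m ≫ T.h = T.U (t ≫ m) - t ≫ T.U m := by
  have h1 : T.U' m ≫ T.h = ∑ i, T.b.repr m i • (T.u' i ≫ T.h) := by
    rw [U'_apply, Preadditive.sum_comp]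
    simp only [Linear.smul_comp]
  have h2 : T.U (t ≫ m) = ∑ i, T.b.repr m i • T.U (t ≫ T.b i) := by
    conv_lhs => rw [← T.b.sum_repr m]
    rw [Preadditive.comp_sum, map_sum]
    simp only [Linear.comp_smul, map_smul]
  rw [h1, h2, U_apply T m, Preadditive.comp_sum, ← Finset.sum_sub_distrib]
  apply Finset.sum_congr rfl
  intro i _
  rw [T.h_eq, Linear.comp_smul, smul_sub]
  rfl

theorem U_c_e (m : P ⟶ F) : T.U m ≫ T.c ≫ T.e = m := by
  rw [U_apply, Preadditive.sum_comp]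
  simp only [Linear.smul_comp, T.ce]
  exact T.b.sum_repr m

/-- `mt ⊗ 1 = m ⊗ t` in the cone -/
theorem t_U_c (m : P ⟶ F) : t ≫ T.U m ≫ T.c = T.U (t ≫ m) ≫ T.c := by
  have h1 : (T.U' m ≫ T.h) ≫ T.c = 0 := by rw [Category.assoc, T.ex_h_c.1, Limits.comp_zero]
  rw [U'_h, Preadditive.sub_comp, sub_eq_zero] at h1
  rw [h1, Category.assoc]

theorem tp_U_c (m : P ⟶ F) (i : ℕ) : tp t i ≫ T.U m ≫ T.c = T.U (tp t i ≫ m) ≫ T.c := by
  induction i generalizing m with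
  | zero => simp
  | succ i ih => rw [tp_succ, Category.assoc, T.t_U_c, ih, Category.assoc]

/-- tensors of nonzero elements are nonzero -/
theorem comp_U_ne_zero {X : D} {y : X ⟶ P} {m : P ⟶ F} (hy : y ≠ 0) (hm : m ≠ 0) :
    y ≫ T.U m ≠ 0 := by
  intro h0
  obtain ⟨φ, hφ⟩ : ∃ φ : (P ⟶ F) →ₗ[K] K, φ m ≠ 0 := by
    by_contra hcon
    push Not at hcon
    exact hm ((Module.forall_dual_apply_eq_zero_iff K m).1 hcon)
  have h1 : y ≫ T.U m ≫ T.Φ φ = 0 := by rw [← Category.assoc, h0, Limits.zero_comp]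
  rw [U_Φ, Linear.comp_smul, Category.comp_id] at h1
  exact hy ((smul_eq_zero.1 h1).resolve_left hφ)

theorem comp_U'_ne_zero {X : D} {y : X ⟶ P} {m : P ⟶ F} (hy : y ≠ 0) (hm : m ≠ 0) :
    y ≫ T.U' m ≠ 0 := by
  intro h0
  obtain ⟨φ, hφ⟩ : ∃ φ : (P ⟶ F) →ₗ[K] K, φ m ≠ 0 := by
    by_contra hcon
    push Not at hcon
    exact hm ((Module.forall_dual_apply_eq_zero_iff K m).1 hcon)
  have h1 : y ≫ T.U' m ≫ T.Φ' φ = 0 := by rw [← Category.assoc, h0, Limits.zero_comp]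
  rw [U'_Φ', Linear.comp_smul, Category.comp_id] at h1
  exact hy ((smul_eq_zero.1 h1).resolve_left hφ)

/-- coordinates of a morphism to `Q` -/
theorem eq_sum {X : D} (w : X ⟶ T.Q) : w = ∑ i, (w ≫ T.pr i) ≫ T.u i := by
  conv_lhs => rw [← Category.comp_id w, ← T.sum_pr_u, Preadditive.comp_sum]
  simp only [Category.assoc]

theorem eq_sum' {X : D} (w : X ⟶ T.Q') : w = ∑ i, (w ≫ T.pr' i) ≫ T.u' i := by
  conv_lhs => rw [← Category.comp_id w, ← T.sum_pr'_u', Preadditive.comp_sum]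
  simp only [Category.assoc]

/-- `m ∘ η = 0` for every `m : P → F`. -/
theorem comp_η (m : P ⟶ F) : m ≫ T.η = 0 := by
  rw [← T.U_c_e m, Category.assoc, Category.assoc, T.ex_e_η.1, Limits.comp_zero, Limits.comp_zero]

/-- `δ : Hom(X, F') → Hom(X, Q')` -/
def δ {X : D} (g : X ⟶ F') : X ⟶ T.Q' := g ≫ T.del ≫ T.dd

theorem δ_mem {X : D} {j : ℤ} {g : X ⟶ F'} (hg : g ∈ G.gr X F' j) :
    T.δ g ∈ G.gr X T.Q' (j + 2 * ε) :=
  G.comp_mem' hg (G.comp_mem T.del_mem T.dd_mem) (by ring)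

theorem comp_δ {X Y : D} (x : Y ⟶ X) (g : X ⟶ F') : T.δ (x ≫ g) = x ≫ T.δ g := by
  simp [δ]

theorem δ_h {X : D} (g : X ⟶ F') : T.δ g ≫ T.h = 0 := by
  simp [δ, T.ex_dd_h.1]

theorem δ_add {X : D} (g g' : X ⟶ F') : T.δ (g + g') = T.δ g + T.δ g' := by
  simp [δ]

theorem δ_sub {X : D} (g g' : X ⟶ F') : T.δ (g - g') = T.δ g - T.δ g' := by
  simp [δ]

theorem δ_smul {X : D} (a : K) (g : X ⟶ F') : T.δ (a • g) = a • T.δ g := by
  simp [δ]

section PObj

variable {n : ℕ} (hP : PObj G n k P t)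
include hP

/-- in `Hom(P, Cn)` the image of `c` is `{m ⊗ 1}` -/
theorem comp_c_eq (w : P ⟶ T.Q) : w ≫ T.c = T.U (w ≫ T.c ≫ T.e) ≫ T.c := by
  have key : ∀ (r : P ⟶ P) (m : P ⟶ F), r ≫ T.U m ≫ T.c = T.U (r ≫ m) ≫ T.c := by
    intro r m
    obtain ⟨a, rfl⟩ := hP.span r
    rw [Preadditive.sum_comp, Preadditive.sum_comp, map_sum, Preadditive.sum_comp]
    apply Finset.sum_congr rfl
    intro i _
    rw [Linear.smul_comp, Linear.smul_comp, map_smul, Linear.smul_comp, T.tp_U_c]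
  have h1 : w ≫ T.c = ∑ i, T.U ((w ≫ T.pr i) ≫ T.b i) ≫ T.c := by
    conv_lhs => rw [T.eq_sum w, Preadditive.sum_comp]
    apply Finset.sum_congr rfl
    intro i _
    rw [← key, T.U_b, Category.assoc]
  have h2 : w ≫ T.c ≫ T.e = ∑ i, (w ≫ T.pr i) ≫ T.b i := by
    rw [← Category.assoc, h1, Preadditive.sum_comp]
    apply Finset.sum_congr rfl
    intro i _
    rw [Category.assoc, T.U_c_e]
  rw [h2, map_sum, Preadditive.sum_comp]
  exact h1

/-- `δ` is injective on `Hom(P, F')`. -/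
theorem δ_inj {j : ℤ} {g : P ⟶ F'} (hg : g ∈ G.gr P F' j) (h0 : T.δ g = 0) : g = 0 := by
  have hz : g ≫ T.del ∈ G.gr P T.Cn (j + ε) := G.comp_mem hg T.del_mem
  obtain ⟨w, hw, hwz⟩ := T.ex_c_dd.2 P _ (g ≫ T.del) hz (by simpa [δ] using h0)
  have h1 : w ≫ T.c ≫ T.e = 0 := by
    rw [← Category.assoc, hwz, Category.assoc, T.ex_del_e.1, Limits.comp_zero]
  have h2 : g ≫ T.del = 0 := by
    rw [← hwz, T.comp_c_eq hP w, h1, map_zero, Limits.zero_comp]
  obtain ⟨v, _, hv⟩ := T.ex_η_del.2 P j g hg h2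
  rw [← hv, T.comp_η]

end PObj

/-- the kernel element `ζ(m) = ∑ t^{n-i} m ⊗ t^i` -/
noncomputable def ζ (n : ℕ) (m : P ⟶ F) : P ⟶ T.Q' :=
  ∑ i ∈ Finset.range (n + 1), tp t i ≫ T.U' (tp t (n - i) ≫ m)

theorem ζ_mem (n : ℕ) (ht : t ∈ G.gr P P k) {a : ℤ} {m : P ⟶ F} (hm : m ∈ G.gr P F a) :
    T.ζ n m ∈ G.gr P T.Q' (a + (n + 1) * k) := by
  apply Submodule.sum_mem
  intro i hi
  have hi' : i ≤ n := Nat.lt_succ_iff.1 (Finset.mem_range.1 hi)
  refine G.comp_mem' (tp_mem G ht i) (T.U'_mem (G.comp_mem (tp_mem G ht (n - i)) hm)) ?_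
  rw [Nat.cast_sub hi']
  ring

theorem ζ_h (n : ℕ) (hpow : tp t (n + 1) = 0) (m : P ⟶ F) : T.ζ n m ≫ T.h = 0 := by
  have key : ∀ i ∈ Finset.range (n + 1),
      (tp t i ≫ T.U' (tp t (n - i) ≫ m)) ≫ T.h
        = tp t i ≫ T.U (tp t (n + 1 - i) ≫ m)
          - tp t (i + 1) ≫ T.U (tp t (n + 1 - (i + 1)) ≫ m) := by
    intro i hi
    have hi' : i ≤ n := Nat.lt_succ_iff.1 (Finset.mem_range.1 hi)
    rw [Category.assoc, T.U'_h, Preadditive.comp_sub, ← Category.assoc t, ← tp_succ',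
      ← Category.assoc (tp t i) t, ← tp_succ]
    have h1 : n - i + 1 = n + 1 - i := by omega
    have h2 : n + 1 - (i + 1) = n - i := by omega
    rw [h1, h2]
  rw [ζ, Preadditive.sum_comp, Finset.sum_congr rfl key,
    Finset.sum_range_sub' (fun i => tp t i ≫ T.U (tp t (n + 1 - i) ≫ m))]
  simp [hpow]

/-- if `t m = 0` then `ζ(m) = m ⊗ t^n` -/
theorem ζ_eq (n : ℕ) {m : P ⟶ F} (hm : t ≫ m = 0) : T.ζ n m = tp t n ≫ T.U' m := by
  rw [ζ, Finset.sum_eq_single n]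
  · simp
  · intro i hi hin
    have hi' : i ≤ n := Nat.lt_succ_iff.1 (Finset.mem_range.1 hi)
    obtain ⟨l, hl⟩ : ∃ l, n - i = l + 1 := ⟨n - i - 1, by omega⟩
    rw [hl, tp_succ, Category.assoc, hm, Limits.comp_zero, map_zero, Limits.comp_zero]
  · intro h; exact absurd (Finset.self_mem_range_succ n) h

theorem ζ_add (n : ℕ) (m m' : P ⟶ F) : T.ζ n (m + m') = T.ζ n m + T.ζ n m' := by
  simp only [ζ, Preadditive.comp_add, map_add, Finset.sum_add_distrib]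

section PObj2

variable {n : ℕ} (hP : PObj G n k P t)
include hP

/-- uniqueness of the expansion along `t^l` -/
theorem coeff_unique (x : Fin (n + 1) → (P ⟶ F))
    (h0 : ∑ l : Fin (n + 1), tp t l ≫ T.U (x l) = 0) (l : Fin (n + 1)) : x l = 0 := by
  rw [← Module.forall_dual_apply_eq_zero_iff K]
  intro φ
  have h1 : ∑ l : Fin (n + 1), φ (x l) • tp t l = 0 := by
    have h2 : (∑ l : Fin (n + 1), tp t l ≫ T.U (x l)) ≫ T.Φ φ = 0 := by
      rw [h0, Limits.zero_comp]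
    rw [Preadditive.sum_comp] at h2
    rw [← h2]
    apply Finset.sum_congr rfl
    intro l _
    rw [Category.assoc, T.U_Φ, Linear.comp_smul, Category.comp_id]
  exact (Fintype.linearIndependent_iff.1 hP.indep _ h1 l)

theorem coeff_unique' (x : Fin (n + 1) → (P ⟶ F))
    (h0 : ∑ l : Fin (n + 1), tp t l ≫ T.U' (x l) = 0) (l : Fin (n + 1)) : x l = 0 := by
  rw [← Module.forall_dual_apply_eq_zero_iff K]
  intro φ
  have h1 : ∑ l : Fin (n + 1), φ (x l) • tp t l = 0 := by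
    have h2 : (∑ l : Fin (n + 1), tp t l ≫ T.U' (x l)) ≫ T.Φ' φ = 0 := by
      rw [h0, Limits.zero_comp]
    rw [Preadditive.sum_comp] at h2
    rw [← h2]
    apply Finset.sum_congr rfl
    intro l _
    rw [Category.assoc, T.U'_Φ', Linear.comp_smul, Category.comp_id]
  exact (Fintype.linearIndependent_iff.1 hP.indep _ h1 l)

theorem ζ_ne_zero {m : P ⟶ F} (hm : m ≠ 0) : T.ζ n m ≠ 0 := by
  intro h0
  apply hm
  have h1 : ∑ l : Fin (n + 1), tp t l ≫ T.U' (tp t (n - l) ≫ m) = 0 := by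
    rw [ζ, Finset.sum_range] at h0
    exact h0
  have := T.coeff_unique' hP (fun l => tp t (n - l) ≫ m) h1 (Fin.last n)
  simpa using this

/-- every homogeneous element of the kernel of `h` in `Hom(P,Q')` is some `ζ(m)`. -/
theorem ker_h {j : ℤ} {w : P ⟶ T.Q'} (hw : w ∈ G.gr P T.Q' j) (h0 : w ≫ T.h = 0) :
    ∃ m ∈ G.gr P F (j - (n + 1) * k), w = T.ζ n m := by
  classical
  -- coordinates
  set x : Fin (n + 1) → (P ⟶ F) := fun l => ∑ i, hP.basis.repr (w ≫ T.pr' i) l • T.b i with hx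
  have hw1 : w = ∑ l : Fin (n + 1), tp t l ≫ T.U' (x l) := by
    conv_lhs => rw [T.eq_sum' w]
    have : ∀ i, (w ≫ T.pr' i) ≫ T.u' i
        = ∑ l : Fin (n + 1), hP.basis.repr (w ≫ T.pr' i) l • (tp t l ≫ T.u' i) := by
      intro i
      conv_lhs => rw [← hP.basis.sum_repr (w ≫ T.pr' i)]
      rw [Preadditive.sum_comp]
      apply Finset.sum_congr rfl
      intro l _
      rw [Linear.smul_comp, hP.basis_apply]
    rw [Finset.sum_congr rfl (fun i _ => this i), Finset.sum_comm]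
    apply Finset.sum_congr rfl
    intro l _
    rw [hx]
    simp only [map_sum, map_smul, U'_b, Preadditive.comp_sum, Linear.comp_smul]
  have hxmem : ∀ l : Fin (n + 1), x l ∈ G.gr P F (j - k - l * k) := by
    intro l
    apply Submodule.sum_mem
    intro i _
    by_cases hi : (l : ℤ) * k = j - (T.d i + k)
    · exact Submodule.smul_mem _ _ (G.cast_mem (T.b_mem i) (by rw [hi]; ring))
    · rw [hP.repr_supp (G.comp_mem' hw (T.pr'_mem i) rfl) l (by
        intro h'; exact hi (by rw [h']; ring)), zero_smul]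
      exact Submodule.zero_mem _
  -- the recursion
  have hsum : ∑ l : Fin (n + 1), (tp t l ≫ T.U (t ≫ x l) - tp t (l + 1) ≫ T.U (x l)) = 0 := by
    rw [← h0]
    conv_rhs => rw [hw1, Preadditive.sum_comp]
    apply Finset.sum_congr rfl
    intro l _
    rw [Category.assoc, T.U'_h, Preadditive.comp_sub, ← Category.assoc (tp t l) t, ← tp_succ]
  -- rewrite as expansion with coefficients `t x_l - x_{l-1}`
  have hrec : ∀ l : Fin (n + 1), t ≫ x l = if h : (l : ℕ) = 0 then 0 else x ⟨l - 1, by omega⟩ := by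
    have h2 : ∑ l : Fin (n + 1), tp t l ≫ T.U
        (t ≫ x l - if h : (l : ℕ) = 0 then 0 else x ⟨l - 1, by omega⟩) = 0 := by
      rw [← hsum]
      simp only [map_sub, Preadditive.comp_sub, Finset.sum_sub_distrib]
      congr 1
      rw [Fin.sum_univ_succ, Fin.sum_univ_castSucc (n := n)]
      simp only [Fin.val_zero, dite_true, map_zero, Limits.comp_zero, zero_add, Fin.val_succ,
        Nat.succ_ne_zero, dite_false, Fin.val_last, Fin.val_castSucc]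
      rw [hP.pow, Limits.zero_comp, add_zero]
      apply Finset.sum_congr rfl
      intro l _
      congr 2
    intro l
    have := T.coeff_unique hP _ h2 l
    exact sub_eq_zero.1 this
  have hdown : ∀ i : ℕ, (hi : i ≤ n) → x ⟨n - i, by omega⟩ = tp t i ≫ x (Fin.last n) := by
    intro i
    induction i with
    | zero => intro _; simp [Fin.last]
    | succ i ih =>
      intro hi
      have h3 := hrec ⟨n - i, by omega⟩
      rw [dif_neg (by simp only; omega)] at h3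
      have h4 : (⟨n - i - 1, by omega⟩ : Fin (n + 1)) = ⟨n - (i + 1), by omega⟩ := by
        ext; simp only; omega
      simp only at h3
      rw [h4] at h3
      rw [← h3, ih (by omega), tp_succ', Category.assoc]
  refine ⟨x (Fin.last n), G.cast_mem (hxmem (Fin.last n)) (by simp only [Fin.val_last]; ring), ?_⟩
  rw [hw1, ζ, Finset.sum_range]
  apply Finset.sum_congr rfl
  intro l _
  have h5 := hdown (n - l) (by omega)
  have h6 : (⟨n - (n - (l : ℕ)), by omega⟩ : Fin (n + 1)) = l := by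
    ext; simp only; omega
  rw [h6] at h5
  rw [← h5]

/-- a homogeneous element of `Hom(P,F')` is determined by some `m : P → F`. -/
theorem exists_m {j : ℤ} {g : P ⟶ F'} (hg : g ∈ G.gr P F' j) :
    ∃ m ∈ G.gr P F (j + 2 * ε - (n + 1) * k), T.δ g = T.ζ n m :=
  T.ker_h hP (T.δ_mem hg) (T.δ_h g)

/-- every `m : P → F` comes from some `g : P → F'`. -/
theorem exists_g {a : ℤ} {m : P ⟶ F} (hm : m ∈ G.gr P F a) :
    ∃ g ∈ G.gr P F' (a + (n + 1) * k - 2 * ε), T.δ g = T.ζ n m := by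
  obtain ⟨z, hz, hz1⟩ := T.ex_dd_h.2 P _ (T.ζ n m) (T.ζ_mem n hP.deg hm) (T.ζ_h n hP.pow m)
  have h1 : z - T.U (z ≫ T.e) ≫ T.c ∈ G.gr P T.Cn (a + (n + 1) * k - ε) := by
    refine Submodule.sub_mem _ hz ?_
    exact G.comp_mem' (T.U_mem (G.comp_mem hz T.e_mem)) T.c_mem (by ring)
  have h2 : (z - T.U (z ≫ T.e) ≫ T.c) ≫ T.e = 0 := by
    rw [Preadditive.sub_comp, Category.assoc, T.U_c_e, sub_self]
  obtain ⟨g, hg, hg1⟩ := T.ex_del_e.2 P _ _ h1 h2
  refine ⟨g, G.cast_mem hg (by ring), ?_⟩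
  rw [δ, ← Category.assoc, hg1, Preadditive.sub_comp, hz1, Category.assoc, T.ex_c_dd.1,
    Limits.comp_zero, sub_zero]

end PObj2

end Tw

end Pool.Agent.PT
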