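import Pool.Agent.PT.StepNeg

/-!
# Reduced words in the two twists
-/

open CategoryTheory

namespace Pool.Agent.PT

universe v u w

variable {K : Type w} [Field K] {D : Type u} [Category.{v} D] [Preadditive D] [Linear K D]

variable {G : Grading K D} {ε k : ℤ} {n : ℕ}

theorem Pair.swap_swap (𝔓 : Pair G ε k n) : 𝔓.swap.swap = 𝔓 := by
  cases 𝔓
  simp only [Pair.swap]
  congr 1 <;> ring

/-- one step: letter `(b, s)`; `b = true` is the twist along `P`, `b = false` the twist along `P'`;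
`s = true` means the twist, `s = false` its inverse. -/
def Rel (𝔓 : Pair G ε k n) (l : Bool × Bool) (F F' : D) : Prop :=
  match l with
  | (true, true) => Nonempty (Tw G ε k 𝔓.P 𝔓.t F F')
  | (true, false) => Nonempty (Tw G ε k 𝔓.P 𝔓.t F' F)
  | (false, true) => Nonempty (Tw G ε k 𝔓.P' 𝔓.t' F F')
  | (false, false) => Nonempty (Tw G ε k 𝔓.P' 𝔓.t' F' F)

def After (𝔓 : Pair G ε k n) (l : Bool × Bool) (F : D) : Prop :=
  match l with
  | (true, true) => ∃ a1 z1 a2 z2, AfterPos 𝔓 F a1 z1 a2 z2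
  | (true, false) => ∃ a1 z1 a2 z2, AfterNeg 𝔓 F a1 z1 a2 z2
  | (false, true) => ∃ a1 z1 a2 z2, AfterPos 𝔓.swap F a1 z1 a2 z2
  | (false, false) => ∃ a1 z1 a2 z2, AfterNeg 𝔓.swap F a1 z1 a2 z2

def Ready (𝔓 : Pair G ε k n) (l : Bool × Bool) (F : D) : Prop :=
  match l with
  | (true, true) => ∃ a1 z1 a2 z2, ReadyPos 𝔓 F a1 z1 a2 z2
  | (true, false) => ∃ a1 z1 a2 z2, ReadyNeg 𝔓 F a1 z1 a2 z2
  | (false, true) => ∃ a1 z1 a2 z2, ReadyPos 𝔓.swap F a1 z1 a2 z2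
  | (false, false) => ∃ a1 z1 a2 z2, ReadyNeg 𝔓.swap F a1 z1 a2 z2

theorem Ready.step {𝔓 : Pair G ε k n} {l : Bool × Bool} {F F' : D} (h : Ready 𝔓 l F)
    (r : Rel 𝔓 l F F') : After 𝔓 l F' := by
  match l with
  | (true, true) =>
    obtain ⟨a1, z1, a2, z2, h⟩ := h
    obtain ⟨T⟩ := r
    obtain ⟨a2', z2', h'⟩ := step_pos T h
    exact ⟨_, _, _, _, h'⟩
  | (true, false) =>
    obtain ⟨a1, z1, a2, z2, h⟩ := h
    obtain ⟨T⟩ := r
    obtain ⟨a2', z2', h'⟩ := step_neg T h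
    exact ⟨_, _, _, _, h'⟩
  | (false, true) =>
    obtain ⟨a1, z1, a2, z2, h⟩ := h
    obtain ⟨T⟩ := r
    obtain ⟨a2', z2', h'⟩ := step_pos (𝔓 := 𝔓.swap) T h
    exact ⟨_, _, _, _, h'⟩
  | (false, false) =>
    obtain ⟨a1, z1, a2, z2, h⟩ := h
    obtain ⟨T⟩ := r
    obtain ⟨a2', z2', h'⟩ := step_neg (𝔓 := 𝔓.swap) T h
    exact ⟨_, _, _, _, h'⟩

theorem After.next {𝔓 : Pair G ε k n} {l l' : Bool × Bool} {F : D} (h : After 𝔓 l F)
    (hl : ¬ (l.1 = l'.1 ∧ l.2 ≠ l'.2)) : Ready 𝔓 l' F := by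
  match l, l' with
  | (true, true), (true, true) => obtain ⟨_, _, _, _, h⟩ := h; exact ⟨_, _, _, _, h.pos⟩
  | (true, true), (true, false) => exact absurd ⟨rfl, by decide⟩ hl
  | (true, true), (false, true) => obtain ⟨_, _, _, _, h⟩ := h; exact ⟨_, _, _, _, h.pos_swap⟩
  | (true, true), (false, false) => obtain ⟨_, _, _, _, h⟩ := h; exact ⟨_, _, _, _, h.neg_swap⟩
  | (true, false), (true, false) => obtain ⟨_, _, _, _, h⟩ := h; exact ⟨_, _, _, _, h.neg⟩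
  | (true, false), (true, true) => exact absurd ⟨rfl, by decide⟩ hl
  | (true, false), (false, true) => obtain ⟨_, _, _, _, h⟩ := h; exact ⟨_, _, _, _, h.pos_swap⟩
  | (true, false), (false, false) => obtain ⟨_, _, _, _, h⟩ := h; exact ⟨_, _, _, _, h.neg_swap⟩
  | (false, true), (false, true) => obtain ⟨_, _, _, _, h⟩ := h; exact ⟨_, _, _, _, h.pos⟩
  | (false, true), (false, false) => exact absurd ⟨rfl, by decide⟩ hl
  | (false, true), (true, true) =>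
    obtain ⟨_, _, _, _, h⟩ := h
    have := h.pos_swap
    rw [𝔓.swap_swap] at this
    exact ⟨_, _, _, _, this⟩
  | (false, true), (true, false) =>
    obtain ⟨_, _, _, _, h⟩ := h
    have := h.neg_swap
    rw [𝔓.swap_swap] at this
    exact ⟨_, _, _, _, this⟩
  | (false, false), (false, false) => obtain ⟨_, _, _, _, h⟩ := h; exact ⟨_, _, _, _, h.neg⟩
  | (false, false), (false, true) => exact absurd ⟨rfl, by decide⟩ hl
  | (false, false), (true, true) =>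
    obtain ⟨_, _, _, _, h⟩ := h
    have := h.pos_swap
    rw [𝔓.swap_swap] at this
    exact ⟨_, _, _, _, this⟩
  | (false, false), (true, false) =>
    obtain ⟨_, _, _, _, h⟩ := h
    have := h.neg_swap
    rw [𝔓.swap_swap] at this
    exact ⟨_, _, _, _, this⟩

/-- the object `P'` is ready for the letters `(true, ±)`. -/
theorem Pair.ready_P' (𝔓 : Pair G ε k n) (s : Bool) : Ready 𝔓 (true, s) 𝔓.P' := by
  cases s
  · exact ⟨_, _, _, _, 𝔓.readyNeg_P'⟩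
  · exact ⟨_, _, _, _, 𝔓.readyPos_P'⟩

/-- the object `P` is ready for the letters `(false, ±)`. -/
theorem Pair.ready_P (𝔓 : Pair G ε k n) (s : Bool) : Ready 𝔓 (false, s) 𝔓.P := by
  cases s
  · exact ⟨_, _, _, _, 𝔓.swap.readyNeg_P'⟩
  · exact ⟨_, _, _, _, 𝔓.swap.readyPos_P'⟩

theorem St.unique {𝔓 : Pair G ε k n} {F : D} {a1 z1 a2 z2 b1 y1 b2 y2 : ℤ}
    (h : St 𝔓 F a1 z1 a2 z2) (h' : St 𝔓 F b1 y1 b2 y2) :
    a1 = b1 ∧ z1 = y1 ∧ a2 = b2 ∧ z2 = y2 :=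
  ⟨h.b1.unique G h'.b1, h.t1.unique G h'.t1, h.b2.unique G h'.b2, h.t2.unique G h'.t2⟩

theorem AfterPos.ne {𝔓 : Pair G ε k n} {F : D} {a1 z1 a2 z2 : ℤ}
    (h : AfterPos 𝔓 F a1 z1 a2 z2) : ¬ (a2 - a1 = -𝔓.ν0 ∧ z2 - z1 = n * k - 𝔓.ν1) := by
  rintro ⟨h1, h2⟩
  have := h.hz
  have := h.ha
  have := 𝔓.hw
  have := 𝔓.hκ
  have := 𝔓.pos_nk
  have := 𝔓.nk_nonneg
  omega

theorem AfterNeg.ne {𝔓 : Pair G ε k n} {F : D} {a1 z1 a2 z2 : ℤ}
    (h : AfterNeg 𝔓 F a1 z1 a2 z2) : ¬ (a2 - a1 = -𝔓.ν0 ∧ z2 - z1 = n * k - 𝔓.ν1) := by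
  rintro ⟨h1, h2⟩
  have := h.hz
  have := h.ha
  have := 𝔓.hw
  have := 𝔓.hκ
  have := 𝔓.pos_nk
  have := 𝔓.nk_nonneg
  omega

theorem AfterPos.ne' {𝔓 : Pair G ε k n} {F : D} {a1 z1 a2 z2 : ℤ}
    (h : AfterPos 𝔓.swap F a1 z1 a2 z2) : ¬ (a1 - a2 = -𝔓.ν0 ∧ z1 - z2 = n * k - 𝔓.ν1) := by
  rintro ⟨h1, h2⟩
  have h3 := h.hz
  have h4 := h.ha
  simp only [Pair.swap] at h3 h4
  have := 𝔓.hw
  have := 𝔓.hκ
  have := 𝔓.pos_nk
  have := 𝔓.nk_nonneg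
  omega

theorem AfterNeg.ne' {𝔓 : Pair G ε k n} {F : D} {a1 z1 a2 z2 : ℤ}
    (h : AfterNeg 𝔓.swap F a1 z1 a2 z2) : ¬ (a1 - a2 = -𝔓.ν0 ∧ z1 - z2 = n * k - 𝔓.ν1) := by
  rintro ⟨h1, h2⟩
  have h3 := h.hz
  have h4 := h.ha
  simp only [Pair.swap] at h3 h4
  have := 𝔓.hw
  have := 𝔓.hκ
  have := 𝔓.pos_nk
  have := 𝔓.nk_nonneg
  omega

/-- after any letter, the extreme degrees are not those of a shift of `P'`. -/
theorem After.ne_P' {𝔓 : Pair G ε k n} {l : Bool × Bool} {F : D} (h : After 𝔓 l F)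
    {a1 z1 a2 z2 : ℤ} (hs : St 𝔓 F a1 z1 a2 z2) :
    ¬ (a2 - a1 = -𝔓.ν0 ∧ z2 - z1 = n * k - 𝔓.ν1) := by
  match l with
  | (true, true) =>
    obtain ⟨b1, y1, b2, y2, h⟩ := h
    obtain ⟨rfl, rfl, rfl, rfl⟩ := h.st.unique hs
    exact h.ne
  | (true, false) =>
    obtain ⟨b1, y1, b2, y2, h⟩ := h
    obtain ⟨rfl, rfl, rfl, rfl⟩ := h.st.unique hs
    exact h.ne
  | (false, true) =>
    obtain ⟨b1, y1, b2, y2, h⟩ := h
    obtain ⟨rfl, rfl, rfl, rfl⟩ := h.st.unique hs.swap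
    exact h.ne'
  | (false, false) =>
    obtain ⟨b1, y1, b2, y2, h⟩ := h
    obtain ⟨rfl, rfl, rfl, rfl⟩ := h.st.unique hs.swap
    exact h.ne'

/-- after any letter, the extreme degrees are not those of a shift of `P`. -/
theorem After.ne_P {𝔓 : Pair G ε k n} {l : Bool × Bool} {F : D} (h : After 𝔓 l F)
    {a1 z1 a2 z2 : ℤ} (hs : St 𝔓 F a1 z1 a2 z2) :
    ¬ (a1 - a2 = -(n * k - 𝔓.ν1) ∧ z1 - z2 = 𝔓.ν0) := by
  -- apply the previous statement to the swapped pair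
  have h' : After 𝔓.swap (!l.1, l.2) F := by
    match l with
    | (true, true) => obtain ⟨_, _, _, _, h⟩ := h; exact ⟨_, _, _, _, by rw [𝔓.swap_swap]; exact h⟩
    | (true, false) => obtain ⟨_, _, _, _, h⟩ := h; exact ⟨_, _, _, _, by rw [𝔓.swap_swap]; exact h⟩
    | (false, true) => exact h
    | (false, false) => exact h
  have := h'.ne_P' hs.swap
  intro hh
  apply this
  simp only [Pair.swap]
  omega

/-- a path of letters -/
def Path (𝔓 : Pair G ε k n) : List (Bool × Bool) → D → D → Prop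
  | [], F, F' => F = F'
  | (l :: w), F, F' => ∃ F1, Rel 𝔓 l F F1 ∧ Path 𝔓 w F1 F'

theorem Path.after {𝔓 : Pair G ε k n} {w : List (Bool × Bool)} :
    ∀ {l : Bool × Bool} {F F' : D},
    (l :: w).IsChain (fun a b => ¬ (a.1 = b.1 ∧ a.2 ≠ b.2)) → Ready 𝔓 l F →
    Path 𝔓 (l :: w) F F' → ∃ l', After 𝔓 l' F' := by
  induction w with
  | nil =>
    intro l F F' _ hr hp
    obtain ⟨F1, h1, rfl⟩ := hp
    exact ⟨l, hr.step h1⟩
  | cons l2 w ih =>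
    intro l F F' hc hr hp
    obtain ⟨F1, h1, h2⟩ := hp
    rw [List.isChain_cons_cons] at hc
    exact ih hc.2 ((hr.step h1).next hc.1) h2

end Pool.Agent.PT
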